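import Pool.Agent.Lib.MP_1aae89_al.W.Spec

section
/-!
# Module ACY: the numbers `AA z` are cyclotomic
-/
set_option autoImplicit false

namespace Pool.Agent.Lib.MP_1aae89_al.W

open Pool.Agent.Lib.MP_1aae89_al Pool.Agent.Lib.MP_1aae89_al.BF Finset

theorem specACY : SpecACY := by
  intro M _ _ L R e T hL hd ψ hψ z
  have h1 : ∀ y, ψ y ∈ cycField L := fun y => cyc_mono hd hL (hψ.mem_cyc_card y)
  have h2 : ∀ y, fx T z ψ y ∈ cycField L := by
    intro y
    unfold fx
    exact mul_mem (inv_mem (natCast_mem _ _)) (sum_mem fun i _ => h1 _)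
  unfold AA
  exact mul_mem (div_mem (natCast_mem _ _) (natCast_mem _ _))
    (sum_mem fun y _ => mul_mem (h2 _) (h2 _))

end Pool.Agent.Lib.MP_1aae89_al.W
end

section
/-!
# The Galois conjugates of `AA z`
-/
set_option autoImplicit false

namespace Pool.Agent.Lib.MP_1aae89_al.W

open Pool.Agent.Lib.MP_1aae89_al Finset Polynomial

/-- ring endomorphisms of `ℂ` and the values of characters -/
theorem aga_gal {G : Type} [Group G] {χ : G → ℂ} (h : IsCharacter χ) {N : ℕ} (hN : N ≠ 0) {x : G}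
    (hx : x ^ N = 1) (σ : ℂ →+* ℂ) {k : ℕ} (hσ : σ (zeta N) = zeta N ^ k) :
    σ (χ x) = χ (x ^ k) := by
  obtain ⟨P, hP⟩ := h.eval_pow hN hx
  have h1 := hP 1
  rw [pow_one, pow_one] at h1
  rw [h1, hP k, ← hσ]
  exact (Polynomial.aeval_algHom_apply σ.toRatAlgHom (zeta N) P).symm

theorem specAGA : SpecAGA := by
  intro M _ _ L hL hML R e T hT hTL ψ hψ z hz k hk σ hσ
  classical
  have hpow : ∀ x : M, x ^ L = 1 := by
    intro x
    obtain ⟨c, hc⟩ := hML
    rw [hc, pow_mul, pow_card_eq_one, one_pow]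
  have hg : ∀ x : M, σ (ψ x) = ψ (x ^ k) := fun x =>
    aga_gal hψ hL (hpow x) σ (hσ _ (zeta_prim hL).pow_eq_one)
  have hcop : (Nat.card M).Coprime k := by
    rw [Nat.card_eq_fintype_card]
    exact (Nat.Coprime.coprime_dvd_right hML hk).symm
  have hinj : ∀ a b : M, a ^ k = b ^ k → a = b := fun a b hab => (powCoprime hcop).injective hab
  -- the fixed point traces
  have hfx : ∀ y : M, y * z = z * y → σ (fx T z ψ y) = fx T (z ^ k) ψ (y ^ k) := by
    intro y hy
    unfold fx
    rw [map_mul, map_inv₀, map_natCast, map_sum]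
    congr 1
    refine Finset.sum_congr rfl fun i _ => ?_
    rw [hg, (Commute.pow_right (show Commute y z from hy) i).mul_pow, ← pow_mul, ← pow_mul,
      mul_comm k i]
  -- the centralizers
  have hC : Subgroup.centralizer ({z} : Set M) = Subgroup.centralizer ({z ^ k} : Set M) := by
    ext g
    rw [Subgroup.mem_centralizer_singleton_iff, Subgroup.mem_centralizer_singleton_iff]
    constructor
    · intro h
      exact (Commute.pow_right (show Commute g z from h) k).eq
    · intro h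
      have h1 : (g * z * g⁻¹) ^ k = z ^ k := by
        rw [conj_pow, h, mul_inv_cancel_right]
      have h2 := hinj _ _ h1
      exact mul_inv_eq_iff_eq_mul.1 h2
  unfold AA
  rw [map_mul, map_div₀, map_natCast, map_natCast, map_sum, hC]
  congr 1
  refine Finset.sum_equiv (powCoprime hcop) (fun y => ?_) (fun y hy => ?_)
  · rw [mem_filter, mem_filter]
    simp only [mem_univ, true_and]
    change y ^ e = z ↔ (y ^ k) ^ e = z ^ k
    rw [← pow_mul, mul_comm k e, pow_mul]
    exact ⟨fun h => by rw [h], fun h => hinj _ _ h⟩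
  · rw [mem_filter] at hy
    have h1 : y * z = z * y := by
      rw [← hy.2]
      exact (Commute.self_pow y e).eq
    have h2 : y⁻¹ * z = z * y⁻¹ := (Commute.inv_left (show Commute y z from h1)).eq
    rw [map_mul, hfx y h1, hfx y⁻¹ h2, inv_pow]
    rfl

end Pool.Agent.Lib.MP_1aae89_al.W
end

section
/-!
# Module INT: integrality of the contributions of central elements
-/
set_option autoImplicit false

namespace Pool.Agent.Lib.MP_1aae89_al.W

open Pool.Agent.Lib.MP_1aae89_al Pool.Agent.Lib.MP_1aae89_al.BF Finset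
open Pool.Agent.Lib.MP1aae89 (Pex)

theorem pow_s0_one {p L s0 : ℕ} (_hp : p.Prime) (_hL : L ≠ 0) (h : Pex p L s0) {H : Type} [Group H]
    {y : H} (hy : orderOf y ∣ L) (hc : (orderOf y).Coprime p) : y ^ s0 = 1 := by
  have h1 : orderOf y ∣ ordCompl[p] L := by
    have h2 : (orderOf y).Coprime (ordProj[p] L) := Nat.Coprime.pow_right _ hc
    refine h2.dvd_of_dvd_mul_left ?_
    rw [Nat.ordProj_mul_ordCompl_eq_self]
    exact hy
  obtain ⟨c, hc'⟩ := h1.trans h.zero
  rw [hc', pow_mul, pow_orderOf_eq_one, one_pow]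

theorem pow_s0_self {p L s0 : ℕ} (hp : p.Prime) (hL : L ≠ 0) (h : Pex p L s0) {H : Type} [Group H]
    {y : H} (hy : orderOf y ∣ L) {k : ℕ} (hk : y ^ p ^ k = 1) : y ^ s0 = y := by
  have h3 : orderOf y ∣ ordProj[p] L := by
    obtain ⟨i, -, hi⟩ := (Nat.dvd_prime_pow hp).1 (orderOf_dvd_of_pow_eq_one hk)
    rw [hi]
    refine (hp.pow_dvd_iff_dvd_ordProj hL).1 ?_
    rw [← hi]
    exact hy
  have : y ^ s0 = y ^ 1 := pow_eq_pow_iff_modEq.mpr (h.one.of_dvd h3)
  rw [this, pow_one]

theorem nR_eq {C : Type} [Group C] (P : Subgroup C) (q : ℕ) :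
    nR P q = Nat.card {z : P // ∃ x : P, x ^ q = z} := by
  unfold nR
  refine Nat.card_congr ⟨fun z => ⟨⟨z.1, ?_⟩, ?_⟩, fun z => ⟨z.1.1, ?_⟩, fun z => rfl, fun z => rfl⟩
  · obtain ⟨x, hx, hz⟩ := z.2
    rw [← hz]
    exact P.pow_mem hx q
  · obtain ⟨x, hx, hz⟩ := z.2
    exact ⟨⟨x, hx⟩, Subtype.ext hz⟩
  · obtain ⟨x, hx⟩ := z.2
    exact ⟨x.1, x.2, congrArg Subtype.val hx⟩

open scoped Pointwise in
theorem specINT (hGCA1 : SpecGCA1) (hGCA2 : SpecGCA2) (hTWG : SpecTWG) (hLSP : SpecLSP)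
    (hGLU : SpecGLU) (hPFN : SpecPFN) : SpecINT := by
  classical
  intro p hp C _ _ L s0 hL hCL hs P hP q hq z hz χ hχ
  obtain ⟨-, hmul, hsmul, hcon, -, hcomp, -, -⟩ := hGCA2
  have hfact : Fact p.Prime := ⟨hp⟩
  have hord : ∀ y : C, orderOf y ∣ L := fun y => (orderOf_dvd_card).trans hCL
  set F : C → ℂ := fun y => ((nR P q : ℕ) : ℂ) *
    (if y ^ (s0 * q) = z then χ y * χ y⁻¹ else 0) with hF
  have hconj : ∀ g x, χ (g * x * g⁻¹) = χ x := by
    intro g x
    have := hχ.conj g⁻¹ x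
    rwa [inv_inv] at this
  have hFc : ∀ g w, F (g * w * g⁻¹) = F w := by
    intro g w
    show ((nR P q : ℕ) : ℂ) * (if (g * w * g⁻¹) ^ (s0 * q) = z then
      χ (g * w * g⁻¹) * χ (g * w * g⁻¹)⁻¹ else 0) = _
    have h1 : (g * w * g⁻¹) ^ (s0 * q) = z ↔ w ^ (s0 * q) = z := by
      rw [conj_pow, mul_inv_eq_iff_eq_mul, hz g]
      exact mul_right_inj g
    have h2 : (g * w * g⁻¹)⁻¹ = g * w⁻¹ * g⁻¹ := by group
    rw [h2, hconj, hconj]
    congr 1
    exact if_congr h1 rfl rfl
  have hloc : ∀ l : ℕ, l.Prime → LD l ((Fintype.card C).factorization l) (∑ y, F y) := by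
    intro l hl
    refine hLSP l hl F hFc ?_
    intro t ht Q hQ hcomm
    have h1 : GC fun w : Q => χ (t * w) := hTWG χ hχ Q t hcomm
    have h2 : GC fun w : Q => χ (t * w)⁻¹ := hTWG (fun x => χ x⁻¹) (hGCA1.2.1 χ hχ) Q t hcomm
    have h3 : GC fun w : Q => χ (t * w) * χ (t * w)⁻¹ := hmul _ _ h1 h2
    by_cases hlp : l = p
    · subst hlp
      have ht1 : t ^ s0 = 1 := pow_s0_one hp hL hs (hord t) ht
      have hw1 : ∀ w : Q, (w : C) ^ s0 = w := by
        intro w
        obtain ⟨k, hk⟩ := hQ w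
        exact pow_s0_self hp hL hs (hord w) (k := k) (congrArg Subtype.val hk)
      have h4 : ∀ w : Q, (t * (w : C)) ^ (s0 * q) = (w : C) ^ q := by
        intro w
        have h5 : Commute t (w : C) := hcomm w w.2
        rw [pow_mul, h5.mul_pow, ht1, one_mul, hw1]
      -- conjugation into `P`
      obtain ⟨S, hS⟩ := hQ.exists_le_sylow
      have hPc : Nat.card P = l ^ (Nat.card C).factorization l := by
        rw [Nat.card_eq_fintype_card (α := C)]
        exact hP
      obtain ⟨g, hg⟩ := MulAction.exists_smul_eq C S (Sylow.ofCard P hPc)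
      have hgP : ∀ w : Q, g * (w : C) * g⁻¹ ∈ P := by
        intro w
        have h5 : (w : C) ∈ (S : Subgroup C) := hS w.2
        have h6 : MulAut.conj g • (w : C) ∈ MulAut.conj g • (S : Subgroup C) :=
          Subgroup.smul_mem_pointwise_smul _ _ _ h5
        have h7 : (MulAut.conj g • (S : Subgroup C)) = P := by
          have h8 := congrArg (fun R : Sylow l C => (R : Subgroup C)) hg
          exact h8
        rw [h7] at h6
        exact h6
      have h6 : GC fun w : Q => (if (w : C) ^ q = z then ((nR P q : ℕ) : ℂ) else 0) := by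
        by_cases hzP : z ∈ P
        · have h7 := hPFN (P := P) q (fun x y => by
            have := hq x x.2 y y.2
            exact ⟨Subtype.ext this.1, Subtype.ext this.2⟩) ⟨z, hzP⟩
          let f : Q →* P := MonoidHom.mk' (fun w => ⟨g * (w : C) * g⁻¹, hgP w⟩) fun v w => by
            refine Subtype.ext ?_
            show g * ((v : C) * (w : C)) * g⁻¹ = g * (v : C) * g⁻¹ * (g * (w : C) * g⁻¹)
            group
          have h8 := hcomp f _ h7
          have h9 : (fun w : Q => (if (w : C) ^ q = z then ((nR P q : ℕ) : ℂ) else 0)) =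
              fun w : Q => (if (f w) ^ q = (⟨z, hzP⟩ : P) then
                ((Nat.card {z : P // ∃ x, x ^ q = z} : ℕ) : ℂ) else 0) := by
            funext w
            rw [nR_eq]
            refine if_congr ?_ rfl rfl
            rw [Subtype.ext_iff]
            show (w : C) ^ q = z ↔ (g * (w : C) * g⁻¹) ^ q = z
            rw [conj_pow, mul_inv_eq_iff_eq_mul, hz g]
            exact (mul_right_inj g).symm
          rw [h9]
          convert h8
        · have h7 : (fun w : Q => (if (w : C) ^ q = z then ((nR P q : ℕ) : ℂ) else 0)) =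
              fun _ => 0 := by
            funext w
            rw [if_neg]
            intro h8
            apply hzP
            have h9 : (g * (w : C) * g⁻¹) ^ q = z := by
              rw [conj_pow, h8, mul_inv_eq_iff_eq_mul, hz g]
            rw [← h9]
            exact P.pow_mem (hgP w) q
          rw [h7]
          exact hcon 0 isIntegral_zero
      have h7 : (fun w : Q => F (t * w)) = fun w : Q =>
          (if (w : C) ^ q = z then ((nR P q : ℕ) : ℂ) else 0) * (χ (t * w) * χ (t * w)⁻¹) := by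
        funext w
        show ((nR P q : ℕ) : ℂ) * (if (t * (w : C)) ^ (s0 * q) = z then
          χ (t * w) * χ (t * w)⁻¹ else 0) = _
        rw [h4]
        split_ifs <;> ring
      rw [h7]
      exact hmul _ _ h6 h3
    · have hw1 : ∀ w : Q, (w : C) ^ s0 = 1 := by
        intro w
        obtain ⟨k, hk⟩ := hQ w
        refine pow_s0_one hp hL hs (hord w) ?_
        have h5 : orderOf (w : C) ∣ l ^ k := orderOf_dvd_of_pow_eq_one (congrArg Subtype.val hk)
        exact Nat.Coprime.coprime_dvd_left h5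
          (Nat.Coprime.pow_left _ ((Nat.coprime_primes hl hp).2 hlp))
      have h4 : ∀ w : Q, (t * (w : C)) ^ (s0 * q) = t ^ (s0 * q) := by
        intro w
        have h5 : Commute t (w : C) := hcomm w w.2
        rw [pow_mul, h5.mul_pow, hw1, mul_one, ← pow_mul]
      have h7 : (fun w : Q => F (t * w)) = fun w : Q =>
          (((nR P q : ℕ) : ℂ) * (if t ^ (s0 * q) = z then 1 else 0)) *
            (χ (t * w) * χ (t * w)⁻¹) := by
        funext w
        show ((nR P q : ℕ) : ℂ) * (if (t * (w : C)) ^ (s0 * q) = z then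
          χ (t * w) * χ (t * w)⁻¹ else 0) = _
        rw [h4]
        split_ifs <;> ring
      rw [h7]
      refine hsmul _ _ ?_ h3
      refine IsIntegral.mul (isIntegral_algebraMap (R := ℤ) (x := ((nR P q : ℕ) : ℤ))) ?_
      split_ifs
      · exact isIntegral_one
      · exact isIntegral_zero
  have hfin := hGLU (Fintype.card C) Fintype.card_ne_zero _ hloc
  convert hfin using 1
  rw [hF, ← Finset.mul_sum]
  ring

end Pool.Agent.Lib.MP_1aae89_al.W
end

section
/-!
# Module AIN: the numbers `AA z` are algebraic integers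
-/
set_option autoImplicit false

namespace Pool.Agent.Lib.MP_1aae89_al.W

open Pool.Agent.Lib.MP_1aae89_al Pool.Agent.Lib.MP_1aae89_al.BF Finset
open Pool.Agent.Lib.MP1aae89 (Pex)

open Classical in
theorem sum_cen {M : Type} [Group M] [Fintype M] (z : M) (e : ℕ) (f : M → ℂ)
    (hz : z ∈ Subgroup.centralizer ({z} : Set M)) :
    ∑ y ∈ univ.filter (fun y : M => y ^ e = z), f y =
      ∑ y : Subgroup.centralizer ({z} : Set M),
        if y ^ e = (⟨z, hz⟩ : Subgroup.centralizer ({z} : Set M)) then f y else 0 := by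
  rw [Finset.sum_filter]
  have h1 : ∑ y : M, (if y ^ e = z then f y else 0) =
      ∑ y ∈ univ.filter (fun y : M => y ∈ Subgroup.centralizer ({z} : Set M)),
        (if y ^ e = z then f y else 0) := by
    symm
    refine Finset.sum_subset (Finset.filter_subset _ _) fun y _ hy => ?_
    rw [if_neg]
    intro h
    apply hy
    refine mem_filter.2 ⟨mem_univ _, ?_⟩
    rw [Subgroup.mem_centralizer_iff]
    rintro _ rfl
    rw [← h]
    exact (Commute.refl y).pow_left e
  rw [h1]
  rw [Finset.sum_subtype (p := fun y => y ∈ Subgroup.centralizer ({z} : Set M)) _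
    (fun y => by simp only [mem_filter, mem_univ, true_and]) _]
  refine Finset.sum_congr rfl fun y _ => ?_
  refine if_congr ?_ rfl rfl
  rw [Subtype.ext_iff]
  rfl

theorem specAIN (hINT : SpecINT) (hFXC : SpecFXC) : SpecAIN := by
  classical
  intro p hp M _ _ L s0 T hL hML hs hT P hP q hq ψ hψ u hu
  set z := u ^ q with hz
  set C := Subgroup.centralizer ({z} : Set M) with hC
  have hT0 : T ≠ 0 := by
    rw [hT]
    exact (Nat.ordProj_pos L p).ne'
  have hzC : z ∈ C := by
    rw [hC, Subgroup.mem_centralizer_iff]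
    rintro _ rfl
    rfl
  have hPC : P ≤ C := by
    intro x hx
    rw [hC, Subgroup.mem_centralizer_iff]
    rintro _ rfl
    exact (hq u hu x hx).2
  have hPcard : Nat.card (P.subgroupOf C) = Nat.card P :=
    Nat.card_congr (Subgroup.subgroupOfEquivOfLe hPC).toEquiv
  have hfac : (Fintype.card C).factorization p = (Fintype.card M).factorization p := by
    have hM0 : Fintype.card M ≠ 0 := Fintype.card_ne_zero
    have hC0 : Fintype.card C ≠ 0 := Fintype.card_ne_zero
    have h1 : Fintype.card C ∣ Fintype.card M := by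
      rw [← Nat.card_eq_fintype_card, ← Nat.card_eq_fintype_card]
      exact Subgroup.card_subgroup_dvd_card C
    apply le_antisymm
    · exact (Nat.factorization_le_iff_dvd hC0 hM0).2 h1 p
    · rw [← hp.pow_dvd_iff_le_factorization hC0, ← hP, ← hPcard, ← Nat.card_eq_fintype_card]
      exact Subgroup.card_subgroup_dvd_card _
  have hPow : PowC (P.subgroupOf C) q := by
    intro x hx y hy
    have := hq x hx y hy
    exact ⟨Subtype.ext this.1, Subtype.ext this.2⟩
  have hzT : z ^ T = 1 := by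
    have h1 : u ^ T = 1 := by
      have h2 : (⟨u, hu⟩ : P) ^ Nat.card P = 1 := pow_card_eq_one'
      have h3 : u ^ Nat.card P = 1 := congrArg Subtype.val h2
      have h4 : Nat.card P ∣ T := by
        rw [hP, hT]
        exact pow_dvd_pow p ((Nat.factorization_le_iff_dvd Fintype.card_ne_zero hL).2 hML p)
      obtain ⟨c, hc⟩ := h4
      rw [hc, pow_mul, h3, one_pow]
    rw [hz, ← pow_mul, mul_comm, pow_mul, h1, one_pow]
  have hcen : ∀ y : C, (⟨z, hzC⟩ : C) * y = y * ⟨z, hzC⟩ := fun y =>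
    Subtype.ext ((Subgroup.mem_centralizer_iff.1 y.2) z rfl)
  have hchi := hFXC (C := C) T hT0 ⟨z, hzC⟩ (Subtype.ext hzT) hcen _ (hψ.comp C.subtype)
  have hCL : Fintype.card C ∣ L := by
    refine Dvd.dvd.trans ?_ hML
    rw [← Nat.card_eq_fintype_card, ← Nat.card_eq_fintype_card]
    exact Subgroup.card_subgroup_dvd_card C
  have hres := hINT p hp (C := C) L s0 hL hCL hs (P.subgroupOf C)
    (by rw [hPcard, hP, hfac]) q hPow ⟨z, hzC⟩ hcen _ hchi
  have hnR : nR (P.subgroupOf C) q = nR P q := by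
    unfold nR
    refine Nat.card_congr ⟨fun w => ⟨w.1.1, ?_⟩, fun w => ⟨⟨w.1, ?_⟩, ?_⟩, fun z => rfl,
      fun z => rfl⟩
    · obtain ⟨x, hx, hw⟩ := w.2
      exact ⟨x.1, hx, congrArg Subtype.val hw⟩
    · obtain ⟨x, hx, hw⟩ := w.2
      rw [← hw]
      exact C.pow_mem (hPC hx) q
    · obtain ⟨x, hx, hw⟩ := w.2
      exact ⟨⟨x, hPC hx⟩, hx, Subtype.ext hw⟩
  unfold AA
  rw [sum_cen z (s0 * q) _ hzC]
  rw [hnR] at hres
  convert hres using 2
  · rw [Nat.card_eq_fintype_card]
  · refine Finset.sum_congr rfl fun y _ => ?_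
    by_cases h : y ^ (s0 * q) = (⟨z, hzC⟩ : C)
    · rw [if_pos h, if_pos h]
      rfl
    · rw [if_neg h, if_neg h]

end Pool.Agent.Lib.MP_1aae89_al.W
end

section
/-!
# AMG: the mean value of the conjugates of a totally positive algebraic integer
-/
set_option autoImplicit false

namespace Pool.Agent.Lib.MP_1aae89_al.W

open Pool.Agent.Lib.MP_1aae89_al Finset
open Pool.Agent.Lib.MP1aae89 (cyc exists_extend ze_int)

/-- an element of `ℚ_L` fixed by all automorphisms is rational -/
theorem amg_rat (L : ℕ) [NeZero L] (x : ℂ) (hx : x ∈ cycField L)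
    (h : ∀ (j : (ZMod L)ˣ) (σ : ℂ →+* ℂ),
      (∀ ξ : ℂ, ξ ^ L = 1 → σ ξ = ξ ^ (j : ZMod L).val) → σ x = x) : ∃ q : ℚ, (q : ℂ) = x := by
  have hL : 0 < L := Nat.pos_of_neZero L
  have hc : IsCyclotomicExtension {L} ℚ (cycField L) := cyc L
  have : NumberField (cycField L) :=
    { to_charZero := inferInstance
      to_finiteDimensional := IntermediateField.adjoin.finiteDimensional (ze_int L hL) }
  have hg : IsGalois ℚ (cycField L) := IsCyclotomicExtension.isGalois {L} ℚ (cycField L)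
  have h1 : (⟨x, hx⟩ : cycField L) ∈ Set.range (algebraMap ℚ (cycField L)) := by
    rw [IsGalois.mem_range_algebraMap_iff_fixed]
    intro f
    obtain ⟨σ, hσ⟩ := exists_extend (Ω := ℂ) f.toRingEquiv
    have h2 := h (IsCyclotomicExtension.Rat.galEquivZMod L (cycField L) f) σ.toRingHom
      (fun ξ hξ => by
        have h3 : ξ ∈ cycField L := Pool.Agent.Lib.MP1aae89.root_mem L hL hξ
        have h4 := hσ ⟨ξ, h3⟩
        have h5 : f ⟨ξ, h3⟩ = (⟨ξ, h3⟩ : cycField L) ^
            ((IsCyclotomicExtension.Rat.galEquivZMod L (cycField L) f : (ZMod L)ˣ) :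
              ZMod L).val :=
          IsCyclotomicExtension.Rat.galEquivZMod_apply_of_pow_eq L (cycField L) f
            (Subtype.ext hξ)
        have h6 : (f ⟨ξ, h3⟩ : ℂ) = ξ ^
            ((IsCyclotomicExtension.Rat.galEquivZMod L (cycField L) f : (ZMod L)ˣ) :
              ZMod L).val := by
          rw [h5]
          rfl
        exact h4.trans h6)
    apply Subtype.ext
    have h7 := hσ ⟨x, hx⟩
    exact h7.symm.trans h2
  obtain ⟨q, hq⟩ := h1
  refine ⟨q, ?_⟩
  have h8 := congrArg (fun y : cycField L => (y : ℂ)) hq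
  simpa using h8

theorem specAMG : SpecAMG := by
  intro L _ a hint hmem hpos hconj
  choose x hx0 hx using hpos
  have hfix : ∀ (j : (ZMod L)ˣ) (σ : ℂ →+* ℂ),
      (∀ ξ : ℂ, ξ ^ L = 1 → σ ξ = ξ ^ (j : ZMod L).val) → σ (∏ k, a k) = ∏ k, a k := by
    intro j σ hσ
    rw [map_prod]
    exact Fintype.prod_equiv (Equiv.mulLeft j) _ _ fun k => hconj j σ hσ k
  obtain ⟨q, hq⟩ := amg_rat L (∏ k, a k) (prod_mem fun k _ => hmem k) hfix
  have hqint : IsIntegral ℤ q := by
    have h1 : IsIntegral ℤ ((q : ℚ) : ℂ) := by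
      rw [hq]
      exact IsIntegral.prod _ fun k _ => hint k
    have h2 : IsIntegral ℤ (algebraMap ℚ ℂ q) := h1
    exact (isIntegral_algebraMap_iff (algebraMap ℚ ℂ).injective).1 h2
  obtain ⟨z, hz⟩ := IsIntegrallyClosed.isIntegral_iff.1 hqint
  have hz' : (z : ℚ) = q := hz
  have hprod : ((∏ k, x k : ℝ) : ℂ) = ∏ k, a k := by
    rw [Complex.ofReal_prod]
    exact prod_congr rfl fun k _ => (hx k).symm
  have hzx : (z : ℝ) = ∏ k, x k := by
    have h1 : ((z : ℝ) : ℂ) = ((∏ k, x k : ℝ) : ℂ) := by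
      rw [hprod, ← hq, ← hz']
      push_cast
      rfl
    exact Complex.ofReal_injective h1
  have hxpos : 0 < ∏ k, x k := prod_pos fun k _ => hx0 k
  have h1 : (1 : ℝ) ≤ ∏ k, x k := by
    rw [← hzx] at hxpos ⊢
    have : 0 < z := by exact_mod_cast hxpos
    exact_mod_cast this
  have h2 : 0 ≤ ∑ k, Real.log (x k) := by
    rw [← Real.log_prod fun k _ => (hx0 k).ne']
    exact Real.log_nonneg h1
  have h3 : ∑ k, (a k).re = ∑ k, x k := sum_congr rfl fun k _ => by
    rw [hx k, Complex.ofReal_re]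
  rw [h3]
  have h4 : ∑ k : (ZMod L)ˣ, (1 + Real.log (x k)) ≤ ∑ k, x k :=
    sum_le_sum fun k _ => by
      have := Real.log_le_sub_one_of_pos (hx0 k)
      linarith
  rw [sum_add_distrib, sum_const, card_univ, nsmul_eq_mul, mul_one] at h4
  linarith

end Pool.Agent.Lib.MP_1aae89_al.W
end

section
/-!
# Module APO: `AA z` is positive if `p` does not divide the dimension of the fixed space
-/
set_option autoImplicit false

namespace Pool.Agent.Lib.MP_1aae89_al.W

open Pool.Agent.Lib.MP_1aae89_al Pool.Agent.Lib.MP_1aae89_al.BF Finset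
open Pool.Agent.Lib.MP1aae89 (Pex)

theorem specAPO (hFXC : SpecFXC) (hNVZ : SpecNVZ) (hARE : SpecARE) : SpecAPO := by
  intro p hp M _ _ L s0 T hL hd hs hT q R hR ψ hψ u hu n hn hpn
  classical
  obtain ⟨k, hk⟩ := hu
  have hord : orderOf u ∣ T := by
    rw [hT]
    obtain ⟨i, -, hi⟩ := (Nat.dvd_prime_pow hp).1 (orderOf_dvd_of_pow_eq_one hk)
    rw [hi]
    refine (hp.pow_dvd_iff_dvd_ordProj hL).1 ?_
    rw [← hi]
    exact (orderOf_dvd_card).trans hd
  have huT : u ^ T = 1 := orderOf_dvd_iff_pow_eq_one.1 hord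
  have hT0 : T ≠ 0 := by
    rw [hT]
    exact pow_ne_zero _ hp.ne_zero
  have hs0 : u ^ s0 = u := by
    have h1 : s0 ≡ 1 [MOD orderOf u] := by
      refine hs.one.of_dvd ?_
      rw [← hT]
      exact hord
    have : u ^ s0 = u ^ 1 := pow_eq_pow_iff_modEq.mpr h1
    rw [this, pow_one]
  set z : M := u ^ q with hz
  have hzT : z ^ T = 1 := by rw [hz, ← pow_mul, mul_comm, pow_mul, huT, one_pow]
  have hzs : u ^ (s0 * q) = z := by rw [pow_mul, hs0]
  rw [hARE R (s0 * q) T hT0 ψ hψ z hzT, Complex.ofReal_re]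
  -- the value at `u`
  set C : Subgroup M := Subgroup.centralizer ({z} : Set M) with hC
  have hmem : ∀ y, y ∈ C ↔ z * y = y * z := by
    intro y
    rw [hC, Subgroup.mem_centralizer_iff]
    exact ⟨fun h => h z rfl, fun h x hx => by rw [Set.mem_singleton_iff.1 hx]; exact h⟩
  have huC : u ∈ C := by
    rw [hmem, hz, ← pow_succ, ← pow_succ']
  have hzC : z ∈ C := (hmem z).2 rfl
  have hne : fx T z ψ u ≠ 0 := by
    intro h0
    have hχ : IsCharacter fun y : C => ψ (y : M) := hψ.comp C.subtype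
    have hf := hFXC T hT0 (⟨z, hzC⟩ : C) (by
      apply Subtype.ext
      rw [Subgroup.coe_pow, Subgroup.coe_one]
      exact hzT) (by
      intro y
      apply Subtype.ext
      exact (hmem y).1 y.2) _ hχ
    have hfx : ∀ y : C, fx T (⟨z, hzC⟩ : C) (fun y : C => ψ (y : M)) y = fx T z ψ (y : M) := by
      intro y
      unfold fx
      simp only [Subgroup.coe_mul, Subgroup.coe_pow]
    apply hpn
    refine hNVZ p hp _ hf (⟨u, huC⟩ : C) k ?_ ?_ n ?_
    · apply Subtype.ext
      rw [Subgroup.coe_pow, Subgroup.coe_one]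
      exact hk
    · rw [hfx]; exact h0
    · rw [hfx]; exact hn
  have hcard : (0 : ℝ) < (Nat.card (Subgroup.centralizer ({z} : Set M)) : ℝ) := by
    exact_mod_cast Nat.card_pos
  have hR' : (0 : ℝ) < (R : ℝ) := by exact_mod_cast Nat.pos_of_ne_zero hR
  refine mul_pos (div_pos hR' hcard) ?_
  refine Finset.sum_pos' (fun y _ => ?_) ⟨u, mem_univ _, ?_⟩
  · split_ifs
    · positivity
    · exact le_refl _
  · rw [if_pos hzs]
    have := norm_pos_iff.2 hne
    positivity

end Pool.Agent.Lib.MP_1aae89_al.W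
end

section
/-!
# `AA z` is real and nonnegative
-/
set_option autoImplicit false

namespace Pool.Agent.Lib.MP_1aae89_al.W

open Pool.Agent.Lib.MP_1aae89_al Finset Polynomial

/-- ring endomorphisms of `ℂ` and the values of characters -/
theorem are_gal {G : Type} [Group G] {χ : G → ℂ} (h : IsCharacter χ) {N : ℕ} (hN : N ≠ 0) {x : G}
    (hx : x ^ N = 1) (σ : ℂ →+* ℂ) {k : ℕ} (hσ : σ (zeta N) = zeta N ^ k) :
    σ (χ x) = χ (x ^ k) := by
  obtain ⟨P, hP⟩ := h.eval_pow hN hx
  have h1 := hP 1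
  rw [pow_one, pow_one] at h1
  rw [h1, hP k, ← hσ]
  exact (Polynomial.aeval_algHom_apply σ.toRatAlgHom (zeta N) P).symm

theorem are_inv_pow {G : Type} [Group G] {N : ℕ} (hN : N ≠ 0) {x : G} (hx : x ^ N = 1) :
    x ^ (N - 1) = x⁻¹ := by
  refine eq_inv_of_mul_eq_one_left ?_
  rw [← pow_succ, Nat.sub_add_cancel (Nat.one_le_iff_ne_zero.2 hN), hx]

/-- `χ(x⁻¹)` is the complex conjugate of `χ(x)` -/
theorem are_conj {G : Type} [Group G] [Fintype G] {χ : G → ℂ} (h : IsCharacter χ) (x : G) :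
    χ x⁻¹ = starRingEnd ℂ (χ x) := by
  have hN : Fintype.card G ≠ 0 := Fintype.card_ne_zero
  have hz := zeta_prim hN
  have h1 : starRingEnd ℂ (zeta (Fintype.card G)) = zeta (Fintype.card G) ^ (Fintype.card G - 1) := by
    rw [← Complex.inv_eq_conj (Complex.norm_eq_one_of_pow_eq_one hz.pow_eq_one hN)]
    symm
    refine eq_inv_of_mul_eq_one_left ?_
    rw [← pow_succ, Nat.sub_add_cancel (Nat.one_le_iff_ne_zero.2 hN), hz.pow_eq_one]
  have h2 := are_gal h hN (pow_card_eq_one (x := x)) (starRingEnd ℂ) h1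
  rw [h2, are_inv_pow hN pow_card_eq_one]

theorem are_reindex {G : Type} [Group G] {T k : ℕ} (hT : T ≠ 0) (hk : k.Coprime T) {z : G}
    (hz : z ^ T = 1) (f : G → ℂ) :
    ∑ i ∈ range T, f ((z ^ k) ^ i) = ∑ i ∈ range T, f (z ^ i) := by
  have hm : ∀ i ∈ range T, k * i % T ∈ range T := fun i _ =>
    mem_range.2 (Nat.mod_lt _ (Nat.pos_of_ne_zero hT))
  have hinj : Set.InjOn (fun i => k * i % T) (range T : Set ℕ) := by
    intro i hi j hj hij
    rw [Finset.mem_coe, mem_range] at hi hj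
    have h1 : k * i ≡ k * j [MOD T] := hij
    have h2 : i ≡ j [MOD T] := Nat.ModEq.cancel_left_of_coprime (Nat.Coprime.symm hk) h1
    exact Nat.ModEq.eq_of_lt_of_lt h2 hi hj
  have hsurj : Set.SurjOn (fun i => k * i % T) (range T : Set ℕ) (range T : Set ℕ) :=
    Finset.surjOn_of_injOn_of_card_le _ hm hinj le_rfl
  refine Finset.sum_nbij (fun i => k * i % T) hm hinj hsurj fun i _ => ?_
  congr 1
  rw [← pow_mul]
  conv_lhs => rw [← Nat.div_add_mod (k * i) T, pow_add, pow_mul, hz, one_pow, one_mul]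

theorem are_fx {M : Type} [Group M] [Fintype M] {T : ℕ} (hT : T ≠ 0) {ψ : M → ℂ}
    (hψ : IsCharacter ψ) {z : M} (hz : z ^ T = 1) {y : M} (hy : y * z = z * y) :
    fx T z ψ y⁻¹ = starRingEnd ℂ (fx T z ψ y) := by
  unfold fx
  rw [map_mul, map_inv₀, map_natCast, map_sum]
  congr 1
  have h0 : (T - 1).Coprime T := by
    have := Nat.coprime_self_add_right (m := T - 1) (n := 1)
    rw [Nat.sub_add_cancel (Nat.one_le_iff_ne_zero.2 hT)] at this
    exact this.2 (Nat.coprime_one_right _)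
  rw [← are_reindex hT h0 hz fun w => ψ (y⁻¹ * w)]
  refine Finset.sum_congr rfl fun i _ => ?_
  rw [← are_conj hψ, are_inv_pow hT hz, mul_inv_rev, inv_pow]
  congr 1
  have h1 : Commute y⁻¹ (z ^ i)⁻¹ := (Commute.pow_right (show Commute y z from hy) i).inv_inv
  exact h1.eq

theorem specARE : SpecARE := by
  intro M _ _ R e T hT ψ hψ z hz
  classical
  unfold AA
  rw [Complex.ofReal_mul, Complex.ofReal_div, Complex.ofReal_natCast, Complex.ofReal_natCast,
    Complex.ofReal_sum]
  congr 1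
  rw [Finset.sum_filter]
  refine Finset.sum_congr rfl fun y _ => ?_
  split_ifs with hy
  · have h1 : y * z = z * y := by
      rw [← hy]
      exact (Commute.self_pow y e).eq
    rw [are_fx hT hψ hz h1, Complex.mul_conj', Complex.ofReal_pow]
  · rw [Complex.ofReal_zero]

end Pool.Agent.Lib.MP_1aae89_al.W
end

section
/-!
# Module CNT2: counting classes by means of Burnside's fusion theorem
-/
set_option autoImplicit false

namespace Pool.Agent.Lib.MP_1aae89_al.W

open Pool.Agent.Lib.MP_1aae89_al Pool.Agent.Lib.MP_1aae89_al.BF Finset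

/-- `N_G(P) ∩ C_G(R)`, `R` the set of the `q`-th powers of the elements of `P` -/
def NC {G : Type} [Group G] (P : Subgroup G) (q : ℕ) : Subgroup G :=
  Subgroup.normalizer (P : Set G) ⊓ Subgroup.centralizer {z : G | ∃ x ∈ P, x ^ q = z}

theorem cnt2 {p : ℕ} (hp : p.Prime) {G : Type} [Group G] [Fintype G] (P : Subgroup G)
    (hP : Nat.card P = p ^ (Fintype.card G).factorization p) (q : ℕ) (hq : PowC P q) :
    nR P q * Nat.card (NC P q) ≤ nK P q * Nat.card (Subgroup.normalizer (P : Set G)) := by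
  classical
  have : Fact p.Prime := ⟨hp⟩
  have hP' : Nat.card P = p ^ (Nat.card G).factorization p := by
    rw [Nat.card_eq_fintype_card (α := G)]
    exact hP
  let S : Sylow p G := Sylow.ofCard P hP'
  -- elements of `R` centralize `P`
  have hcen : ∀ z : G, (∃ x ∈ P, x ^ q = z) → z ∈ Subgroup.centralizer (P : Set G) := by
    rintro z ⟨x, hx, rfl⟩
    rw [Subgroup.mem_centralizer_iff]
    intro y hy
    exact ((hq x hx y hy).2).symm
  let X := {z : G // ∃ x ∈ P, x ^ q = z}
  let K := {k : ConjClasses G // ∃ x ∈ P, ConjClasses.mk (x ^ q) = k}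
  let f : X → K := fun z => ⟨ConjClasses.mk z.1, by
    obtain ⟨x, hx, hz⟩ := z.2
    exact ⟨x, hx, by rw [hz]⟩⟩
  have hrep : ∀ k : K, ∃ z : X, f z = k := by
    rintro ⟨k, x, hx, rfl⟩
    exact ⟨⟨x ^ q, x, hx, rfl⟩, rfl⟩
  choose rep hrep using hrep
  have hfus : ∀ z : X, ∃ n ∈ Subgroup.normalizer (P : Set G), n * (rep (f z)).1 * n⁻¹ = z.1 := by
    intro z
    have h1 : ConjClasses.mk (rep (f z)).1 = ConjClasses.mk z.1 :=
      congrArg Subtype.val (hrep (f z))
    obtain ⟨g, hg⟩ := isConj_iff.1 (ConjClasses.mk_eq_mk_iff_isConj.1 h1)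
    have h2 : g⁻¹⁻¹ * (rep (f z)).1 * g⁻¹ = z.1 := by rw [inv_inv]; exact hg
    obtain ⟨n, hn, hn2⟩ := Sylow.conj_eq_normalizer_conj_of_mem_centralizer S (rep (f z)).1 g⁻¹
      (hcen _ (rep (f z)).2)
      (by rw [h2]; exact hcen _ z.2)
    refine ⟨n⁻¹, ?_, ?_⟩
    · have hn' : n ∈ Subgroup.normalizer (P : Set G) := hn
      exact inv_mem hn'
    · rw [inv_inv, ← hn2, h2]
  choose n hn1 hn2 using hfus
  have hinj : Function.Injective fun w : X × NC P q =>
      ((f w.1, ⟨n w.1 * w.2, mul_mem (hn1 w.1) w.2.2.1⟩) :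
        K × Subgroup.normalizer (P : Set G)) := by
    rintro ⟨z, c⟩ ⟨z', c'⟩ h
    have h1 : f z = f z' := congrArg Prod.fst h
    have h2 : n z * (c : G) = n z' * (c' : G) := congrArg (fun w => ((w.2 : _) : G)) h
    have h3 : ∀ (w : X) (d : NC P q), (n w * (d : G)) * (rep (f w)).1 * (n w * (d : G))⁻¹ = w.1 := by
      intro w d
      have h4 := (Subgroup.mem_centralizer_iff.1 d.2.2) (rep (f w)).1 (rep (f w)).2
      rw [← hn2 w]
      calc n w * (d : G) * (rep (f w)).1 * (n w * (d : G))⁻¹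
          = n w * ((d : G) * (rep (f w)).1) * (d : G)⁻¹ * (n w)⁻¹ := by group
        _ = n w * ((rep (f w)).1 * (d : G)) * (d : G)⁻¹ * (n w)⁻¹ := by rw [← h4]
        _ = n w * (rep (f w)).1 * (n w)⁻¹ := by group
    have h5 : z = z' := by
      refine Subtype.ext ?_
      rw [← h3 z c, ← h3 z' c', h1, h2]
    subst h5
    have h6 : c = c' := Subtype.ext (mul_left_cancel h2)
    rw [h6]
  have h7 := Nat.card_le_card_of_injective _ hinj
  rw [Nat.card_prod, Nat.card_prod] at h7
  exact h7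

end Pool.Agent.Lib.MP_1aae89_al.W
end

section
/-!
# The automizer of a cyclic central image of the power map
-/
set_option autoImplicit false

namespace Pool.Agent.Lib.MP_1aae89_al.W

open Pool.Agent.Lib.MP_1aae89_al Pool.Agent.Lib.MP_1aae89_al.BF Finset

theorem cyc_lt {p : ℕ} (hp : p.Prime) {G : Type} [Group G] [Fintype G] (P : Subgroup G)
    (hP : Nat.card P = p ^ (Fintype.card G).factorization p) (q : ℕ) (hq : PowC P q)
    (hr : ∃ r : G, ∀ x ∈ P, x ^ q ∈ Subgroup.zpowers r) :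
    Nat.card (Subgroup.normalizer (P : Set G)) < p * Nat.card (NC P q) := by
  classical
  have : Fact p.Prime := ⟨hp⟩
  obtain ⟨r, hr⟩ := hr
  let f : P →* G := MonoidHom.mk' (fun x => (x : G) ^ q) fun x y => (hq x x.2 y y.2).1
  let R : Subgroup G := f.range
  have hR : ∀ z, z ∈ R ↔ ∃ x ∈ P, x ^ q = z := by
    intro z
    constructor
    · rintro ⟨x, hx⟩
      exact ⟨x, x.2, hx⟩
    · rintro ⟨x, hx, hz⟩
      exact ⟨⟨x, hx⟩, hz⟩
  have hRz : R ≤ Subgroup.zpowers r := by
    intro z hz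
    obtain ⟨x, hx, rfl⟩ := (hR z).1 hz
    exact hr x hx
  have hcyc : IsCyclic R := isCyclic_of_injective (Subgroup.inclusion hRz)
    (Subgroup.inclusion_injective hRz)
  set N : Subgroup G := Subgroup.normalizer (P : Set G) with hN
  have hNR : N ≤ Subgroup.normalizer (R : Set G) := by
    intro n hn
    rw [Subgroup.mem_normalizer_iff] at hn ⊢
    intro z
    constructor
    · intro hz
      obtain ⟨x, hx, rfl⟩ := (hR z).1 hz
      exact (hR _).2 ⟨n * x * n⁻¹, (hn x).1 hx, conj_pow⟩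
    · intro hz
      obtain ⟨x, hx, hxz⟩ := (hR _).1 hz
      refine (hR _).2 ⟨n⁻¹ * x * n, ?_, ?_⟩
      · rw [hn]
        have : n * (n⁻¹ * x * n) * n⁻¹ = x := by group
        rw [this]
        exact hx
      · have h1 := conj_pow (i := q) (a := n⁻¹) (b := x)
        rw [inv_inv] at h1
        rw [h1, hxz]
        group
  let φ : N →* MulAut R := R.normalizerMonoidHom.comp (Subgroup.inclusion hNR)
  have hker : φ.ker = (NC P q).subgroupOf N := by
    ext n
    have h1 : n ∈ φ.ker ↔ Subgroup.inclusion hNR n ∈ R.normalizerMonoidHom.ker := Iff.rfl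
    rw [h1, Subgroup.normalizerMonoidHom_ker, Subgroup.mem_subgroupOf, Subgroup.mem_subgroupOf]
    constructor
    · intro h
      refine ⟨n.2, ?_⟩
      show (n : G) ∈ Subgroup.centralizer {z : G | ∃ x ∈ P, x ^ q = z}
      rw [Subgroup.mem_centralizer_iff]
      intro z hz
      exact (Subgroup.mem_centralizer_iff.1 h) z ((hR z).2 hz)
    · intro h
      show (n : G) ∈ Subgroup.centralizer (R : Set G)
      rw [Subgroup.mem_centralizer_iff]
      intro z hz
      exact (Subgroup.mem_centralizer_iff.1 h.2) z ((hR z).1 hz)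
  have hNCN : NC P q ≤ N := inf_le_left
  have hcard : Nat.card N = Nat.card (NC P q) * Nat.card φ.range := by
    rw [← Subgroup.card_mul_index φ.ker, Subgroup.index_ker, hker]
    congr 1
    exact Nat.card_congr (Subgroup.subgroupOfEquivOfLe hNCN).toEquiv
  have hdvd : Nat.card φ.range ∣ (Nat.card R).totient := by
    rw [← IsCyclic.card_mulAut]
    exact Subgroup.card_subgroup_dvd_card _
  have hPNC : P ≤ NC P q := by
    intro y hy
    refine ⟨Subgroup.le_normalizer hy, ?_⟩
    show y ∈ Subgroup.centralizer {z : G | ∃ x ∈ P, x ^ q = z}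
    rw [Subgroup.mem_centralizer_iff]
    rintro z ⟨x, hx, rfl⟩
    exact (hq x hx y hy).2
  have hG0 : Fintype.card G ≠ 0 := Fintype.card_ne_zero
  have hpr : ¬ p ∣ Nat.card φ.range := by
    intro h
    have h1 : p ^ ((Fintype.card G).factorization p + 1) ∣ Fintype.card G := by
      have h2 : Nat.card P ∣ Nat.card (NC P q) := Subgroup.card_dvd_of_le hPNC
      have h3 : Nat.card P * p ∣ Nat.card N := by
        rw [hcard]
        exact Nat.mul_dvd_mul h2 h
      rw [hP, ← pow_succ] at h3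
      refine h3.trans ?_
      rw [← Nat.card_eq_fintype_card]
      exact Subgroup.card_subgroup_dvd_card N
    exact Nat.pow_succ_factorization_not_dvd hG0 hp h1
  have hRP : Nat.card R ∣ p ^ (Fintype.card G).factorization p := by
    rw [← hP]
    exact Subgroup.card_range_dvd f
  obtain ⟨m, -, hm⟩ := (Nat.dvd_prime_pow hp).1 hRP
  have hlt : Nat.card φ.range < p := by
    rw [hm] at hdvd
    rcases Nat.eq_zero_or_pos m with rfl | hm0
    · rw [pow_zero, Nat.totient_one] at hdvd
      rw [Nat.dvd_one.1 hdvd]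
      exact hp.one_lt
    · rw [Nat.totient_prime_pow hp hm0] at hdvd
      have h1 : (Nat.card φ.range).Coprime (p ^ (m - 1)) :=
        Nat.Coprime.pow_right _ ((hp.coprime_iff_not_dvd.2 hpr).symm)
      have h2 := h1.dvd_of_dvd_mul_left hdvd
      have h3 := hp.two_le
      have h4 := Nat.le_of_dvd (by omega) h2
      omega
  rw [hcard, mul_comm]
  exact Nat.mul_lt_mul_of_pos_right hlt Nat.card_pos

end Pool.Agent.Lib.MP_1aae89_al.W
end

section
/-!
# The final theorem from the specifications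
-/
set_option autoImplicit false

namespace Pool.Agent.Lib.MP_1aae89_al.W

open Pool.Agent.Lib.MP_1aae89_al Pool.Agent.Lib.MP_1aae89_al.BF Finset

theorem nK_pos {G : Type} [Group G] [Finite G] (P : Subgroup G) (q : ℕ) : 0 < nK P q := by
  unfold nK
  have : Nonempty {k : ConjClasses G // ∃ x ∈ P, ConjClasses.mk (x ^ q) = k} :=
    ⟨⟨ConjClasses.mk ((1 : G) ^ q), 1, P.one_mem, rfl⟩⟩
  have : Finite (ConjClasses G) := Quotient.finite _
  exact Nat.card_pos

theorem cen_le_NC {G : Type} [Group G] (P : Subgroup G) (q : ℕ) :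
    Subgroup.centralizer (P : Set G) ≤ NC P q := by
  intro g hg
  rw [Subgroup.mem_centralizer_iff] at hg
  refine ⟨?_, ?_⟩
  · show g ∈ Subgroup.normalizer (P : Set G)
    rw [Subgroup.mem_normalizer_iff]
    intro x
    constructor
    · intro hx
      have h1 : g * x * g⁻¹ = x := by rw [← hg x hx, mul_inv_cancel_right]
      rw [h1]
      exact hx
    · intro hx
      have h1 := hg _ hx
      have h2 : x = g * x * g⁻¹ := by
        have h3 : g * x * g⁻¹ * g = g * (g * x * g⁻¹) := h1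
        rw [inv_mul_cancel_right] at h3
        exact mul_left_cancel h3
      rw [h2]
      exact hx
  · show g ∈ Subgroup.centralizer {z : G | ∃ x ∈ P, x ^ q = z}
    rw [Subgroup.mem_centralizer_iff]
    rintro z ⟨x, hx, rfl⟩
    exact hg _ (P.pow_mem hx q)

/-- the theorem in terms of matrices -/
theorem final_mx (hMAJ : SpecMAJ) (hLRS : SpecLRS) {p : ℕ} (hp : p.Prime)
    {G : Type} [Group G] [Fintype G] (M P : Subgroup G) (hM : ¬ p ∣ M.index)
    (hP : Nat.card P = p ^ (Fintype.card G).factorization p) {n : ℕ}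
    (r : M →* Matrix (Fin n) (Fin n) ℂ) (hr : Sch r) (hn : ¬ p ∣ n) (b c : ℕ)
    (hb : lev p (fun y => (r y).trace) = b) (hc : 2 ≤ c) (hcb : c ≤ b)
    (h2 : p = 2 → c = 2 → b = 2) (hPow : PowC P (p ^ (c - 1)))
    (hh : Nat.card (Subgroup.normalizer (P : Set G)) <
        p ^ (b - c + 1) * Nat.card (NC P (p ^ (c - 1))) ∨
      nR P (p ^ (c - 1)) < p ^ (b - c + 1) * nK P (p ^ (c - 1))) :
    c ≤ lev p (fun x : P => ind M (fun y => (r y).trace) (x : G)) ∧
    c ≤ lev p (ind M (fun y => (r y).trace)) ∧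
    lev p (ind M (fun y => (r y).trace)) ≤ b := by
  have hh' : nR P (p ^ (c - 1)) < nK P (p ^ (c - 1)) * p ^ (b - c + 1) := by
    rcases hh with hN | h
    · have h3 := cnt2 hp P hP (p ^ (c - 1)) hPow
      have h4 : 0 < Nat.card (NC P (p ^ (c - 1))) := Nat.card_pos
      have h5 := nK_pos P (p ^ (c - 1))
      have h6 : nR P (p ^ (c - 1)) * Nat.card (NC P (p ^ (c - 1))) <
          nK P (p ^ (c - 1)) * p ^ (b - c + 1) * Nat.card (NC P (p ^ (c - 1))) := by
        refine h3.trans_lt ?_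
        rw [mul_assoc]
        exact Nat.mul_lt_mul_of_pos_left hN h5
      exact lt_of_mul_lt_mul_right h6 (Nat.zero_le _)
    · rw [mul_comm]
      exact h
  have h2' : p ≠ 2 ∨ 3 ≤ c ∨ c = b := by
    by_contra h
    push Not at h
    obtain ⟨h3, h4, h5⟩ := h
    have h6 : c = 2 := by omega
    exact h5 (by rw [h2 h3 h6, h6])
  have h7 := hMAJ p hp M P hM hP r hr hn b c hb hc hcb h2' hPow hh'
  have h8 := hLRS p hp M P (fun y => (r y).trace) (isCharacter_trace r)
  exact ⟨h7, h7.trans h8.1, h8.2.trans hb.le⟩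

end Pool.Agent.Lib.MP_1aae89_al.W
end

section
/-!
# Module CMB of Theorem W (MP_1aae89_al): combinatorics of classes
-/
set_option autoImplicit false

namespace Pool.Agent.Lib.MP_1aae89_al.W

open Finset

/-- CMB. -/
theorem specCMB : SpecCMB := by
  intro X U _ _ _ _ s hs α Z hZ hmeet hlow B hB
  classical
  haveI : Fintype X := Fintype.ofFinite X
  haveI : Fintype (Quotient s) := Fintype.ofFinite _
  -- choice of the representatives
  have hex : ∀ κ : Quotient s, ∃ x : X, x ∈ Z ∧ Quotient.mk s x = κ ∧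
      ∀ z ∈ Z, Quotient.mk s z = κ → α z ≤ α x := by
    intro κ
    obtain ⟨y, hy⟩ := Quotient.exists_rep κ
    obtain ⟨z0, hz0, hyz0⟩ := hmeet y
    have hne : ({z | z ∈ Z ∧ Quotient.mk s z = κ} : Set X).Nonempty :=
      ⟨z0, hz0, by rw [← hy]; exact (Quotient.sound hyz0).symm⟩
    obtain ⟨x, hx, hmax⟩ := Set.exists_max_image _ α (Set.toFinite _) hne
    exact ⟨x, hx.1, hx.2, fun z hz hzk => hmax z ⟨hz, hzk⟩⟩
  choose x hxZ hxk hxmax using hex
  -- the permutation of the classes
  have hinj : ∀ k : U, Function.Injective (fun κ : Quotient s => Quotient.mk s (k • x κ)) := by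
    intro k κ κ' h
    have h1 : s.r (k • x κ) (k • x κ') := Quotient.exact h
    have h2 := hs k⁻¹ _ _ h1
    rw [inv_smul_smul, inv_smul_smul] at h2
    rw [← hxk κ, ← hxk κ']
    exact Quotient.sound h2
  have hbij : ∀ k : U, Function.Bijective (fun κ : Quotient s => Quotient.mk s (k • x κ)) :=
    fun k => Finite.injective_iff_bijective.mp (hinj k)
  have hstep : ∀ k : U, ∑ κ : Quotient s, α (k • x κ) ≤ ∑ κ : Quotient s, α (x κ) := by
    intro k
    have h1 : ∑ κ : Quotient s, α (k • x κ) ≤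
        ∑ κ : Quotient s, α (x (Quotient.mk s (k • x κ))) :=
      Finset.sum_le_sum fun κ _ => hxmax _ _ (hZ k _ (hxZ κ)) rfl
    have h2 : ∑ κ : Quotient s, α (x (Quotient.mk s (k • x κ))) = ∑ κ : Quotient s, α (x κ) :=
      Function.Bijective.sum_comp (hbij k) (fun κ => α (x κ))
    exact h1.trans h2.le
  -- the upper bound
  have hxinj : Function.Injective x := by
    intro κ κ' h
    rw [← hxk κ, ← hxk κ', h]
  have hup : ∑ κ : Quotient s, α (x κ) ≤ B := by
    have h1 := hB (Finset.univ.image x) (by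
      intro a ha b hb hab
      obtain ⟨κ, -, rfl⟩ := Finset.mem_image.mp ha
      obtain ⟨κ', -, rfl⟩ := Finset.mem_image.mp hb
      have : Quotient.mk s (x κ) = Quotient.mk s (x κ') := Quotient.sound hab
      rw [hxk, hxk] at this
      rw [this])
    rwa [Finset.sum_image (fun a _ b _ h => hxinj h)] at h1
  -- the double sum
  have hU : (0 : ℝ) < Fintype.card U := by
    exact_mod_cast Fintype.card_pos
  have hdouble : (Fintype.card U : ℝ) * Fintype.card (Quotient s) ≤ (Fintype.card U : ℝ) * B := by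
    calc (Fintype.card U : ℝ) * Fintype.card (Quotient s)
        = ∑ _κ : Quotient s, (Fintype.card U : ℝ) := by
          rw [Finset.sum_const, Finset.card_univ, nsmul_eq_mul, mul_comm]
      _ ≤ ∑ κ : Quotient s, ∑ k : U, α (k • x κ) :=
          Finset.sum_le_sum fun κ _ => hlow _ (hxZ κ)
      _ = ∑ k : U, ∑ κ : Quotient s, α (k • x κ) := Finset.sum_comm
      _ ≤ ∑ _k : U, B := Finset.sum_le_sum fun k _ => (hstep k).trans hup
      _ = (Fintype.card U : ℝ) * B := by
          rw [Finset.sum_const, Finset.card_univ, nsmul_eq_mul]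
  rw [Nat.card_eq_fintype_card]
  exact le_of_mul_le_mul_left hdouble hU

end Pool.Agent.Lib.MP_1aae89_al.W
end

section
/-!
# Module FIN: the main inequality
-/
set_option autoImplicit false

namespace Pool.Agent.Lib.MP_1aae89_al.W

open Pool.Agent.Lib.MP_1aae89_al Pool.Agent.Lib.MP_1aae89_al.BF Finset
open Pool.Agent.Lib.MP1aae89 (Pex)

namespace FIN

theorem fx_pow {M : Type} [Group M] {T : ℕ} (hT : T ≠ 0) {z : M} (hz : z ^ T = 1) (ψ : M → ℂ)
    {k : ℕ} (hk : k.Coprime T) : fx T (z ^ k) ψ 1 = fx T z ψ 1 := by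
  unfold fx
  congr 1
  have hT' : 0 < T := Nat.pos_of_ne_zero hT
  have hinj : Set.InjOn (fun i => (k * i) % T) (range T : Finset ℕ) := by
    intro i hi i' hi' h
    have hi1 : i < T := by simpa using hi
    have hi2 : i' < T := by simpa using hi'
    have h1 : k * i ≡ k * i' [MOD T] := h
    have h2 : i ≡ i' [MOD T] := Nat.ModEq.cancel_left_of_coprime hk.symm h1
    exact Nat.ModEq.eq_of_lt_of_lt h2 hi1 hi2
  have hmaps : Set.MapsTo (fun i => (k * i) % T) (range T : Finset ℕ) (range T : Finset ℕ) := by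
    intro i _
    show (k * i) % T ∈ ((range T : Finset ℕ) : Set ℕ)
    simp [Nat.mod_lt _ hT']
  refine Finset.sum_nbij (fun i => (k * i) % T) (fun i hi => ?_) hinj ?_ ?_
  · exact mem_range.2 (Nat.mod_lt _ hT')
  · exact Finset.surjOn_of_injOn_of_card_le _ hmaps hinj le_rfl
  · intro i _
    congr 2
    rw [← pow_mul]
    conv_lhs => rw [← Nat.div_add_mod (k * i) T, pow_add, pow_mul, hz, one_pow, one_mul]

theorem fx_conj {M : Type} [Group M] (T : ℕ) (z m : M) {ψ : M → ℂ} (hψ : IsCharacter ψ) :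
    fx T (m * z * m⁻¹) ψ 1 = fx T z ψ 1 := by
  unfold fx
  congr 1
  refine Finset.sum_congr rfl fun i _ => ?_
  rw [one_mul, one_mul, conj_pow]
  have := hψ.conj m⁻¹ (z ^ i)
  rwa [inv_inv] at this

theorem pow_val {G : Type} [Group G] {L : ℕ} {z : G} (hz : z ^ L = 1) (a : ℕ) :
    z ^ (a % L) = z ^ a := by
  conv_rhs => rw [← Nat.div_add_mod a L, pow_add, pow_mul, hz, one_pow, one_mul]

end FIN

open FIN

theorem specFIN (hAIN : SpecAIN) (hACY : SpecACY) (hARE : SpecARE) (hAPO : SpecAPO)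
    (hAGA : SpecAGA) (hAMG : SpecAMG) (hUPB : SpecUPB) (hSCA : SpecSCA) (hSCB : SpecSCB)
    (hCMB : SpecCMB) : SpecFIN := by
  classical
  intro p hp G _ _ M P s0 hs hPM hP c j hc hPow n r hn hav hinv
  have hfact : Fact p.Prime := ⟨hp⟩
  set L := Fintype.card G with hL
  have hL0 : L ≠ 0 := Fintype.card_ne_zero
  have : NeZero L := ⟨hL0⟩
  set q := p ^ (c - 1) with hq
  set T := ordProj[p] L with hT
  have hT0 : T ≠ 0 := (Nat.ordProj_pos L p).ne'
  have hTL : T ∣ L := Nat.ordProj_dvd L p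
  set ψ : M → ℂ := fun y => (r y).trace with hψdef
  have hψ : IsCharacter ψ := isCharacter_trace r
  have hML : Fintype.card M ∣ L := by
    rw [hL, ← Nat.card_eq_fintype_card, ← Nat.card_eq_fintype_card]
    exact Subgroup.card_subgroup_dvd_card M
  have hM0 : Fintype.card M ≠ 0 := Fintype.card_ne_zero
  have hzL : ∀ z : G, z ^ L = 1 := fun z => pow_card_eq_one
  -- elements of `P`
  have hPT : ∀ x ∈ P, x ^ T = 1 := by
    intro x hx
    have h2 : (⟨x, hx⟩ : P) ^ Nat.card P = 1 := pow_card_eq_one'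
    rw [hP] at h2
    exact congrArg Subtype.val h2
  have hXM : ∀ z : G, (∃ x ∈ P, x ^ q = z) → z ∈ M := by
    rintro z ⟨x, hx, rfl⟩
    exact M.pow_mem (hPM hx) q
  have hXT : ∀ z : G, (∃ x ∈ P, x ^ q = z) → z ^ T = 1 := by
    rintro z ⟨x, hx, rfl⟩
    rw [← pow_mul, mul_comm, pow_mul, hPT x hx, one_pow]
  have hXp : ∀ (z : G) (k : ℕ), (∃ x ∈ P, x ^ q = z) → ∃ x ∈ P, x ^ q = z ^ k := by
    rintro z k ⟨x, hx, rfl⟩
    exact ⟨x ^ k, P.pow_mem hx k, by rw [← pow_mul, ← pow_mul, mul_comm]⟩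
  -- the set
  let X : Type := {z : G // ∃ x ∈ P, x ^ q = z}
  let toM : X → M := fun z => ⟨z.1, hXM z.1 z.2⟩
  let U : Type := (ZMod L)ˣ
  have hcopL : ∀ k : (ZMod L)ˣ, (k : ZMod L).val.Coprime L := fun k => ZMod.val_coe_unit_coprime k
  let act : MulAction (ZMod L)ˣ X :=
    { smul := fun k z => ⟨z.1 ^ (k : ZMod L).val, hXp z.1 _ z.2⟩
      one_smul := by
        intro z
        refine Subtype.ext ?_
        show z.1 ^ ((1 : (ZMod L)ˣ) : ZMod L).val = z.1
        rw [Units.val_one, ← Nat.cast_one, ZMod.val_natCast, pow_val (hzL _), pow_one]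
      mul_smul := by
        intro k k' z
        refine Subtype.ext ?_
        show z.1 ^ ((k * k' : (ZMod L)ˣ) : ZMod L).val =
          (z.1 ^ (k' : ZMod L).val) ^ (k : ZMod L).val
        rw [Units.val_mul, ZMod.val_mul, pow_val (hzL _), mul_comm, pow_mul] }
  have hsmul : ∀ (k : (ZMod L)ˣ) (z : X), (k • z).1 = z.1 ^ (k : ZMod L).val := fun k z => rfl
  let st : Setoid X :=
    { r := fun z z' => IsConj z.1 z'.1
      iseqv := ⟨fun z => IsConj.refl _, fun h => h.symm, fun h h' => h.trans h'⟩ }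
  let α : X → ℝ := fun z => (AA (nR P q) (s0 * q) T ψ (toM z)).re
  let Z : Set X := {z | ∃ d : ℕ, fx T (toM z) ψ 1 = d ∧ ¬ p ∣ d}
  have hP' : Nat.card P = p ^ L.factorization p := hP
  -- `P` in `M`
  have hPc : Nat.card (P.subgroupOf M) = Nat.card P :=
    Nat.card_congr (Subgroup.subgroupOfEquivOfLe hPM).toEquiv
  have hfac : (Fintype.card M).factorization p = L.factorization p := by
    apply le_antisymm
    · exact (Nat.factorization_le_iff_dvd hM0 hL0).2 hML p
    · rw [← hp.pow_dvd_iff_le_factorization hM0, ← hP', ← hPc, ← Nat.card_eq_fintype_card]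
      exact Subgroup.card_subgroup_dvd_card _
  have hPM' : Nat.card (P.subgroupOf M) = p ^ (Fintype.card M).factorization p := by
    rw [hPc, hP', hfac]
  have hPowM : PowC (P.subgroupOf M) q := by
    intro x hx y hy
    have := hPow x hx y hy
    exact ⟨Subtype.ext this.1, Subtype.ext this.2⟩
  have hnR : nR (P.subgroupOf M) q = nR P q := by
    unfold nR
    refine Nat.card_congr ⟨fun w => ⟨w.1.1, ?_⟩, fun w => ⟨⟨w.1, ?_⟩, ?_⟩, fun z => rfl,
      fun z => rfl⟩
    · obtain ⟨x, hx, hw⟩ := w.2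
      exact ⟨x.1, hx, congrArg Subtype.val hw⟩
    · exact hXM _ w.2
    · obtain ⟨x, hx, hw⟩ := w.2
      exact ⟨⟨x, hPM hx⟩, hx, Subtype.ext hw⟩
  have hR0 : nR P q ≠ 0 := by
    unfold nR
    have : Nonempty {z : G // ∃ x ∈ P, x ^ q = z} := ⟨⟨1, 1, P.one_mem, one_pow q⟩⟩
    exact Nat.card_pos.ne'
  -- index
  have hidx : ¬ p ∣ M.index := by
    intro h
    have h1 : p ^ (L.factorization p + 1) ∣ L := by
      have h2 : Nat.card M * M.index = L := by
        rw [Subgroup.card_mul_index, Nat.card_eq_fintype_card]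
      have h3 : p ^ L.factorization p ∣ Nat.card M := by
        rw [← hP', ← hPc]
        exact Subgroup.card_subgroup_dvd_card _
      have h4 := Nat.mul_dvd_mul h3 h
      rw [h2, ← pow_succ] at h4
      exact h4
    exact Nat.pow_succ_factorization_not_dvd hL0 hp h1
  -- stability
  have hZst : ∀ (k : (ZMod L)ˣ), ∀ z ∈ Z, k • z ∈ Z := by
    rintro k z ⟨d, hd, hpd⟩
    refine ⟨d, ?_, hpd⟩
    rw [← hd]
    have h1 : toM (k • z) = (toM z) ^ (k : ZMod L).val := Subtype.ext rfl
    rw [h1]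
    refine fx_pow hT0 (Subtype.ext (hXT z.1 z.2)) ψ ?_
    exact Nat.Coprime.coprime_dvd_right hTL (hcopL k)
  -- `Z` meets every class
  have hZm : ∀ x : X, ∃ z ∈ Z, st.r x z := by
    rintro ⟨z, u, hu, rfl⟩
    have huM : u ∈ M := hPM hu
    let B := Subgroup.zpowers u
    let cg : CommGroup B := { (inferInstance : Group B) with
      mul_comm := by
        rintro ⟨a, ha⟩ ⟨b, hb⟩
        obtain ⟨i, rfl⟩ := Subgroup.mem_zpowers_iff.1 ha
        obtain ⟨i', rfl⟩ := Subgroup.mem_zpowers_iff.1 hb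
        exact Subtype.ext ((Commute.refl u).zpow_zpow i i') }
    have hBP : B ≤ P := by
      rw [Subgroup.zpowers_le]
      exact hu
    obtain ⟨e', -, he'⟩ : ∃ e' ≤ L.factorization p, Nat.card B = p ^ e' := by
      refine (Nat.dvd_prime_pow hp).1 ?_
      rw [← hP']
      exact Subgroup.card_dvd_of_le hBP
    obtain ⟨d, n', hd, hn', hdn⟩ := hSCA p hp (B := B) e' c T
      (by rw [← Nat.card_eq_fintype_card]; exact he') hc hT0
      ⟨u, Subgroup.mem_zpowers u⟩
      (by
        rintro ⟨x, hx⟩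
        obtain ⟨i, rfl⟩ := Subgroup.mem_zpowers_iff.1 hx
        exact Subgroup.mem_zpowers_iff.2 ⟨i, Subtype.ext rfl⟩)
      (Subtype.ext (hXT (u ^ q) ⟨u, hu, rfl⟩))
      (fun x => ind M ψ (x : G))
      (fun μ => ind_nat B M hψ μ)
      (fun x => hinv x.1 (hBP x.2))
    have hn1 : ((n' : ℕ) : ℂ) = ((M.index * n : ℕ) : ℂ) := by
      rw [← hn']
      show ind M ψ ((1 : B) : G) = _
      unfold ind
      have h1 : ∀ x : G, (if h : x⁻¹ * ((1 : B) : G) * x ∈ M then
          ψ ⟨x⁻¹ * ((1 : B) : G) * x, h⟩ else 0) = (n : ℂ) := by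
        intro x
        have h2 : x⁻¹ * ((1 : B) : G) * x = 1 := by
          rw [Subgroup.coe_one, mul_one, inv_mul_cancel]
        rw [dif_pos (by rw [h2]; exact M.one_mem)]
        have h3 : (⟨x⁻¹ * ((1 : B) : G) * x, by rw [h2]; exact M.one_mem⟩ : M) = 1 :=
          Subtype.ext h2
        rw [h3]
        show (r 1).trace = _
        rw [map_one, Matrix.trace_one, Fintype.card_fin]
      rw [Finset.sum_congr rfl fun x _ => h1 x, Finset.sum_const, Finset.card_univ, nsmul_eq_mul]
      have h4 : (Fintype.card G : ℂ) = (Nat.card M : ℂ) * (M.index : ℂ) := by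
        rw [← Nat.card_eq_fintype_card, ← Subgroup.card_mul_index M]
        push_cast
        rfl
      have h5 : (Nat.card M : ℂ) ≠ 0 := by exact_mod_cast Nat.card_pos.ne'
      rw [h4]
      push_cast
      field_simp
    have hn2 : n' = M.index * n := by exact_mod_cast hn1
    have hpd : ¬ p ∣ d := by
      intro h
      have h1 : p ∣ n' := (Nat.modEq_zero_iff_dvd).1
        (hdn.symm.trans ((Nat.modEq_zero_iff_dvd).2 h))
      rw [hn2] at h1
      rcases hp.dvd_mul.1 h1 with h2 | h2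
      · exact hidx h2
      · exact hn h2
    have hd' : (T : ℂ)⁻¹ * ∑ i ∈ range T, ind M ψ ((u ^ q) ^ i) = d := hd
    obtain ⟨x, hx1, hx2, m', hm1, hm2⟩ := hSCB p hp M P (L.factorization p) hP u hu q T
      (dvd_pow_self p (by omega)) hT0 (hXT _ ⟨u, hu, rfl⟩)
      (fun y hy => (hPow u hu y hy).2) ψ hψ d hd' hpd
    -- Sylow in `M`
    let f : P →* M := MonoidHom.mk' (fun y => ⟨x⁻¹ * y * x, hx1 y y.2⟩) fun y y' => by
      refine Subtype.ext ?_
      show x⁻¹ * ((y : G) * (y' : G)) * x = x⁻¹ * (y : G) * x * (x⁻¹ * (y' : G) * x)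
      group
    have hf : Function.Injective f := by
      intro y y' h
      have h1 : x⁻¹ * (y : G) * x = x⁻¹ * (y' : G) * x := congrArg Subtype.val h
      exact Subtype.ext (mul_left_cancel (mul_right_cancel h1))
    have hcf : Nat.card f.range = p ^ (Nat.card M).factorization p := by
      rw [← Nat.card_congr (MonoidHom.ofInjective hf).toEquiv, hP,
        Nat.card_eq_fintype_card (α := M), hfac]
    have hcP : Nat.card (P.subgroupOf M) = p ^ (Nat.card M).factorization p := by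
      rw [Nat.card_eq_fintype_card (α := M)]
      exact hPM'
    obtain ⟨m, hm⟩ := MulAction.exists_smul_eq M (Sylow.ofCard f.range hcf)
      (Sylow.ofCard (P.subgroupOf M) hcP)
    have hmP : ∀ y ∈ P, (m : G) * (x⁻¹ * y * x) * (m : G)⁻¹ ∈ P := by
      intro y hy
      have h5 : f ⟨y, hy⟩ ∈ (Sylow.ofCard f.range hcf : Subgroup M) := ⟨⟨y, hy⟩, rfl⟩
      have h7 := congrArg (fun R : Sylow p M => (R : Subgroup M)) hm
      have h8 : m * f ⟨y, hy⟩ * m⁻¹ ∈ (m • (Sylow.ofCard f.range hcf) : Sylow p M) := by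
        rw [Sylow.smul_def]
        exact Subgroup.smul_mem_pointwise_smul (f ⟨y, hy⟩) (MulAut.conj m) _ h5
      rw [hm] at h8
      exact h8
    let z' : X := ⟨(m : G) * (x⁻¹ * u ^ q * x) * (m : G)⁻¹,
      (m : G) * (x⁻¹ * u * x) * (m : G)⁻¹, hmP u hu, by
        have h9 := conj_pow (i := q) (a := (m : G)) (b := x⁻¹ * u * x)
        have h10 := conj_pow (i := q) (a := x⁻¹) (b := u)
        rw [inv_inv] at h10
        rw [h9, h10]⟩
    refine ⟨z', ⟨m', ?_, hm2⟩, ?_⟩
    · rw [← hm1]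
      have h9 : toM z' = m * ⟨x⁻¹ * u ^ q * x, hx2⟩ * m⁻¹ := Subtype.ext rfl
      rw [h9]
      exact fx_conj T _ m hψ
    · show IsConj (u ^ q) ((m : G) * (x⁻¹ * u ^ q * x) * (m : G)⁻¹)
      rw [isConj_iff]
      refine ⟨(m : G) * x⁻¹, ?_⟩
      group
  -- lower bound
  have hlow : ∀ z ∈ Z, (Fintype.card (ZMod L)ˣ : ℝ) ≤ ∑ k : (ZMod L)ˣ, α (k • z) := by
    intro z hz
    obtain ⟨u, hu, huz⟩ := z.2
    have huM : u ∈ M := hPM hu
    have hzM : toM z = (⟨u, huM⟩ : M) ^ q := Subtype.ext huz.symm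
    have hzT : (toM z) ^ T = 1 := Subtype.ext (hXT z.1 z.2)
    have hpos : ∀ k : (ZMod L)ˣ, 0 < (AA (nR P q) (s0 * q) T ψ ((toM z) ^ (k : ZMod L).val)).re := by
      intro k
      obtain ⟨d, hd, hpd⟩ := hZst k z hz
      have h1 : toM (k • z) = ((⟨u, huM⟩ : M) ^ (k : ZMod L).val) ^ q := by
        refine Subtype.ext ?_
        show z.1 ^ (k : ZMod L).val = (u ^ (k : ZMod L).val) ^ q
        rw [← huz, ← pow_mul, ← pow_mul, mul_comm]
      have h2 : (toM z) ^ (k : ZMod L).val = ((⟨u, huM⟩ : M) ^ (k : ZMod L).val) ^ q := by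
        rw [← h1]
        exact Subtype.ext rfl
      rw [h2]
      rw [h1] at hd
      refine hAPO p hp L s0 T hL0 hML hs hT q (nR P q) hR0 ψ hψ _ ⟨L.factorization p, ?_⟩ d hd hpd
      refine Subtype.ext ?_
      show (u ^ (k : ZMod L).val) ^ T = 1
      exact hPT _ (P.pow_mem hu _)
    have h0 := hAMG L (fun k => AA (nR P q) (s0 * q) T ψ ((toM z) ^ (k : ZMod L).val))
      (by
        intro k
        have h1 := hAIN p hp L s0 T hL0 hML hs hT (P.subgroupOf M) hPM' q hPowM ψ hψ
          ((⟨u, huM⟩ : M) ^ (k : ZMod L).val) (by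
            show u ^ (k : ZMod L).val ∈ P
            exact P.pow_mem hu _)
        rw [hnR] at h1
        have h2 : (toM z) ^ (k : ZMod L).val = ((⟨u, huM⟩ : M) ^ (k : ZMod L).val) ^ q := by
          rw [hzM, ← pow_mul, ← pow_mul, mul_comm]
        show IsIntegral ℤ (AA (nR P q) (s0 * q) T ψ ((toM z) ^ (k : ZMod L).val))
        rw [h2]
        exact h1)
      (fun k => hACY L (nR P q) (s0 * q) T hL0 hML ψ hψ _)
      (by
        intro k
        refine ⟨_, hpos k, ?_⟩
        have h1 := hARE (nR P q) (s0 * q) T hT0 ψ hψ ((toM z) ^ (k : ZMod L).val)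
          (by rw [← pow_mul, mul_comm, pow_mul, hzT, one_pow])
        show AA (nR P q) (s0 * q) T ψ ((toM z) ^ (k : ZMod L).val) =
          ((AA (nR P q) (s0 * q) T ψ ((toM z) ^ (k : ZMod L).val)).re : ℂ)
        rw [h1, Complex.ofReal_re])
      (by
        intro jj σ hσ k
        have h1 := hAGA L hL0 hML (nR P q) (s0 * q) T hT0 hTL ψ hψ ((toM z) ^ (k : ZMod L).val)
          (by rw [← pow_mul, mul_comm, pow_mul, hzT, one_pow]) (jj : ZMod L).val (hcopL jj) σ hσ
        show σ (AA (nR P q) (s0 * q) T ψ ((toM z) ^ (k : ZMod L).val)) =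
          AA (nR P q) (s0 * q) T ψ ((toM z) ^ ((jj * k : (ZMod L)ˣ) : ZMod L).val)
        rw [h1]
        congr 1
        have hzL' : (toM z) ^ L = 1 := Subtype.ext (hzL _)
        rw [Units.val_mul, ZMod.val_mul, pow_val hzL', mul_comm, pow_mul])
    refine h0.trans (le_of_eq (Finset.sum_congr rfl fun k _ => ?_))
    rfl
  -- upper bound
  have hup : ∀ A : Finset X, (∀ x ∈ A, ∀ y ∈ A, st.r x y → x = y) →
      ∑ x ∈ A, α x ≤ (nR P q : ℝ) / (p : ℝ) ^ j := by
    intro A hA
    have htoM : Function.Injective toM := by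
      intro z z' h
      exact Subtype.ext (congrArg (fun w : M => (w : G)) h)
    have h1 := hUPB (M := M) (nR P q) (s0 * q) T hT0 ψ hψ (A.image toM)
      (by
        intro z hz
        obtain ⟨w, -, rfl⟩ := Finset.mem_image.1 hz
        exact Subtype.ext (hXT w.1 w.2))
      (by
        intro z hz z' hz' ⟨g, hg⟩
        obtain ⟨w, hw, rfl⟩ := Finset.mem_image.1 hz
        obtain ⟨w', hw', rfl⟩ := Finset.mem_image.1 hz'
        rw [hA w hw w' hw' (isConj_iff.2 ⟨(g : G), congrArg Subtype.val hg⟩)])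
    rw [Finset.sum_image (fun a _ b _ h => htoM h)] at h1
    refine h1.trans ?_
    have h2 := hav inferInstance
    have hMR : (0 : ℝ) < (Fintype.card M : ℝ) := by exact_mod_cast Fintype.card_pos
    calc (nR P q : ℝ) / (Fintype.card M : ℝ) * ∑ y, ‖av T (s0 * q) ψ y‖ ^ 2
        ≤ (nR P q : ℝ) / (Fintype.card M : ℝ) * ((Fintype.card M : ℝ) / (p : ℝ) ^ j) :=
          mul_le_mul_of_nonneg_left h2 (by positivity)
      _ = (nR P q : ℝ) / (p : ℝ) ^ j := by
          field_simp
  have hfin := hCMB (X := X) (U := (ZMod L)ˣ) st (by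
      intro k x y hxy
      obtain ⟨g, hg⟩ := isConj_iff.1 hxy
      refine isConj_iff.2 ⟨g, ?_⟩
      rw [hsmul, hsmul, ← hg, conj_pow]) α Z hZst hZm hlow _ hup
  have hnK : Nat.card (Quotient st) = nK P q := by
    unfold nK
    let f : Quotient st → {c : ConjClasses G // ∃ x ∈ P, ConjClasses.mk (x ^ q) = c} :=
      Quotient.lift (fun z : X => ⟨ConjClasses.mk z.1, by
        obtain ⟨x, hx, hz⟩ := z.2
        exact ⟨x, hx, by rw [hz]⟩⟩) (by
          intro z z' h
          exact Subtype.ext (ConjClasses.mk_eq_mk_iff_isConj.2 h))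
    refine Nat.card_congr (Equiv.ofBijective f ⟨?_, ?_⟩)
    · intro a b
      refine Quotient.inductionOn₂ a b fun z z' h => ?_
      refine Quotient.sound ?_
      exact ConjClasses.mk_eq_mk_iff_isConj.1 (congrArg Subtype.val h)
    · rintro ⟨c', x, hx, rfl⟩
      exact ⟨Quotient.mk st ⟨x ^ q, x, hx, rfl⟩, rfl⟩
  rw [hnK, le_div_iff₀ (by have := hp.pos; positivity)] at hfin
  exact_mod_cast hfin

end Pool.Agent.Lib.MP_1aae89_al.W
end

section
/-!
# Module GCA1: products and contragredients of characters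
-/
set_option autoImplicit false

namespace Pool.Agent.Lib.MP_1aae89_al.W

open Pool.Agent.Lib.MP_1aae89_al Pool.Agent.Lib.MP_1aae89_al.BF Finset

theorem specGCA1 : SpecGCA1 := by
  refine ⟨?_, ?_, ?_⟩
  · rintro Q _ χ θ ⟨n, ρ, hρ⟩ ⟨m, τ, hτ⟩
    let e : Fin n × Fin m ≃ Fin (n * m) := finProdFinEquiv
    refine ⟨n * m, ⟨⟨fun g => Matrix.reindexAlgEquiv ℂ ℂ e
      (Matrix.kroneckerMap (fun x y => x * y) (ρ g) (τ g)), ?_⟩, ?_⟩, ?_⟩
    · rw [map_one, map_one]
      have h1 : Matrix.kroneckerMap (fun x y => x * y) (1 : Matrix (Fin n) (Fin n) ℂ)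
          (1 : Matrix (Fin m) (Fin m) ℂ) = 1 := Matrix.one_kronecker_one
      rw [h1, map_one]
    · intro g h
      show Matrix.reindexAlgEquiv ℂ ℂ e _ =
        Matrix.reindexAlgEquiv ℂ ℂ e _ * Matrix.reindexAlgEquiv ℂ ℂ e _
      rw [← map_mul, map_mul ρ, map_mul τ]
      congr 1
      exact Matrix.mul_kronecker_mul _ _ _ _
    · intro g
      show χ g * θ g = (Matrix.reindex e e (Matrix.kroneckerMap (fun x y => x * y) (ρ g)
        (τ g))).trace
      rw [hρ, hτ]
      have h1 := Matrix.trace_kronecker (ρ g) (τ g)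
      rw [← h1]
      exact (e.symm.sum_comp fun x => (Matrix.kroneckerMap (fun x y => x * y) (ρ g)
        (τ g)) x x).symm
  · rintro Q _ χ ⟨n, ρ, hρ⟩
    refine ⟨n, ⟨⟨fun g => (ρ g⁻¹).transpose, ?_⟩, ?_⟩, ?_⟩
    · rw [inv_one, map_one, Matrix.transpose_one]
    · intro g h
      show (ρ (g * h)⁻¹).transpose = (ρ g⁻¹).transpose * (ρ h⁻¹).transpose
      rw [← Matrix.transpose_mul, ← map_mul, mul_inv_rev]
    · intro g
      show χ g⁻¹ = ((ρ g⁻¹).transpose).trace
      rw [hρ, Matrix.trace_transpose]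
  · intro Q _
    refine ⟨1, 1, fun g => ?_⟩
    rw [MonoidHom.one_apply, Matrix.trace_one, Fintype.card_fin, Nat.cast_one]

end Pool.Agent.Lib.MP_1aae89_al.W
end

section
/-!
# Module GCA2: combinations of characters with integral coefficients
-/
set_option autoImplicit false

namespace Pool.Agent.Lib.MP_1aae89_al.W

open Pool.Agent.Lib.MP_1aae89_al Pool.Agent.Lib.MP_1aae89_al.BF Finset

theorem char_int {Q : Type} [Group Q] [Finite Q] {χ : Q → ℂ} (h : IsCharacter χ) (x : Q) :
    IsIntegral ℤ (χ x) := by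
  obtain ⟨n, ρ, hρ⟩ := h
  rw [hρ]
  have hN : Nat.card Q ≠ 0 := Nat.card_pos.ne'
  have h1 : ρ x ^ Nat.card Q = 1 := by rw [← map_pow, pow_card_eq_one', map_one]
  rw [Matrix.trace_eq_sum_roots_charpoly]
  refine IsIntegral.multiset_sum fun μ hμ => ?_
  have h2 : μ ∈ spectrum ℂ (ρ x) := Matrix.mem_spectrum_of_isRoot_charpoly
    ((Polynomial.mem_roots (Matrix.charpoly_monic _).ne_zero).1 hμ)
  have h3 : μ ^ Nat.card Q = 1 := by
    have h4 := spectrum.pow_mem_pow (ρ x) (Nat.card Q) h2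
    rw [h1] at h4
    rcases Nat.eq_zero_or_pos n with rfl | hn
    · exfalso
      have : ρ x = 0 := Subsingleton.elim _ _
      rw [this] at h2
      have h5 := spectrum.of_subsingleton (R := ℂ) (0 : Matrix (Fin 0) (Fin 0) ℂ)
      rw [h5] at h2
      exact h2
    · have : Nonempty (Fin n) := ⟨⟨0, hn⟩⟩
      have : Nontrivial (Matrix (Fin n) (Fin n) ℂ) := inferInstance
      rw [spectrum.one_eq] at h4
      exact h4
  refine ⟨Polynomial.X ^ Nat.card Q - 1, Polynomial.monic_X_pow_sub_C 1 hN, ?_⟩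
  rw [Polynomial.eval₂_sub, Polynomial.eval₂_X_pow, Polynomial.eval₂_one, h3, sub_self]

theorem specGCA2 (hGCA1 : SpecGCA1) : SpecGCA2 := by
  have hsmul : ∀ {Q : Type} [Group Q] (F : Q → ℂ) (α : ℂ), IsIntegral ℤ α → GC F →
      GC fun x => α * F x := by
    intro Q _ F α hα hF
    have h1 : (fun x => α * F x) = (⟨α, hα⟩ : integralClosure ℤ ℂ) • F := by
      funext x
      rfl
    rw [h1]
    exact Submodule.smul_mem _ _ hF
  have hadd : ∀ {Q : Type} [Group Q] (F F' : Q → ℂ), GC F → GC F' → GC fun x => F x + F' x :=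
    fun F F' hF hF' => Submodule.add_mem _ hF hF'
  have hcon : ∀ {Q : Type} [Group Q] (α : ℂ), IsIntegral ℤ α → GC fun _ : Q => α := by
    intro Q _ α hα
    have h1 := hsmul (fun _ : Q => (1 : ℂ)) α hα (Submodule.subset_span hGCA1.2.2)
    simpa using h1
  refine ⟨hadd, ?_, hsmul, hcon, ?_, ?_, ?_, ?_⟩
  · intro Q _ F F' hF hF'
    induction hF using Submodule.span_induction with
    | mem χ hχ =>
      induction hF' using Submodule.span_induction with
      | mem θ hθ => exact Submodule.subset_span (hGCA1.1 χ θ hχ hθ)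
      | zero =>
        have : (fun x => χ x * (0 : Q → ℂ) x) = fun _ => 0 := by
          funext x
          simp
        rw [this]
        exact hcon 0 isIntegral_zero
      | add θ θ' _ _ h1 h2 =>
        have : (fun x => χ x * (θ + θ') x) = fun x => χ x * θ x + χ x * θ' x := by
          funext x
          rw [Pi.add_apply, mul_add]
        rw [this]
        exact hadd _ _ h1 h2
      | smul a θ _ h1 =>
        have : (fun x => χ x * (a • θ) x) = fun x => (a : ℂ) * (χ x * θ x) := by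
          funext x
          show χ x * ((a : ℂ) * θ x) = _
          ring
        rw [this]
        exact hsmul _ _ a.2 h1
    | zero =>
      have : (fun x => (0 : Q → ℂ) x * F' x) = fun _ => 0 := by
        funext x
        simp
      rw [this]
      exact hcon 0 isIntegral_zero
    | add θ θ' _ _ h1 h2 =>
      have : (fun x => (θ + θ') x * F' x) = fun x => θ x * F' x + θ' x * F' x := by
        funext x
        rw [Pi.add_apply, add_mul]
      rw [this]
      exact hadd _ _ h1 h2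
    | smul a θ _ h1 =>
      have : (fun x => (a • θ) x * F' x) = fun x => (a : ℂ) * (θ x * F' x) := by
        funext x
        show ((a : ℂ) * θ x) * F' x = _
        ring
      rw [this]
      exact hsmul _ _ a.2 h1
  · intro Q _ ι s F hF
    have h1 : (fun x => ∑ i ∈ s, F i x) = ∑ i ∈ s, F i := by
      funext x
      rw [Finset.sum_apply]
    rw [h1]
    exact Submodule.sum_mem _ hF
  · intro Q Q' _ _ f F hF
    induction hF using Submodule.span_induction with
    | mem χ hχ => exact Submodule.subset_span (IsCharacter.comp hχ f)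
    | zero =>
      have : (fun x => (0 : Q → ℂ) (f x)) = fun _ => 0 := rfl
      rw [this]
      exact hcon 0 isIntegral_zero
    | add θ θ' _ _ h1 h2 => exact hadd _ _ h1 h2
    | smul a θ _ h1 => exact hsmul _ _ a.2 h1
  · intro Q _ _ F hF x
    induction hF using Submodule.span_induction with
    | mem χ hχ => exact char_int hχ x
    | zero => exact isIntegral_zero
    | add θ θ' _ _ h1 h2 => exact IsIntegral.add h1 h2
    | smul a θ _ h1 => exact IsIntegral.mul a.2 h1
  · intro Q _ _ F hF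
    induction hF using Submodule.span_induction with
    | mem χ hχ =>
      obtain ⟨k, hk⟩ := IsCharacter.avg hχ
      rw [hk]
      exact isIntegral_algebraMap (R := ℤ) (x := (k : ℤ))
    | zero =>
      have : (Fintype.card Q : ℂ)⁻¹ * ∑ x : Q, (0 : Q → ℂ) x = 0 := by simp
      rw [this]
      exact isIntegral_zero
    | add θ θ' _ _ h1 h2 =>
      have : (Fintype.card Q : ℂ)⁻¹ * ∑ x : Q, (θ + θ') x =
          (Fintype.card Q : ℂ)⁻¹ * ∑ x : Q, θ x + (Fintype.card Q : ℂ)⁻¹ * ∑ x : Q, θ' x := by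
        simp only [Pi.add_apply, Finset.sum_add_distrib, mul_add]
      rw [this]
      exact h1.add h2
    | smul a θ _ h1 =>
      have : (Fintype.card Q : ℂ)⁻¹ * ∑ x : Q, (a • θ) x =
          (a : ℂ) * ((Fintype.card Q : ℂ)⁻¹ * ∑ x : Q, θ x) := by
        have h2 : ∀ x, (a • θ) x = (a : ℂ) * θ x := fun _ => rfl
        rw [Finset.sum_congr rfl fun x _ => h2 x, ← Finset.mul_sum]
        ring
      rw [this]
      exact IsIntegral.mul a.2 h1

end Pool.Agent.Lib.MP_1aae89_al.W
end

section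
/-!
# Module GIN: Galois conjugation for one value of an induced function
-/
set_option autoImplicit false

namespace Pool.Agent.Lib.MP_1aae89_al.W

open Pool.Agent.Lib.MP_1aae89_al Pool.Agent.Lib.MP_1aae89_al.BF Finset Polynomial

theorem specGIN : SpecGIN := by
  intro G _ _ H θ hθ p hp' n hn b hb hnb x e hx hmem
  have hp : Fact p.Prime := ⟨hp'⟩
  classical
  have hN : p ^ e ≠ 0 := pow_ne_zero e hp.out.ne_zero
  set j := 1 + p ^ (b - 1) with hj
  have hcop : (p ^ e).Coprime j := by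
    apply Nat.Coprime.pow_left
    rw [hp.out.coprime_iff_not_dvd]
    intro hd
    have h1 : p ∣ p ^ (b - 1) := dvd_pow_self p (by omega)
    have h2 := (Nat.dvd_add_left h1).1 hd
    exact hp.out.one_lt.not_ge (Nat.le_of_dvd one_pos h2)
  -- the polynomials
  have hpoly : ∀ g : G, ∃ P : ℚ[X],
      (if h : g⁻¹ * x * g ∈ H then θ ⟨g⁻¹ * x * g, h⟩ else 0) = aeval (zeta (p ^ e)) P ∧
      (if h : g⁻¹ * x ^ j * g ∈ H then θ ⟨g⁻¹ * x ^ j * g, h⟩ else 0) =
        aeval (zeta (p ^ e) ^ j) P := by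
    intro g
    have hpow : ∀ i : ℕ, g⁻¹ * x ^ i * g = (g⁻¹ * x * g) ^ i := by
      intro i
      have := (conj_pow (i := i) (a := g⁻¹) (b := x)).symm
      rw [inv_inv] at this
      exact this
    by_cases h : g⁻¹ * x * g ∈ H
    · have h1 : (⟨g⁻¹ * x * g, h⟩ : H) ^ (p ^ e) = 1 := by
        apply Subtype.ext
        show (g⁻¹ * x * g) ^ (p ^ e) = 1
        rw [← hpow, hx]; group
      obtain ⟨P, hP⟩ := hθ.eval_pow hN h1
      have h2 : g⁻¹ * x ^ j * g ∈ H := by rw [hpow]; exact H.pow_mem h j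
      refine ⟨P, ?_, ?_⟩
      · rw [dif_pos h]
        have := hP 1
        rwa [pow_one, pow_one] at this
      · rw [dif_pos h2, ← hP j]
        congr 1
        exact Subtype.ext (hpow j)
    · have h2 : g⁻¹ * x ^ j * g ∉ H := by
        intro h3
        apply h
        rw [hpow] at h3
        have h4 : (g⁻¹ * x * g) ^ (p ^ e) = 1 := by rw [← hpow, hx]; group
        -- a power of the power
        have h5 : j.Coprime (orderOf (g⁻¹ * x * g)) :=
          (Nat.Coprime.coprime_dvd_left (orderOf_dvd_of_pow_eq_one h4) hcop).symm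
        obtain ⟨c, hc⟩ := exists_pow_eq_self_of_coprime h5
        rw [← hc]
        exact H.pow_mem h3 c
      refine ⟨0, ?_, ?_⟩
      · rw [dif_neg h, map_zero]
      · rw [dif_neg h2, map_zero]
  choose Pg hP1 hP2 using hpoly
  refine gal_core (e := e) (P := C ((Nat.card H : ℚ)⁻¹) * ∑ g, Pg g) hn hmem hb hnb ?_ ?_
  · unfold ind
    rw [map_mul, map_sum, aeval_C, sum_congr rfl fun g _ => hP1 g]
    simp
  · unfold ind
    rw [map_mul, map_sum, aeval_C, sum_congr rfl fun g _ => hP2 g]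
    simp [hj]

end Pool.Agent.Lib.MP_1aae89_al.W
end

section
/-!
# Module GLU: integrality is a local property
-/
set_option autoImplicit false

namespace Pool.Agent.Lib.MP_1aae89_al.W

open Pool.Agent.Lib.MP_1aae89_al Pool.Agent.Lib.MP_1aae89_al.BF Finset

theorem specGLU : SpecGLU := by
  intro n hn x h
  let I : Ideal ℤ :=
    { carrier := {m : ℤ | IsIntegral ℤ ((m : ℂ) * (x / n))}
      add_mem' := by
        intro a b ha hb
        show IsIntegral ℤ (((a + b : ℤ) : ℂ) * (x / n))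
        rw [Int.cast_add, add_mul]
        exact IsIntegral.add ha hb
      zero_mem' := by
        show IsIntegral ℤ (((0 : ℤ) : ℂ) * (x / n))
        rw [Int.cast_zero, zero_mul]
        exact isIntegral_zero
      smul_mem' := by
        intro c a ha
        show IsIntegral ℤ (((c • a : ℤ) : ℂ) * (x / n))
        rw [smul_eq_mul, Int.cast_mul, mul_assoc]
        exact (isIntegral_algebraMap (R := ℤ) (x := c)).mul ha }
  have hI : ∀ m : ℤ, m ∈ I ↔ IsIntegral ℤ ((m : ℂ) * (x / n)) := fun _ => Iff.rfl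
  have hn' : (n : ℂ) ≠ 0 := by exact_mod_cast hn
  obtain ⟨g, hg⟩ := (IsPrincipalIdealRing.principal I).principal
  have hg1 : g.natAbs = 1 := by
    by_contra hne
    obtain ⟨l, hl, hlg⟩ := Nat.exists_prime_and_dvd hne
    obtain ⟨k, hk, w, hw, hkw⟩ := h l hl
    have hm : ((k * ordCompl[l] n : ℕ) : ℤ) ∈ I := by
      rw [hI]
      have h1 : (((k * ordCompl[l] n : ℕ) : ℤ) : ℂ) * (x / n) = w := by
        have h2 : (n : ℂ) = (l : ℂ) ^ (n.factorization l) * ((ordCompl[l] n : ℕ) : ℂ) := by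
          conv_lhs => rw [← Nat.ordProj_mul_ordCompl_eq_self n l]
          push_cast
          rfl
        rw [mul_div_assoc', div_eq_iff hn']
        conv_rhs => rw [h2]
        rw [Int.cast_natCast, Nat.cast_mul]
        linear_combination ((ordCompl[l] n : ℕ) : ℂ) * hkw
      rw [h1]
      exact hw
    have h3 : g ∣ ((k * ordCompl[l] n : ℕ) : ℤ) := by
      have h4 : ((k * ordCompl[l] n : ℕ) : ℤ) ∈ Submodule.span ℤ {g} := hg ▸ hm
      exact Ideal.mem_span_singleton.1 h4
    have h5 : (l : ℤ) ∣ ((k * ordCompl[l] n : ℕ) : ℤ) :=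
      (Int.natCast_dvd.2 hlg).trans h3
    have h6 : l ∣ k * ordCompl[l] n := Int.natCast_dvd_natCast.1 h5
    rcases hl.dvd_mul.1 h6 with h7 | h7
    · exact hk h7
    · exact Nat.not_dvd_ordCompl hl hn h7
  have h1 : (1 : ℤ) ∈ I := by
    have h2 : g ∈ I := by
      rw [hg]
      exact Submodule.mem_span_singleton_self g
    rcases Int.natAbs_eq g with h3 | h3
    · rw [hg1] at h3
      rw [h3] at h2
      exact_mod_cast h2
    · rw [hg1] at h3
      rw [h3] at h2
      have := I.neg_mem h2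
      rw [neg_neg] at this
      exact_mod_cast this
  rw [hI, Int.cast_one, one_mul] at h1
  exact h1

end Pool.Agent.Lib.MP_1aae89_al.W
end

section
/-!
# Modules TWG and FXC
-/
set_option autoImplicit false

namespace Pool.Agent.Lib.MP_1aae89_al.W

open Pool.Agent.Lib.MP_1aae89_al Pool.Agent.Lib.MP_1aae89_al.BF Finset

theorem idem_char {Q : Type} [Group Q] {n : ℕ} (r : Q →* Matrix (Fin n) (Fin n) ℂ)
    (E : Matrix (Fin n) (Fin n) ℂ) (hE : E * E = E) (hc : ∀ g, E * r g = r g * E) :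
    IsCharacter fun g => (E * r g).trace := by
  obtain ⟨k, J, J', h1, h2⟩ := idem_factor E hE
  refine ⟨k, compr r J J' h2 (by rw [h1]; exact hc), fun g => ?_⟩
  show (E * r g).trace = (J' * r g * J).trace
  rw [← h1, Matrix.mul_assoc, Matrix.trace_mul_comm]

theorem specTWG (hGCA2 : SpecGCA2) : SpecTWG := by
  intro D _ _ Θ hΘ Q t ht
  obtain ⟨-, -, hsmul, -, hsum, -, -, -⟩ := hGCA2
  obtain ⟨n, r, hr⟩ := hΘ
  set N := 2 * Fintype.card D with hN
  have hc0 : 0 < Fintype.card D := Fintype.card_pos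
  have hN0 : N ≠ 0 := by omega
  have hN2 : 1 < N := by omega
  set A := r t with hA
  have hAN : A ^ N = 1 := by
    rw [hA, ← map_pow, hN, mul_comm, pow_mul, pow_card_eq_one, one_pow, map_one]
  have hz := zeta_prim hN0
  have hNC : (N : ℂ) ≠ 0 := by exact_mod_cast hN0
  set B : ℕ → Matrix (Fin n) (Fin n) ℂ := fun i => ((zeta N)⁻¹ ^ i) • A with hB
  set E : ℕ → Matrix (Fin n) (Fin n) ℂ := fun i => (N : ℂ)⁻¹ • ∑ l ∈ Finset.range N, B i ^ l with hE
  have hBN : ∀ i, B i ^ N = 1 := by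
    intro i
    show (((zeta N)⁻¹ ^ i) • A) ^ N = 1
    rw [_root_.smul_pow, hAN, ← pow_mul, mul_comm i N, pow_mul, inv_pow, hz.pow_eq_one,
      inv_one, one_pow, one_smul]
  have hidem : ∀ i, E i * E i = E i := by
    intro i
    have h1 : B i * E i = E i := by
      show B i * ((N : ℂ)⁻¹ • ∑ l ∈ Finset.range N, B i ^ l) = (N : ℂ)⁻¹ • ∑ l ∈ Finset.range N, B i ^ l
      rw [Matrix.mul_smul, Matrix.mul_sum]
      congr 1
      have : ∀ l, B i * B i ^ l = B i ^ (l + 1) := fun l => (pow_succ' (B i) l).symm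
      simp only [this]
      have h2 := Finset.sum_range_succ (fun l => B i ^ l) N
      have h3 := Finset.sum_range_succ' (fun l => B i ^ l) N
      rw [h2] at h3
      rw [hBN, pow_zero] at h3
      exact (add_right_cancel h3).symm
    have h2 : ∀ l : ℕ, B i ^ l * E i = E i := by
      intro l
      induction l with
      | zero => rw [pow_zero, one_mul]
      | succ l ih => rw [pow_succ, mul_assoc, h1, ih]
    have h3 : E i * E i = (N : ℂ)⁻¹ • ∑ l ∈ Finset.range N, B i ^ l * E i := by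
      conv_lhs =>
        enter [1]
        change (N : ℂ)⁻¹ • ∑ l ∈ Finset.range N, B i ^ l
      rw [Matrix.smul_mul, Matrix.sum_mul]
    rw [h3, Finset.sum_congr rfl fun l _ => h2 l, Finset.sum_const, Finset.card_range,
      ← Nat.cast_smul_eq_nsmul ℂ, smul_smul, inv_mul_cancel₀ hNC, one_smul]
  have hcomm : ∀ i (w : Q), E i * r w = r w * E i := by
    intro i w
    have h1 : Commute A (r w) := by
      show r t * r w = r w * r t
      rw [← map_mul, ht w w.2, map_mul]
    have h2 : Commute (E i) (r w) := by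
      refine Commute.smul_left (Commute.sum_left _ _ _ fun l _ => ?_) _
      exact (Commute.smul_left h1 _).pow_left l
    exact h2
  have hsumE : A = ∑ i ∈ Finset.range N, (zeta N) ^ i • E i := by
    have h1 : ∀ i, (zeta N) ^ i • E i =
        (N : ℂ)⁻¹ • ∑ l ∈ Finset.range N, ((zeta N) * (zeta N)⁻¹ ^ l) ^ i • A ^ l := by
      intro i
      show (zeta N) ^ i • ((N : ℂ)⁻¹ • ∑ l ∈ Finset.range N, (((zeta N)⁻¹ ^ i) • A) ^ l) = _
      rw [smul_comm, Finset.smul_sum]
      congr 1
      refine Finset.sum_congr rfl fun l _ => ?_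
      rw [_root_.smul_pow, smul_smul, mul_pow, ← pow_mul, ← pow_mul, mul_comm i l]
    rw [Finset.sum_congr rfl fun i _ => h1 i, ← Finset.smul_sum, Finset.sum_comm]
    have h2 : ∀ l ∈ Finset.range N, ∑ i ∈ Finset.range N,
        ((zeta N) * (zeta N)⁻¹ ^ l) ^ i • A ^ l = if l = 1 then (N : ℂ) • A else 0 := by
      intro l hl
      rw [← Finset.sum_smul]
      split_ifs with h3
      · subst h3
        rw [pow_one, mul_inv_cancel₀ (hz.ne_zero hN0)]
        simp
      · have e2 : (zeta N) * (zeta N)⁻¹ ^ l ≠ 1 := by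
          intro h4
          apply h3
          rw [inv_pow, mul_inv_eq_one₀ (pow_ne_zero _ (hz.ne_zero hN0))] at h4
          refine (hz.pow_inj hN2 (Finset.mem_range.1 hl) ?_).symm
          rw [pow_one]
          exact h4
        have e3 : ((zeta N) * (zeta N)⁻¹ ^ l) ^ N = 1 := by
          have e4 : (zeta N)⁻¹ ^ N = 1 := by rw [inv_pow, hz.pow_eq_one, inv_one]
          rw [mul_pow, hz.pow_eq_one, ← pow_mul, mul_comm l N, pow_mul, e4, one_pow, one_mul]
        rw [geom_sum_eq e2, e3, sub_self, zero_div, zero_smul]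
    rw [Finset.sum_congr rfl h2, Finset.sum_ite_eq', if_pos (Finset.mem_range.2 hN2), smul_smul,
      inv_mul_cancel₀ hNC, one_smul]
  have hfun : (fun w : Q => Θ (t * w)) =
      fun w : Q => ∑ i ∈ Finset.range N, (zeta N) ^ i * (E i * r w).trace := by
    funext w
    rw [hr, map_mul, ← hA]
    conv_lhs => rw [hsumE]
    rw [Matrix.sum_mul, Matrix.trace_sum]
    refine Finset.sum_congr rfl fun i _ => ?_
    rw [Matrix.smul_mul, Matrix.trace_smul, smul_eq_mul]
  rw [hfun]
  refine hsum (Finset.range N) (fun (i : ℕ) (w : Q) => (zeta N) ^ i * (E i * r w).trace)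
    fun i _ => ?_
  refine hsmul _ _ ?_ ?_
  · exact ((hz.isIntegral (Nat.pos_of_ne_zero hN0))).pow i
  · exact Submodule.subset_span (idem_char (r.comp Q.subtype) (E i) (hidem i) (hcomm i))

theorem specFXC : SpecFXC := by
  intro C _ T hT z hz hzc χ hχ
  obtain ⟨n, r, hr⟩ := hχ
  have hTC : (T : ℂ) ≠ 0 := by exact_mod_cast hT
  set A := r z with hA
  have hAT : A ^ T = 1 := by rw [hA, ← map_pow, hz, map_one]
  set E : Matrix (Fin n) (Fin n) ℂ := (T : ℂ)⁻¹ • ∑ l ∈ Finset.range T, A ^ l with hE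
  have h1 : A * E = E := by
    rw [hE, Matrix.mul_smul, Matrix.mul_sum]
    congr 1
    have : ∀ l, A * A ^ l = A ^ (l + 1) := fun l => (pow_succ' A l).symm
    simp only [this]
    have h2 := Finset.sum_range_succ (fun l => A ^ l) T
    have h3 := Finset.sum_range_succ' (fun l => A ^ l) T
    rw [h2] at h3
    rw [hAT, pow_zero] at h3
    exact (add_right_cancel h3).symm
  have h2 : ∀ l : ℕ, A ^ l * E = E := by
    intro l
    induction l with
    | zero => rw [pow_zero, one_mul]
    | succ l ih => rw [pow_succ, mul_assoc, h1, ih]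
  have h3 : E * E = E := by
    conv_lhs => rw [hE, Matrix.smul_mul, Matrix.sum_mul, Finset.sum_congr rfl fun l _ => h2 l]
    rw [Finset.sum_const, Finset.card_range, ← Nat.cast_smul_eq_nsmul ℂ, smul_smul,
      inv_mul_cancel₀ hTC, one_smul]
  have hcomm : ∀ w, E * r w = r w * E := by
    intro w
    have h1 : Commute A (r w) := by
      show r z * r w = r w * r z
      rw [← map_mul, hzc w, map_mul]
    have h2 : Commute E (r w) :=
      Commute.smul_left (Commute.sum_left _ _ _ fun l _ => h1.pow_left l) _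
    exact h2
  have h4 := idem_char r E h3 hcomm
  have h5 : fx T z χ = fun g => (E * r g).trace := by
    funext y
    unfold fx
    rw [hE, Matrix.smul_mul, Matrix.sum_mul, Matrix.trace_smul, Matrix.trace_sum, smul_eq_mul]
    congr 1
    refine Finset.sum_congr rfl fun i _ => ?_
    rw [hr, map_mul, map_pow, Matrix.trace_mul_comm]
  rw [h5]
  exact h4

end Pool.Agent.Lib.MP_1aae89_al.W
end

section
/-!
# LEV: the level of a character and its invariance under power maps
-/
set_option autoImplicit false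

namespace Pool.Agent.Lib.MP_1aae89_al.W

open Pool.Agent.Lib.MP_1aae89_al Pool.Agent.Lib.MP_1aae89_al.BF Finset
open Pool.Agent.Lib.MP1aae89 (Pex exists_aut descend)

/-- the exponent `1 + s0 p^(c-1) t` is prime to `L` -/
theorem lev_coprime {p : ℕ} (hp : p.Prime) {L s0 : ℕ} (hs : Pex p L s0) {c : ℕ}
    (hc : 2 ≤ c) (t : ℕ) : (1 + s0 * p ^ (c - 1) * t).Coprime L := by
  have h0 : (1 + s0 * p ^ (c - 1) * t).Coprime (ordProj[p] L * ordCompl[p] L) := by
    refine Nat.Coprime.mul_right (Nat.Coprime.pow_right _ ?_) ?_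
    · rw [Nat.coprime_comm, Nat.Prime.coprime_iff_not_dvd hp]
      intro h
      rw [Nat.dvd_add_left] at h
      · exact hp.one_lt.ne' (Nat.dvd_one.mp h)
      · refine Dvd.dvd.mul_right (Dvd.dvd.mul_left ?_ _) _
        exact dvd_pow_self p (by omega)
    · obtain ⟨k, hk⟩ := hs.zero
      have h1 : s0 * p ^ (c - 1) * t = ordCompl[p] L * (k * p ^ (c - 1) * t) := by
        conv_lhs => rw [hk]
        ring
      rw [h1]
      exact (Nat.coprime_add_mul_left_left _ _ _).mpr (Nat.coprime_one_left _)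
  rwa [Nat.ordProj_mul_ordCompl_eq_self L p] at h0

theorem specLEV (hLTE : SpecLTE) : SpecLEV := by
  intro p hp M _ _ L s0 hL hML hs ψ hψ b c t hc hcb h2 hb hfix
  by_contra hnd
  obtain ⟨h1, hmem, hfac⟩ := lev_spec hψ p
  rw [hb] at hfac
  have hcd : conductor ψ ∣ L := (cond_dvd hψ).trans hML
  have hbL : b ≤ L.factorization p := by
    rw [← hfac]
    exact (Nat.factorization_le_iff_dvd h1 hL).2 hcd p
  obtain ⟨i, hi1, hi2⟩ := hLTE p hp L s0 hL hs b c t hc hcb h2 hbL hnd
  have hcop0 := lev_coprime hp hs hc t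
  set κ := 1 + s0 * p ^ (c - 1) * t with hκ
  have hcop : (κ ^ p ^ i).Coprime L := Nat.Coprime.pow_left _ hcop0
  have hit : ∀ m : ℕ, ∀ y, ψ (y ^ κ ^ m) = ψ y := by
    intro m
    induction m with
    | zero => intro y; rw [pow_zero, pow_one]
    | succ m ih => intro y; rw [pow_succ, pow_mul, hfix, ih]
  have hfixK : ∀ y, ψ (y ^ κ ^ p ^ i) = ψ y := hit _
  set K := κ ^ p ^ i with hK
  obtain ⟨σ, hσ⟩ := exists_aut L (Nat.pos_of_ne_zero hL) K hcop
  have hσψ : ∀ y, σ (ψ y) = ψ y := by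
    intro y
    obtain ⟨n, r, hr⟩ := hψ
    have hyL : y ^ L = 1 := by
      obtain ⟨d, hd⟩ := hML
      rw [hd, pow_mul, pow_card_eq_one, one_pow]
    have h3 : r y ^ L = 1 := by rw [← map_pow, hyL, map_one]
    have h4 := gal_trace hL σ hσ (r y) h3
    rw [← map_pow, ← hr, ← hr] at h4
    rw [h4, hfixK]
  -- the conductor
  have hpb : p ^ b ∣ conductor ψ := (hp.pow_dvd_iff_le_factorization h1).mpr hfac.ge
  have hp2 : p ^ 2 ∣ conductor ψ := (pow_dvd_pow p (by omega)).trans hpb
  have hp1 : p ∣ conductor ψ := (dvd_pow_self p two_ne_zero).trans hp2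
  have hc0 : 0 < conductor ψ := Nat.pos_of_ne_zero h1
  have hdiv : conductor ψ / p ∣ ordCompl[p] L * p ^ (b - 1) := by
    have h3 : conductor ψ / p * p ∣ ordCompl[p] L * p ^ (b - 1) * p := by
      rw [Nat.div_mul_cancel hp1, mul_assoc, ← pow_succ, show b - 1 + 1 = b by omega, ← hfac]
      conv_lhs => rw [← Nat.ordProj_mul_ordCompl_eq_self (conductor ψ) p, mul_comm]
      exact mul_dvd_mul (Nat.ordCompl_dvd_ordCompl_of_dvd hcd p) dvd_rfl
    exact Nat.dvd_of_mul_dvd_mul_right hp.pos h3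
  have hs1 : K ≡ 1 [MOD conductor ψ / p] := hi1.of_dvd hdiv
  have hs2 : ¬ K ≡ 1 [MOD conductor ψ] := fun h => hi2 (h.of_dvd hpb)
  have hmem' : ∀ g, ψ g ∈ cycField (conductor ψ / p) := fun g =>
    descend σ K L hσ p (conductor ψ) hp hc0 hcd hp2 hs1 hs2 (hmem g) (hσψ g)
  have hq0 : conductor ψ / p ≠ 0 := (Nat.div_pos (Nat.le_of_dvd hc0 hp1) hp.pos).ne'
  have h5 := Nat.le_of_dvd (Nat.pos_of_ne_zero hq0) (conductor_dvd hq0 hmem')
  have h6 := Nat.div_lt_self hc0 hp.one_lt
  omega

end Pool.Agent.Lib.MP_1aae89_al.W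
end

section
/-!
# Module LFM: a lemma of Frobenius type
-/
set_option autoImplicit false

namespace Pool.Agent.Lib.MP_1aae89_al.W

open Pool.Agent.Lib.MP_1aae89_al Pool.Agent.Lib.MP_1aae89_al.BF Finset

namespace LFM

variable {D : Type} [Group D] [Fintype D] (Q : Subgroup D)

open Classical in
/-- number of fixed points on the cosets -/
noncomputable def pif (w : D) : ℕ := (univ.filter fun c : D ⧸ Q => w • c = c).card

theorem pif_char : IsCharacter fun w : D => (pif Q w : ℂ) := by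
  classical
  let e := Fintype.equivFin (D ⧸ Q)
  let n := Fintype.card (D ⧸ Q)
  refine ⟨n, ⟨⟨fun g => Matrix.of fun i j => if g • e.symm j = e.symm i then (1 : ℂ) else 0, ?_⟩,
    ?_⟩, ?_⟩
  · ext i j
    rw [Matrix.of_apply, one_smul, Matrix.one_apply]
    by_cases h : i = j
    · rw [if_pos h, if_pos (by rw [h])]
    · rw [if_neg h, if_neg]
      exact fun h' => h (e.symm.injective h').symm
  · intro g h
    ext i j
    show (if (g * h) • e.symm j = e.symm i then (1 : ℂ) else 0) = _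
    rw [Matrix.mul_apply]
    simp only [Matrix.of_apply]
    rw [Finset.sum_eq_single (e (h • e.symm j))]
    · rw [e.symm_apply_apply, if_pos rfl, mul_one, mul_smul]
    · intro k _ hk
      rw [if_neg (c := h • e.symm j = e.symm k), mul_zero]
      intro h'
      exact hk (by rw [h', e.apply_symm_apply])
    · exact fun h' => absurd (mem_univ _) h'
  · intro g
    show ((pif Q g : ℕ) : ℂ) = ∑ i, (if g • e.symm i = e.symm i then (1 : ℂ) else 0)
    rw [← e.sum_comp]
    simp only [e.symm_apply_apply]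
    rw [Finset.sum_boole]
    rfl

omit [Fintype D] in
theorem fix_iff (w x : D) : w • (x : D ⧸ Q) = (x : D ⧸ Q) ↔ x⁻¹ * w * x ∈ Q := by
  rw [MulAction.Quotient.smul_coe, eq_comm, QuotientGroup.eq, smul_eq_mul, ← mul_assoc]

open Classical in
theorem card_pif (w : D) : (univ.filter fun x : D => x⁻¹ * w * x ∈ Q).card =
    Nat.card Q * pif Q w := by
  have h1 : (univ.filter fun x : D => x⁻¹ * w * x ∈ Q).card =
      ∑ c ∈ univ.filter (fun c : D ⧸ Q => w • c = c),
        (univ.filter fun x : D => (x : D ⧸ Q) = c).card := by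
    rw [Finset.card_eq_sum_card_fiberwise (f := fun x : D => (x : D ⧸ Q))
      (t := univ.filter fun c : D ⧸ Q => w • c = c)]
    · refine Finset.sum_congr rfl fun c hc => ?_
      congr 1
      ext x
      simp only [mem_filter, mem_univ, true_and, and_iff_right_iff_imp]
      rintro rfl
      exact (fix_iff Q w x).1 (mem_filter.1 hc).2
    · intro x hx
      have hx' := (mem_filter.1 hx).2
      exact mem_filter.2 ⟨mem_univ _, (fix_iff Q w x).2 hx'⟩
  rw [h1]
  have h2 : ∀ c : D ⧸ Q, (univ.filter fun x : D => (x : D ⧸ Q) = c).card = Nat.card Q := by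
    intro c
    obtain ⟨y, rfl⟩ := QuotientGroup.mk_surjective c
    rw [← Fintype.card_subtype, ← Nat.card_eq_fintype_card]
    refine Nat.card_congr ⟨fun x => ⟨y⁻¹ * x.1, QuotientGroup.eq.1 x.2.symm⟩,
      fun z => ⟨y * z.1, ?_⟩, ?_, ?_⟩
    · exact (QuotientGroup.eq.2 (by rw [inv_mul_cancel_left]; exact z.2)).symm
    · intro x
      exact Subtype.ext (mul_inv_cancel_left _ _)
    · intro z
      exact Subtype.ext (inv_mul_cancel_left _ _)
  rw [Finset.sum_congr rfl fun c _ => h2 c, Finset.sum_const, smul_eq_mul, mul_comm]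
  rfl

theorem pif_conj (g w : D) : pif Q (g * w * g⁻¹) = pif Q w := by
  classical
  unfold pif
  refine Finset.card_bij' (fun c _ => g⁻¹ • c) (fun c _ => g • c) ?_ ?_ ?_ ?_
  · intro c hc
    have h := (mem_filter.1 hc).2
    refine mem_filter.2 ⟨mem_univ _, ?_⟩
    rw [smul_smul]
    conv_rhs => rw [← h]
    rw [smul_smul]
    congr 1
    group
  · intro c hc
    have h := (mem_filter.1 hc).2
    refine mem_filter.2 ⟨mem_univ _, ?_⟩
    rw [smul_smul, inv_mul_cancel_right, mul_smul, h]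
  · intro c _
    rw [smul_inv_smul]
  · intro c _
    rw [inv_smul_smul]

theorem sum_pif (F : D → ℂ) (hF : ∀ g w, F (g * w * g⁻¹) = F w) (k : ℕ) [Fintype Q] :
    ∑ w, F w * (pif Q w : ℂ) ^ (k + 1) =
      (Fintype.card D : ℂ) * ((Fintype.card Q : ℂ)⁻¹ * ∑ v : Q, F v * (pif Q (v : D) : ℂ) ^ k) := by
  classical
  have hQ : (Fintype.card Q : ℂ) ≠ 0 := by exact_mod_cast Fintype.card_ne_zero
  have h1 : ∀ w, (Fintype.card Q : ℂ) * (F w * (pif Q w : ℂ) ^ (k + 1)) =
      ∑ x : D, if x⁻¹ * w * x ∈ Q then F w * (pif Q w : ℂ) ^ k else 0 := by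
    intro w
    rw [← Finset.sum_filter, Finset.sum_const, card_pif, nsmul_eq_mul, Nat.card_eq_fintype_card]
    push_cast
    ring
  have h2 : ∀ x : D, (∑ w : D, if x⁻¹ * w * x ∈ Q then F w * (pif Q w : ℂ) ^ k else 0) =
      ∑ v : Q, F v * (pif Q (v : D) : ℂ) ^ k := by
    intro x
    have h3 : (∑ w : D, if x⁻¹ * w * x ∈ Q then F w * (pif Q w : ℂ) ^ k else 0) =
        ∑ v : D, if v ∈ Q then F v * (pif Q v : ℂ) ^ k else 0 := by
      refine Fintype.sum_equiv (MulAut.conj x⁻¹).toEquiv _ _ fun w => ?_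
      have h4 : (MulAut.conj x⁻¹).toEquiv w = x⁻¹ * w * x := by
        show x⁻¹ * w * x⁻¹⁻¹ = _
        rw [inv_inv]
      rw [h4]
      have h5 : F (x⁻¹ * w * x) = F w := by
        have := hF x⁻¹ w
        rwa [inv_inv] at this
      have h6 : pif Q (x⁻¹ * w * x) = pif Q w := by
        have := pif_conj Q x⁻¹ w
        rwa [inv_inv] at this
      rw [h5, h6]
    rw [h3, ← Finset.sum_filter]
    refine Finset.sum_subtype _ (fun v => ?_) _
    simp only [mem_filter, mem_univ, true_and]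
  have h7 : (Fintype.card Q : ℂ) * ∑ w, F w * (pif Q w : ℂ) ^ (k + 1) =
      (Fintype.card D : ℂ) * ∑ v : Q, F v * (pif Q (v : D) : ℂ) ^ k := by
    rw [Finset.mul_sum, Finset.sum_congr rfl fun w _ => h1 w, Finset.sum_comm,
      Finset.sum_congr rfl fun x _ => h2 x, Finset.sum_const, Finset.card_univ, nsmul_eq_mul]
  field_simp
  rw [mul_comm, h7]

end LFM

open LFM

theorem specLFM (hGCA2 : SpecGCA2) : SpecLFM := by
  classical
  intro l hl D _ _ Q hQ F hF hGC
  obtain ⟨-, hmul, -, hcon, -, hcomp, hval, havg⟩ := hGCA2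
  have : Fact l.Prime := ⟨hl⟩
  set a := (Fintype.card D).factorization l with ha
  have hcard : Fintype.card D ≠ 0 := Fintype.card_ne_zero
  -- the index
  have hidx : Fintype.card D = l ^ a * Q.index := by
    rw [← hQ, Subgroup.card_mul_index, Nat.card_eq_fintype_card]
  have hidx2 : ¬ l ∣ Q.index := by
    intro h
    have h1 : l ^ (a + 1) ∣ Fintype.card D := by
      rw [hidx, pow_succ]
      exact Nat.mul_dvd_mul_left _ h
    exact Nat.pow_succ_factorization_not_dvd hcard hl h1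
  -- values of pi
  have hpi0 : ∀ w, pif Q w ≠ 0 → ∃ x, x⁻¹ * w * x ∈ Q := by
    intro w hw
    unfold pif at hw
    obtain ⟨c, hc⟩ := Finset.card_ne_zero.1 hw
    obtain ⟨x, rfl⟩ := QuotientGroup.mk_surjective c
    exact ⟨x, (fix_iff Q w x).1 (mem_filter.1 hc).2⟩
  have hpiel : ∀ w, pif Q w ≠ 0 → ∃ k : ℕ, w ^ l ^ k = 1 := by
    intro w hw
    obtain ⟨x, hx⟩ := hpi0 w hw
    refine ⟨a, ?_⟩
    have h1 : (⟨_, hx⟩ : Q) ^ Nat.card Q = 1 := pow_card_eq_one'
    rw [hQ] at h1
    have h2 : (x⁻¹ * w * x) ^ l ^ a = 1 := congrArg Subtype.val h1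
    have h3 : (x⁻¹ * w * x) ^ l ^ a = x⁻¹ * w ^ l ^ a * x := by
      have := conj_pow (i := l ^ a) (a := x⁻¹) (b := w)
      rwa [inv_inv] at this
    rw [h3] at h2
    have h4 := congrArg (fun y => x * y * x⁻¹) h2
    simpa [mul_assoc] using h4
  have hpimod : ∀ w, (∃ k : ℕ, w ^ l ^ k = 1) → ¬ l ∣ pif Q w := by
    rintro w ⟨k, hk⟩ hd
    have hpg : IsPGroup l (Subgroup.zpowers w) := by
      rintro ⟨y, hy⟩
      obtain ⟨i, rfl⟩ := Subgroup.mem_zpowers_iff.1 hy
      refine ⟨k, Subtype.ext ?_⟩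
      show (w ^ i) ^ l ^ k = 1
      rw [← zpow_natCast, zpow_comm, zpow_natCast, hk, one_zpow]
    have h1 := hpg.card_modEq_card_fixedPoints (D ⧸ Q)
    have h2 : Nat.card (MulAction.fixedPoints (Subgroup.zpowers w) (D ⧸ Q)) = pif Q w := by
      unfold pif
      rw [← Fintype.card_subtype, ← Nat.card_eq_fintype_card]
      refine Nat.card_congr (Equiv.subtypeEquivRight fun c => ?_)
      constructor
      · intro h
        exact h ⟨w, Subgroup.mem_zpowers w⟩
      · rintro h ⟨y, hy⟩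
        obtain ⟨i, rfl⟩ := Subgroup.mem_zpowers_iff.1 hy
        show w ^ i • c = c
        have h3 : w ∈ MulAction.stabilizer D c := h
        exact (MulAction.stabilizer D c).zpow_mem h3 i
    rw [h2] at h1
    have h3 : Nat.card (D ⧸ Q) = Q.index := rfl
    rw [h3] at h1
    exact hidx2 ((Nat.modEq_zero_iff_dvd).1 (h1.trans ((Nat.modEq_zero_iff_dvd).2 hd)))
  -- integrality
  have hpiGC : ∀ k : ℕ, GC fun v : Q => (pif Q (v : D) : ℂ) ^ k := by
    intro k
    induction k with
    | zero =>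
      simp only [pow_zero]
      exact hcon 1 isIntegral_one
    | succ k ih =>
      simp only [pow_succ]
      refine hmul _ _ ih ?_
      exact Submodule.subset_span ((pif_char Q).comp Q.subtype)
  have hint : ∀ k : ℕ, IsIntegral ℤ
      ((Fintype.card Q : ℂ)⁻¹ * ∑ v : Q, F v * (pif Q (v : D) : ℂ) ^ k) :=
    fun k => havg _ (hmul _ _ hGC (hpiGC k))
  have hFint : ∀ w, (∃ k : ℕ, w ^ l ^ k = 1) → IsIntegral ℤ (F w) := by
    intro w hw
    have h1 : pif Q w ≠ 0 := fun h => hpimod w hw (h ▸ dvd_zero l)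
    obtain ⟨x, hx⟩ := hpi0 w h1
    have h2 := hval _ hGC ⟨_, hx⟩
    have h3 : F (x⁻¹ * w * x) = F w := by
      have := hF x⁻¹ w
      rwa [inv_inv] at this
    rwa [show F ((⟨_, hx⟩ : Q) : D) = F w from h3] at h2
  -- Euler
  obtain ⟨k, hk⟩ : ∃ k, (l ^ a).totient = k + 1 :=
    ⟨_, (Nat.succ_pred_eq_of_pos (Nat.totient_pos.2 (pow_pos hl.pos a))).symm⟩
  have heul : ∀ w, (∃ k : ℕ, w ^ l ^ k = 1) →
      ∃ m : ℤ, ((pif Q w : ℂ)) ^ (k + 1) - 1 = (l : ℂ) ^ a * m := by
    intro w hw
    have h1 : (pif Q w).Coprime (l ^ a) :=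
      Nat.Coprime.pow_right _ ((hl.coprime_iff_not_dvd.2 (hpimod w hw)).symm)
    have h2 := Nat.ModEq.pow_totient h1
    rw [hk] at h2
    obtain ⟨m, hm⟩ := (Nat.modEq_iff_dvd.1 h2.symm)
    refine ⟨m, ?_⟩
    have h3 := congrArg (fun z : ℤ => (z : ℂ)) hm
    push_cast at h3
    exact h3
  choose! m hm using heul
  refine ⟨1, hl.one_lt.ne' ∘ Nat.dvd_one.1, (Q.index : ℂ) *
    ((Fintype.card Q : ℂ)⁻¹ * ∑ v : Q, F v * (pif Q (v : D) : ℂ) ^ k) -
    ∑ w : D, (if ∃ k : ℕ, w ^ l ^ k = 1 then F w * m w else 0), ?_, ?_⟩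
  · refine IsIntegral.sub (IsIntegral.mul (isIntegral_algebraMap (R := ℤ) (x := (Q.index : ℤ)))
      (hint k)) ?_
    refine IsIntegral.sum _ fun w _ => ?_
    by_cases hw : ∃ k : ℕ, w ^ l ^ k = 1
    · rw [if_pos hw]
      exact (hFint w hw).mul (isIntegral_algebraMap (R := ℤ) (x := m w))
    · rw [if_neg hw]
      exact isIntegral_zero
  · rw [Nat.cast_one, one_mul, mul_sub]
    have h1 : (l : ℂ) ^ a * ((Q.index : ℂ) *
        ((Fintype.card Q : ℂ)⁻¹ * ∑ v : Q, F v * (pif Q (v : D) : ℂ) ^ k)) =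
        ∑ w, F w * (pif Q w : ℂ) ^ (k + 1) := by
      rw [sum_pif Q F hF k, hidx]
      push_cast
      ring
    rw [h1, Finset.mul_sum, ← Finset.sum_sub_distrib]
    refine Finset.sum_congr rfl fun w _ => ?_
    by_cases hw : ∃ k : ℕ, w ^ l ^ k = 1
    · rw [if_pos hw, if_pos hw]
      have := hm w hw
      linear_combination -(F w) * this
    · rw [if_neg hw, if_neg hw]
      have h2 : pif Q w = 0 := by
        by_contra h
        exact hw (hpiel w h)
      rw [h2]
      simp

end Pool.Agent.Lib.MP_1aae89_al.W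
end

section
/-!
# Levels of restrictions and of induced characters
-/
set_option autoImplicit false

namespace Pool.Agent.Lib.MP_1aae89_al.W

open Pool.Agent.Lib.MP_1aae89_al Finset

theorem specLRS : SpecLRS := by
  intro p _ G _ _ M P ψ hψ
  classical
  have : Fintype M := Fintype.ofFinite M
  obtain ⟨h1, h2, h3⟩ := lev_spec hψ p
  have hm : ∀ g, ind M ψ g ∈ cycField (conductor ψ) := by
    intro g
    unfold ind
    refine mul_mem (inv_mem (natCast_mem _ _)) (sum_mem fun x _ => ?_)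
    split_ifs with h
    · exact h2 _
    · exact zero_mem _
  obtain ⟨h4, h5⟩ := conductor_spec h1 hm
  exact ⟨lev_le p h4 fun x => h5 x, lev_le p h1 hm⟩

end Pool.Agent.Lib.MP_1aae89_al.W
end

section
/-!
# Module LSP: local integrality of sums of class functions
-/
set_option autoImplicit false

namespace Pool.Agent.Lib.MP_1aae89_al.W

open Pool.Agent.Lib.MP_1aae89_al Pool.Agent.Lib.MP_1aae89_al.BF Finset
open Pool.Agent.Lib.MP1aae89 (Pex exists_pex pp_pow pc_pow pp_of)

theorem LD.zero {l : ℕ} (hl : l.Prime) (a : ℕ) : LD l a 0 :=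
  ⟨1, hl.one_lt.ne' ∘ Nat.dvd_one.1, 0, isIntegral_zero, by simp⟩

theorem LD.add {l : ℕ} (hl : l.Prime) {a : ℕ} {x y : ℂ} (hx : LD l a x) (hy : LD l a y) :
    LD l a (x + y) := by
  obtain ⟨n, hn, w, hw, h1⟩ := hx
  obtain ⟨m, hm, v, hv, h2⟩ := hy
  refine ⟨n * m, fun h => (hl.dvd_mul.1 h).elim hn hm, (m : ℂ) * w + (n : ℂ) * v, ?_, ?_⟩
  · exact ((isIntegral_algebraMap (R := ℤ) (x := (m : ℤ))).mul hw).add
      ((isIntegral_algebraMap (R := ℤ) (x := (n : ℤ))).mul hv)
  · push_cast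
    linear_combination (m : ℂ) * h1 + (n : ℂ) * h2

theorem LD.sum {l : ℕ} (hl : l.Prime) {a : ℕ} {ι : Type} (s : Finset ι) (f : ι → ℂ)
    (h : ∀ i ∈ s, LD l a (f i)) : LD l a (∑ i ∈ s, f i) := by
  classical
  induction s using Finset.induction_on with
  | empty => rw [Finset.sum_empty]; exact LD.zero hl a
  | insert i s hi ih =>
    rw [Finset.sum_insert hi]
    exact LD.add hl (h i (mem_insert_self i s)) (ih fun j hj => h j (mem_insert_of_mem hj))

theorem specLSP (hGCA2 : SpecGCA2) (hLFM : SpecLFM) : SpecLSP := by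
  classical
  intro l hl C _ _ F hF hQ
  have : Fact l.Prime := ⟨hl⟩
  set N := Fintype.card C with hN
  have hN0 : N ≠ 0 := Fintype.card_ne_zero
  obtain ⟨s0, hs⟩ := exists_pex hl hN0
  have hyN : ∀ y : C, y ^ N = 1 := fun y => pow_card_eq_one
  set tp : C → C := fun y => (y ^ s0)⁻¹ * y with htp
  have htw : ∀ y, tp y * y ^ s0 = y := by
    intro y
    show (y ^ s0)⁻¹ * y * y ^ s0 = y
    rw [mul_assoc, ← pow_succ', pow_succ, inv_mul_cancel_left]
  have htc : ∀ y, y ^ s0 * tp y = tp y * y ^ s0 := by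
    intro y
    rw [htw]
    exact mul_inv_cancel_left _ _
  have htconj : ∀ g y, tp (g * y * g⁻¹) = g * tp y * g⁻¹ := by
    intro g y
    show ((g * y * g⁻¹) ^ s0)⁻¹ * (g * y * g⁻¹) = g * ((y ^ s0)⁻¹ * y) * g⁻¹
    rw [conj_pow]
    group
  set S : C → ℂ := fun t => ∑ y ∈ univ.filter (fun y => tp y = t), F y with hS
  have hSconj : ∀ g t, S (g * t * g⁻¹) = S t := by
    intro g t
    refine Finset.sum_bij' (fun y _ => g⁻¹ * y * g) (fun y _ => g * y * g⁻¹) ?_ ?_ ?_ ?_ ?_
    · intro y hy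
      have h1 := (mem_filter.1 hy).2
      refine mem_filter.2 ⟨mem_univ _, ?_⟩
      have h2 := htconj g⁻¹ y
      rw [inv_inv] at h2
      rw [h2, h1]
      group
    · intro y hy
      have h1 := (mem_filter.1 hy).2
      refine mem_filter.2 ⟨mem_univ _, ?_⟩
      rw [htconj, h1]
    · intro y _; group
    · intro y _; group
    · intro y _
      have h2 := hF g⁻¹ y
      rw [inv_inv] at h2
      exact h2.symm
  -- local
  have hloc : ∀ t : C, LD l ((Nat.card (Subgroup.centralizer ({t} : Set C))).factorization l)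
      (S t) := by
    intro t
    by_cases ht : t ^ ordCompl[l] N = 1
    · have hcop : (orderOf t).Coprime l := by
        refine Nat.Coprime.coprime_dvd_left (orderOf_dvd_of_pow_eq_one ht) ?_
        exact (Nat.coprime_ordCompl hl hN0).symm
      let D := Subgroup.centralizer ({t} : Set C)
      have hD : ∀ w : D, t * (w : C) = (w : C) * t := fun w =>
        (Subgroup.mem_centralizer_iff.1 w.2) t rfl
      let Q : Sylow l D := default
      have h1 : GC fun w : (Q : Subgroup D) => F (t * ((w : D) : C)) := by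
        have h2 := hQ t hcop ((Q : Subgroup D).map D.subtype) (Q.2.map _) (by
          rintro w ⟨w', _, rfl⟩
          exact hD w')
        have h3 := hGCA2.2.2.2.2.2.1 (D.subtype.subgroupMap (Q : Subgroup D)) _ h2
        exact h3
      have h2 := hLFM l hl (D := D) (Q : Subgroup D) (by
        rw [← Nat.card_eq_fintype_card]
        exact Q.card_eq_multiplicity) (fun w => F (t * (w : C))) (by
          intro g w
          show F (t * ((g : C) * w * (g : C)⁻¹)) = _
          rw [← hF g (t * (w : C))]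
          congr 1
          have := hD g
          rw [← mul_assoc, ← mul_assoc, this]
          group) h1
      rw [← Nat.card_eq_fintype_card] at h2
      convert h2 using 1
      rw [← Finset.sum_filter]
      refine Finset.sum_bij (fun y hy => (⟨y ^ s0, ?_⟩ : D)) ?_ ?_ ?_ ?_
      · rw [Subgroup.mem_centralizer_iff]
        intro h hh
        rw [Set.mem_singleton_iff.1 hh, ← (mem_filter.1 hy).2]
        exact (htc y).symm
      · intro y hy
        refine mem_filter.2 ⟨mem_univ _, N.factorization l, Subtype.ext ?_⟩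
        exact pp_pow hs (hyN y)
      · intro y hy y' hy' h
        have h3 : y ^ s0 = y' ^ s0 := congrArg Subtype.val h
        rw [← htw y, ← htw y', (mem_filter.1 hy).2, (mem_filter.1 hy').2, h3]
      · intro w hw
        obtain ⟨k, hk⟩ := (mem_filter.1 hw).2
        have hk' : (w : C) ^ l ^ k = 1 := congrArg Subtype.val hk
        have h3 : (w : C) ^ ordProj[l] N = 1 := by
          refine orderOf_dvd_iff_pow_eq_one.1 ?_
          obtain ⟨i, -, hi⟩ := (Nat.dvd_prime_pow hl).1 (orderOf_dvd_of_pow_eq_one hk')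
          rw [hi]
          refine (hl.pow_dvd_iff_dvd_ordProj hN0).1 ?_
          rw [← hi]
          exact orderOf_dvd_of_pow_eq_one (hyN _)
        have h4 : ((w : C) * t) ^ s0 = w := pp_of hs h3 ht (hD w).symm
        refine ⟨(w : C) * t, mem_filter.2 ⟨mem_univ _, ?_⟩, Subtype.ext h4⟩
        show (((w : C) * t) ^ s0)⁻¹ * ((w : C) * t) = t
        rw [h4, inv_mul_cancel_left]
      · intro y hy
        show F y = F (t * y ^ s0)
        rw [← (mem_filter.1 hy).2, htw]
    · have h1 : S t = 0 := by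
        refine Finset.sum_eq_zero fun y hy => ?_
        exfalso
        apply ht
        rw [← (mem_filter.1 hy).2]
        exact pc_pow hs (hyN y)
      rw [h1]
      exact LD.zero hl _
  -- sum over classes
  have h1 : ∑ y, F y = ∑ t, S t := (Finset.sum_fiberwise univ tp F).symm
  have h2 : ∑ t, S t = ∑ c : ConjClasses C, ∑ t ∈ univ.filter (fun t => ConjClasses.mk t = c), S t :=
    (Finset.sum_fiberwise univ ConjClasses.mk S).symm
  rw [h1, h2]
  refine LD.sum hl _ _ fun c _ => ?_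
  obtain ⟨t, rfl⟩ := ConjClasses.mk_surjective c
  have h3 : ∑ t' ∈ univ.filter (fun t' => ConjClasses.mk t' = ConjClasses.mk t), S t' =
      ((univ.filter (fun t' => ConjClasses.mk t' = ConjClasses.mk t)).card : ℂ) * S t := by
    rw [Finset.sum_congr rfl (g := fun _ => S t), Finset.sum_const, nsmul_eq_mul]
    intro t' ht'
    obtain ⟨g, hg⟩ := isConj_iff.1 (ConjClasses.mk_eq_mk_iff_isConj.1 (mem_filter.1 ht').2)
    rw [← hg, hSconj]
  have h4 : (univ.filter (fun t' => ConjClasses.mk t' = ConjClasses.mk t)).card *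
      Nat.card (Subgroup.centralizer ({t} : Set C)) = N := by
    have h5 := MulAction.card_orbit_mul_card_stabilizer_eq_card_group (ConjAct C) t
    rw [ConjAct.card] at h5
    rw [hN, ← h5]
    congr 1
    · rw [Fintype.card_subtype]
      congr 1
      ext t'
      simp only [mem_filter, mem_univ, true_and]
      rw [ConjAct.mem_orbit_conjAct, ConjClasses.mk_eq_mk_iff_isConj]
    · rw [← Nat.card_eq_fintype_card]
      refine Nat.card_congr ⟨fun x => ⟨ConjAct.toConjAct x.1, ?_⟩,
        fun x => ⟨ConjAct.ofConjAct x.1, ?_⟩, fun x => rfl, fun x => rfl⟩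
      · rw [MulAction.mem_stabilizer_iff, ConjAct.toConjAct_smul]
        have := Subgroup.mem_centralizer_iff.1 x.2 t rfl
        rw [← this, mul_inv_cancel_right]
      · have := MulAction.mem_stabilizer_iff.1 x.2
        rw [ConjAct.smul_def] at this
        rw [Subgroup.mem_centralizer_iff]
        rintro h rfl
        exact (mul_inv_eq_iff_eq_mul.1 this).symm
  rw [h3]
  set m := (univ.filter (fun t' => ConjClasses.mk t' = ConjClasses.mk t)).card with hm
  obtain ⟨n, hn, w, hw, h5⟩ := hloc t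
  have hm0 : m ≠ 0 := by
    rintro h
    rw [h, zero_mul] at h4
    exact hN0 h4.symm
  have hc0 : Nat.card (Subgroup.centralizer ({t} : Set C)) ≠ 0 := Nat.card_pos.ne'
  refine ⟨n, hn, ((ordCompl[l] m : ℕ) : ℂ) * w,
    (isIntegral_algebraMap (R := ℤ) (x := ((ordCompl[l] m : ℕ) : ℤ))).mul hw, ?_⟩
  rw [← h4, Nat.factorization_mul hm0 hc0, Finsupp.add_apply, pow_add]
  have h6 : (m : ℂ) = (l : ℂ) ^ (m.factorization l) * ((ordCompl[l] m : ℕ) : ℂ) := by
    conv_lhs => rw [← Nat.ordProj_mul_ordCompl_eq_self m l]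
    push_cast
    rfl
  conv_lhs => rw [h6]
  linear_combination (l : ℂ) ^ (m.factorization l) * ((ordCompl[l] m : ℕ) : ℂ) * h5

end Pool.Agent.Lib.MP_1aae89_al.W
end

section
/-!
# LTE: lifting the exponent
-/
set_option autoImplicit false

namespace Pool.Agent.Lib.MP_1aae89_al.W

open Pool.Agent.Lib.MP_1aae89_al
open Pool.Agent.Lib.MP1aae89 (Pex)

theorem lte_val (p : ℕ) [Fact p.Prime] (m f i : ℕ) (hm : m ≠ 0) (hf : padicValNat p m = f)
    (h1 : 1 ≤ f) (h2 : p ≠ 2 ∨ 2 ≤ f ∨ i = 0) :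
    padicValNat p ((1 + m) ^ p ^ i - 1) = f + i := by
  have hp : p.Prime := Fact.out
  rcases Nat.eq_zero_or_pos i with rfl | hi
  · rw [pow_zero, pow_one, Nat.add_sub_cancel_left, hf, add_zero]
  have hpm : p ∣ m := by
    have : p ^ 1 ∣ m := (padicValNat_dvd_iff_le hm).2 (by omega)
    rwa [pow_one] at this
  have hx : ¬ p ∣ 1 + m := by
    intro h
    have : p ∣ 1 := (Nat.dvd_add_left hpm).1 h
    exact hp.one_lt.ne' (Nat.dvd_one.1 this)
  have hsub : p ∣ 1 + m - 1 := by rw [Nat.add_sub_cancel_left]; exact hpm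
  have hlt : 1 < 1 + m := by omega
  have hn : p ^ i ≠ 0 := (pow_pos hp.pos i).ne'
  rcases hp.eq_two_or_odd' with h | h
  · subst h
    have hf2 : 2 ≤ f := by
      rcases h2 with h | h | h
      · exact absurd rfl h
      · exact h
      · omega
    have h4 : 4 ∣ m := by
      have : 2 ^ 2 ∣ m := (padicValNat_dvd_iff_le hm).2 (by omega)
      simpa using this
    have hev : Even (2 ^ i) := (Nat.even_pow.2 ⟨even_two, by omega⟩)
    have e := padicValNat.pow_two_sub_pow (x := 1 + m) (y := 1) hlt hsub hx hn hev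
    rw [one_pow, Nat.add_sub_cancel_left, hf, padicValNat.prime_pow] at e
    have e2 : padicValNat 2 (1 + m + 1) = 1 := by
      obtain ⟨k, rfl⟩ := h4
      have : 1 + 4 * k + 1 = 2 * (1 + 2 * k) := by ring
      rw [this, padicValNat.mul (by norm_num) (by omega), padicValNat.self (by norm_num),
        padicValNat.eq_zero_of_not_dvd (by omega)]
    rw [e2] at e
    omega
  · have e := padicValNat.pow_sub_pow (x := 1 + m) (y := 1) (p := p) h hlt hsub hx hn
    rw [one_pow, Nat.add_sub_cancel_left, hf, padicValNat.prime_pow] at e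
    exact e

theorem specLTE : SpecLTE := by
  intro p hp L s0 hL hP b c t hc hcb hcond hbN ht
  have : Fact p.Prime := ⟨hp⟩
  have ht0 : t ≠ 0 := by rintro rfl; exact ht (dvd_zero _)
  have hpN : p ∣ ordProj[p] L := dvd_pow_self p (by omega)
  have hs : ¬ p ∣ s0 := by
    intro h
    have h1 : s0 ≡ 1 [MOD p] := hP.one.of_dvd hpN
    have h2 : (0 : ℕ) ≡ 1 [MOD p] := ((Nat.modEq_zero_iff_dvd.2 h).symm).trans h1
    have h3 : p ∣ 1 := Nat.modEq_zero_iff_dvd.1 h2.symm
    exact hp.one_lt.ne' (Nat.dvd_one.1 h3)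
  have hs0 : s0 ≠ 0 := by rintro rfl; exact hs (dvd_zero _)
  have hpc : p ^ (c - 1) ≠ 0 := (pow_pos hp.pos _).ne'
  set m := s0 * p ^ (c - 1) * t with hm
  have hm0 : m ≠ 0 := mul_ne_zero (mul_ne_zero hs0 hpc) ht0
  set v := padicValNat p t with hv
  have hval : padicValNat p m = c - 1 + v := by
    rw [hm, padicValNat.mul (mul_ne_zero hs0 hpc) ht0, padicValNat.mul hs0 hpc,
      padicValNat.eq_zero_of_not_dvd hs, padicValNat.prime_pow, zero_add]
  have hvb : v ≤ b - c := by
    by_contra hcon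
    exact ht ((padicValNat_dvd_iff_le ht0).2 (by omega))
  have hX1 : 1 ≤ (1 + m) ^ p ^ (b - c - v) := Nat.one_le_pow _ _ (by omega)
  have key : padicValNat p ((1 + m) ^ p ^ (b - c - v) - 1) = b - 1 := by
    rw [lte_val p m (c - 1 + v) (b - c - v) hm0 hval (by omega)]
    · omega
    · rcases hcond with h | h | h
      · exact Or.inl h
      · exact Or.inr (Or.inl (by omega))
      · exact Or.inr (Or.inr (by omega))
  have hX0 : (1 + m) ^ p ^ (b - c - v) - 1 ≠ 0 := by
    have h1 : 1 < (1 + m) ^ p ^ (b - c - v) :=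
      Nat.one_lt_pow (pow_pos hp.pos _).ne' (by omega)
    omega
  refine ⟨b - c - v, ?_, ?_⟩
  · have hco : (ordCompl[p] L).Coprime (p ^ (b - 1)) :=
      (Nat.Coprime.pow_left _ (Nat.coprime_ordCompl hp hL)).symm
    rw [← Nat.modEq_and_modEq_iff_modEq_mul hco]
    refine ⟨?_, ?_⟩
    · have h1 : (1 + m) ≡ 1 [MOD ordCompl[p] L] := by
        have h2 : m ≡ 0 [MOD ordCompl[p] L] :=
          Nat.modEq_zero_iff_dvd.2 ((hP.zero.mul_right _).mul_right _)
        simpa using (Nat.ModEq.refl 1).add h2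
      simpa using h1.pow (p ^ (b - c - v))
    · refine ((Nat.modEq_iff_dvd' hX1).2 ?_).symm
      exact (padicValNat_dvd_iff_le hX0).2 (by omega)
  · intro h
    have h1 := (Nat.modEq_iff_dvd' hX1).1 h.symm
    have h2 := (padicValNat_dvd_iff_le hX0).1 h1
    omega

end Pool.Agent.Lib.MP_1aae89_al.W
end

section
/-!
# Module MAI: the theorem for `P ≤ M`
-/
set_option autoImplicit false

namespace Pool.Agent.Lib.MP_1aae89_al.W

open Pool.Agent.Lib.MP_1aae89_al Pool.Agent.Lib.MP_1aae89_al.BF Finset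
open Pool.Agent.Lib.MP1aae89 (Pex exists_pex)

theorem ind_mem_cyc {G : Type} [Group G] [Fintype G] (M : Subgroup G) {ψ : M → ℂ}
    (hψ : IsCharacter ψ) (x : G) : ind M ψ x ∈ cycField (Fintype.card G) := by
  classical
  unfold ind
  refine mul_mem (inv_mem (natCast_mem _ _)) (sum_mem fun g _ => ?_)
  split_ifs with h
  · have h1 := hψ.mem_cyc_card ⟨g⁻¹ * x * g, h⟩
    have h2 : Fintype.card M ∣ Fintype.card G := by
      rw [← Nat.card_eq_fintype_card, ← Nat.card_eq_fintype_card]
      exact Subgroup.card_subgroup_dvd_card M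
    exact cyc_mono h2 Fintype.card_ne_zero h1
  · exact zero_mem _

theorem specMAI (hGIN : SpecGIN) (hNRM : SpecNRM) (hLEV : SpecLEV) (hFIN : SpecFIN) :
    SpecMAI := by
  classical
  intro p hp G _ _ M P hPM hP n r hr hn b c hb hc hcb h2 hPow hlt
  by_contra hcon
  rw [not_le] at hcon
  set ψ : M → ℂ := fun y => (r y).trace with hψdef
  have hψ : IsCharacter ψ := isCharacter_trace r
  have hn0 : n ≠ 0 := by
    rintro rfl
    exact hn (dvd_zero p)
  have hL0 : Fintype.card G ≠ 0 := Fintype.card_ne_zero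
  have hML : Fintype.card M ∣ Fintype.card G := by
    rw [← Nat.card_eq_fintype_card, ← Nat.card_eq_fintype_card]
    exact Subgroup.card_subgroup_dvd_card M
  obtain ⟨s0, hs⟩ := exists_pex hp hL0
  have hb1 : b ≤ (Fintype.card G).factorization p := by
    rw [← hb]
    have h1 : conductor ψ ∣ Fintype.card G := (cond_dvd hψ).trans hML
    have h3 : conductor ψ ≠ 0 := fun h => hL0 (Nat.eq_zero_of_zero_dvd (h ▸ h1))
    exact (Nat.factorization_le_iff_dvd h3 hL0).2 h1 p
  have hcond := conductor_spec (χ := fun x : P => ind M ψ (x : G)) hL0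
    (fun x => ind_mem_cyc M hψ x)
  have hinv : ∀ x ∈ P, ind M ψ (x ^ (1 + p ^ (c - 1))) = ind M ψ x := by
    intro x hx
    refine hGIN M hψ hp hcond.1 hc hcon (e := (Fintype.card G).factorization p) ?_
      (hcond.2 ⟨x, hx⟩)
    have h3 : (⟨x, hx⟩ : P) ^ Nat.card P = 1 := pow_card_eq_one'
    rw [hP] at h3
    exact congrArg Subtype.val h3
  have hav : ∀ _ : Fintype M,
      ∑ y, ‖av (ordProj[p] (Fintype.card G)) (s0 * p ^ (c - 1)) (fun y : M => (r y).trace) y‖ ^ 2 ≤
      (Fintype.card M : ℝ) / (p : ℝ) ^ (b - c + 1) := by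
    intro inst
    have hML' : @Fintype.card M inst ∣ Fintype.card G := by
      convert hML
    exact hNRM p hp (Fintype.card G) s0 _ hL0 hML' hs rfl r hr hn0 c (b - c + 1) hc (by omega)
      (fun t ht => hLEV p hp (Fintype.card G) s0 hL0 hML' hs ψ hψ b c t hc hcb h2 hb ht)
  have hfin := hFIN p hp M P s0 hs hPM hP c (b - c + 1) hc hPow r hn hav hinv
  omega

end Pool.Agent.Lib.MP_1aae89_al.W
end

section
/-!
# MAJ: reduction to the case `P ≤ M`
-/
set_option autoImplicit false

namespace Pool.Agent.Lib.MP_1aae89_al.W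

open Pool.Agent.Lib.MP_1aae89_al Pool.Agent.Lib.MP_1aae89_al.BF Finset

open Classical in
/-- induced functions are class functions -/
theorem ind_conj_eq {G : Type} [Group G] [Fintype G] (H : Subgroup G) (θ : H → ℂ) (g x : G) :
    ind H θ (g * x * g⁻¹) = ind H θ x := by
  unfold ind
  congr 1
  refine Fintype.sum_equiv (Equiv.mulLeft g⁻¹) _ _ fun y => ?_
  have h1 : y⁻¹ * (g * x * g⁻¹) * y = (Equiv.mulLeft g⁻¹ y)⁻¹ * x * (Equiv.mulLeft g⁻¹ y) := by
    rw [Equiv.coe_mulLeft]
    group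
  by_cases h : y⁻¹ * (g * x * g⁻¹) * y ∈ H
  · have h' : (Equiv.mulLeft g⁻¹ y)⁻¹ * x * (Equiv.mulLeft g⁻¹ y) ∈ H := h1 ▸ h
    rw [dif_pos h, dif_pos h']
    congr 1
    exact Subtype.ext h1
  · have h' : (Equiv.mulLeft g⁻¹ y)⁻¹ * x * (Equiv.mulLeft g⁻¹ y) ∉ H := h1 ▸ h
    rw [dif_neg h, dif_neg h']

section

variable {G : Type} [Group G] {P P1 : Subgroup G} {g : G} (h : ∀ x, x ∈ P ↔ g * x * g⁻¹ ∈ P1)
include h

theorem powC_conj {q : ℕ} (hP : PowC P q) : PowC P1 q := by
  intro x hx y hy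
  have hx' : g⁻¹ * x * g ∈ P := (h _).2 (by
    have : g * (g⁻¹ * x * g) * g⁻¹ = x := by group
    rwa [this])
  have hy' : g⁻¹ * y * g ∈ P := (h _).2 (by
    have : g * (g⁻¹ * y * g) * g⁻¹ = y := by group
    rwa [this])
  have hpow : ∀ z : G, (g⁻¹ * z * g) ^ q = g⁻¹ * z ^ q * g := by
    intro z
    have := conj_pow (i := q) (a := g⁻¹) (b := z)
    rwa [inv_inv] at this
  obtain ⟨h1, h2⟩ := hP _ hx' _ hy'
  have e1 : g⁻¹ * x * g * (g⁻¹ * y * g) = g⁻¹ * (x * y) * g := by group
  rw [e1, hpow, hpow, hpow] at h1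
  rw [hpow] at h2
  constructor
  · have e2 : g⁻¹ * (x * y) ^ q * g = g⁻¹ * (x ^ q * y ^ q) * g := by
      rw [h1]; group
    exact mul_left_cancel (mul_right_cancel e2)
  · have e2 : g⁻¹ * (x ^ q * y) * g = g⁻¹ * (y * x ^ q) * g := by
      calc g⁻¹ * (x ^ q * y) * g = g⁻¹ * x ^ q * g * (g⁻¹ * y * g) := by group
        _ = g⁻¹ * y * g * (g⁻¹ * x ^ q * g) := h2
        _ = _ := by group
    exact mul_left_cancel (mul_right_cancel e2)

theorem conj_pow_iff (q : ℕ) (z : G) :
    (∃ x ∈ P, x ^ q = z) ↔ ∃ x ∈ P1, x ^ q = g * z * g⁻¹ := by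
  constructor
  · rintro ⟨x, hx, rfl⟩
    exact ⟨g * x * g⁻¹, (h x).1 hx, conj_pow⟩
  · rintro ⟨x, hx, hxz⟩
    refine ⟨g⁻¹ * x * g, (h _).2 ?_, ?_⟩
    · have : g * (g⁻¹ * x * g) * g⁻¹ = x := by group
      rwa [this]
    · have := conj_pow (i := q) (a := g⁻¹) (b := x)
      rw [inv_inv] at this
      rw [this, hxz]
      group

theorem nR_conj (q : ℕ) : nR P q = nR P1 q := by
  unfold nR
  exact Nat.card_congr ((MulAut.conj g).toEquiv.subtypeEquiv fun z => by
    have h1 := conj_pow_iff h q z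
    exact h1)

theorem nK_conj (q : ℕ) : nK P q = nK P1 q := by
  unfold nK
  refine Nat.card_congr (Equiv.subtypeEquivRight fun c => ?_)
  constructor
  · rintro ⟨x, hx, rfl⟩
    refine ⟨g * x * g⁻¹, (h x).1 hx, ?_⟩
    rw [ConjClasses.mk_eq_mk_iff_isConj, isConj_iff]
    exact ⟨g⁻¹, by rw [conj_pow]; group⟩
  · rintro ⟨x, hx, rfl⟩
    refine ⟨g⁻¹ * x * g, (h _).2 ?_, ?_⟩
    · have : g * (g⁻¹ * x * g) * g⁻¹ = x := by group
      rwa [this]
    · rw [ConjClasses.mk_eq_mk_iff_isConj, isConj_iff]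
      refine ⟨g, ?_⟩
      have := conj_pow (i := q) (a := g⁻¹) (b := x)
      rw [inv_inv] at this
      rw [this]
      group

end

theorem specMAJ (hMAI : SpecMAI) : SpecMAJ := by
  intro p hp G _ _ M P hidx hP n r hr hn b c hb hc hcb h2 hPow hlt
  classical
  have : Fact p.Prime := ⟨hp⟩
  obtain ⟨P0⟩ : Nonempty (Sylow p M) := inferInstance
  let P1 : Subgroup G := (P0 : Subgroup M).map M.subtype
  have hPM : P1 ≤ M := by
    rintro _ ⟨x, -, rfl⟩
    exact x.2
  have hG0 : Nat.card G ≠ 0 := Nat.card_pos.ne'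
  have hM0 : Nat.card M ≠ 0 := Nat.card_pos.ne'
  have hcardG : (Nat.card G).factorization p = (Nat.card M).factorization p := by
    rw [← M.card_mul_index, Nat.factorization_mul hM0 M.index_ne_zero_of_finite,
      Finsupp.add_apply, Nat.factorization_eq_zero_of_not_dvd hidx, add_zero]
  have hP1c : Nat.card P1 = p ^ (Nat.card G).factorization p := by
    have h3 : Nat.card P1 = Nat.card (P0 : Subgroup M) :=
      Subgroup.card_map_of_injective M.subtype_injective
    rw [h3, hcardG]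
    exact P0.card_eq_multiplicity
  have hP' : Nat.card P = p ^ (Nat.card G).factorization p := by
    rw [hP, Nat.card_eq_fintype_card]
  obtain ⟨g, hg⟩ := MulAction.exists_smul_eq G (Sylow.ofCard P hP') (Sylow.ofCard P1 hP1c)
  have h1 : ∀ x, x ∈ P → g * x * g⁻¹ ∈ P1 := by
    intro x hx
    have h5 : g * x * g⁻¹ ∈ (Sylow.ofCard P1 hP1c : Subgroup G) := by
      rw [← hg, Sylow.coe_subgroup_smul]
      exact ⟨x, hx, rfl⟩
    exact h5
  have hmem : ∀ x, x ∈ P ↔ g * x * g⁻¹ ∈ P1 := by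
    intro x
    refine ⟨h1 x, fun hx => ?_⟩
    have h5 : g * x * g⁻¹ ∈ (Sylow.ofCard P1 hP1c : Subgroup G) := hx
    rw [← hg, Sylow.coe_subgroup_smul] at h5
    obtain ⟨y, hy, hyx⟩ := h5
    have h6 : g * y * g⁻¹ = g * x * g⁻¹ := hyx
    have h7 : y = x := mul_left_cancel (mul_right_cancel h6)
    rw [← h7]
    exact hy
  have hP1c' : Nat.card P1 = p ^ (Fintype.card G).factorization p := by
    rw [hP1c, Nat.card_eq_fintype_card]
  have key := hMAI p hp M P1 hPM hP1c' r hr hn b c hb hc hcb h2 (powC_conj hmem hPow)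
    (by rw [← nR_conj hmem, ← nK_conj hmem]; exact hlt)
  -- the levels agree
  let e : P ≃ P1 := (MulAut.conj g).toEquiv.subtypeEquiv hmem
  have h3 := lev_comp p e fun x : P1 => ind M (fun y => (r y).trace) (x : G)
  have h4 : (fun x : P => ind M (fun y => (r y).trace) ((e x : P1) : G)) =
      fun x : P => ind M (fun y => (r y).trace) (x : G) := by
    funext x
    exact ind_conj_eq M _ g x
  rw [h4] at h3
  rw [h3]
  exact key

end Pool.Agent.Lib.MP_1aae89_al.W
end

section
/-!
# NRM: the norm of the averaged character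
-/
set_option autoImplicit false

namespace Pool.Agent.Lib.MP_1aae89_al.W.NRM

open Pool.Agent.Lib.MP_1aae89_al Pool.Agent.Lib.MP_1aae89_al.BF Finset Matrix
open Pool.Agent.Lib.MP1aae89 (Pex)
open scoped ComplexConjugate

section

variable {G : Type} [Group G] [Fintype G] {n : ℕ}

/-- if the scalar product of the characters is not zero, the characters are equal -/
theorem trace_eq_of_ne {r s : G →* Matrix (Fin n) (Fin n) ℂ} (hr : Sch r) (hn : n ≠ 0)
    (h : ∑ g, (s g).trace * (r g⁻¹).trace ≠ 0) (g : G) : (s g).trace = (r g).trace := by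
  have hn' : (n : ℂ) ≠ 0 := by exact_mod_cast hn
  have hG : (Fintype.card G : ℂ) ≠ 0 := by exact_mod_cast Fintype.card_ne_zero
  have h1 : ∃ j i, ∑ g, s g * Matrix.single j i (1 : ℂ) * r g⁻¹ ≠ 0 := by
    by_contra hall
    push Not at hall
    apply h
    have h3 : ∀ g ∈ univ, (s g).trace * (r g⁻¹).trace =
        ∑ j, ∑ i, (s g * Matrix.single j i (1 : ℂ) * r g⁻¹ : Matrix (Fin n) (Fin n) ℂ) j i := by
      intro g _
      simp only [entry]
      rw [Matrix.trace, Matrix.trace, Finset.sum_mul_sum]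
      rfl
    rw [sum_congr rfl h3, sum_comm]
    refine sum_eq_zero fun j _ => ?_
    rw [sum_comm]
    refine sum_eq_zero fun i _ => ?_
    have h4 := congrFun (congrFun (hall j i) j) i
    rw [Matrix.sum_apply] at h4
    exact h4
  obtain ⟨j, i, hT⟩ := h1
  set T := ∑ g, s g * Matrix.single j i (1 : ℂ) * r g⁻¹ with hTd
  have hTi : ∀ g, s g * T = T * r g := fun g => avg2 s r _ g
  have h2 : ∃ a b, T a b ≠ 0 := by
    by_contra hall
    push Not at hall
    exact hT (Matrix.ext hall)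
  obtain ⟨a, b, hab⟩ := h2
  set T' := ∑ g, r g * Matrix.single b a (1 : ℂ) * s g⁻¹ with hT'd
  have h3 : T' * T = ((Fintype.card G : ℂ) * T a b / n) • (1 : Matrix (Fin n) (Fin n) ℂ) := by
    have h4 : T' * T = ∑ g, r g * (Matrix.single b a (1 : ℂ) * T) * r g⁻¹ := by
      rw [hT'd, Finset.sum_mul]
      refine sum_congr rfl fun g _ => ?_
      rw [Matrix.mul_assoc, hTi]
      simp only [Matrix.mul_assoc]
    rw [h4, avg hr hn]
    congr 3
    rw [Matrix.trace, Finset.sum_eq_single b]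
    · rw [Matrix.diag_apply, Matrix.single_mul_apply_same, one_mul]
    · intro k _ hk
      rw [Matrix.diag_apply, Matrix.single_mul_apply_of_ne (h := hk)]
    · intro h; exact absurd (mem_univ _) h
  set c := (Fintype.card G : ℂ) * T a b / n with hc
  have hc0 : c ≠ 0 := div_ne_zero (mul_ne_zero hG hab) hn'
  have h4 : (c⁻¹ • T') * T = 1 := by
    rw [Matrix.smul_mul, h3, smul_smul, inv_mul_cancel₀ hc0, one_smul]
  have h5 : T * (c⁻¹ • T') = 1 := mul_eq_one_comm.1 h4
  calc (s g).trace = (s g * (T * (c⁻¹ • T'))).trace := by rw [h5, Matrix.mul_one]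
    _ = (T * r g * (c⁻¹ • T')).trace := by rw [← Matrix.mul_assoc, hTi]
    _ = ((c⁻¹ • T') * T * r g).trace := by
        rw [Matrix.trace_mul_comm, ← Matrix.mul_assoc]
    _ = (r g).trace := by rw [h4, Matrix.one_mul]

/-- Galois conjugates of a representation -/
def galR (r : G →* Matrix (Fin n) (Fin n) ℂ) (σ : ℂ →+* ℂ) : G →* Matrix (Fin n) (Fin n) ℂ where
  toFun g := (r g).map σ
  map_one' := by rw [map_one]; exact Matrix.map_one σ (map_zero σ) (map_one σ)
  map_mul' x y := by rw [map_mul, Matrix.map_mul]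

omit [Fintype G] in
theorem galR_trace (r : G →* Matrix (Fin n) (Fin n) ℂ) (σ : ℂ →+* ℂ) (g : G) :
    (galR r σ g).trace = σ (r g).trace := by
  show ((r g).map σ).trace = _
  exact (AddMonoidHom.map_trace (σ : ℂ →+ ℂ) (r g)).symm

end

/-- the number of pairs of congruent numbers -/
theorem cnt (T d : ℕ) (hd : 0 < d) (hdT : d ∣ T) (t : ℕ) :
    #(filter (fun s => s ≡ t [MOD d]) (range T)) = T / d := by
  have h1 := Nat.count_modEq_card T hd t
  rw [Nat.mod_eq_zero_of_dvd hdT, if_neg (Nat.not_lt_zero _), add_zero,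
    Nat.count_eq_card_filter_range] at h1
  exact h1

theorem specNRM : SpecNRM := by
  intro p hp M _ _ L s0 T hL hML hpex hT n r hr hn c j hc hj H
  classical
  set ψ : M → ℂ := fun y => (r y).trace with hψ
  set e := s0 * p ^ (c - 1) with he
  have hL0 : 0 < L := Nat.pos_of_ne_zero hL
  have hT0 : T ≠ 0 := by rw [hT]; exact (pow_pos hp.pos _).ne'
  have hyL : ∀ y : M, y ^ L = 1 := fun y => by
    obtain ⟨k, hk⟩ := hML
    rw [hk, pow_mul, pow_card_eq_one, one_pow]
  have hpj : p ^ j ∣ T := by rw [hT]; exact pow_dvd_pow p hj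
  -- `L ∣ e T`
  have hLT : L ∣ e * T := by
    obtain ⟨k, hk⟩ := hpex.zero
    refine ⟨k * p ^ (c - 1), ?_⟩
    have h2 : T * ordCompl[p] L = L := by rw [hT]; exact Nat.ordProj_mul_ordCompl_eq_self L p
    calc e * T = (ordCompl[p] L * k) * p ^ (c - 1) * T := by rw [he, ← hk]
      _ = (T * ordCompl[p] L) * (k * p ^ (c - 1)) := by ring
      _ = _ := by rw [h2]
  -- the exponents are prime to `L`
  have hcop : ∀ t, (1 + e * t).Coprime L := by
    intro t
    by_contra hcon
    obtain ⟨l, hl, h1, h2⟩ := Nat.Prime.not_coprime_iff_dvd.1 hcon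
    have h3 : l ∣ e := by
      by_cases hlp : l = p
      · rw [hlp, he]
        exact (dvd_pow_self p (by omega)).mul_left _
      · rw [← Nat.ordProj_mul_ordCompl_eq_self L p] at h2
        rcases (Nat.Prime.dvd_mul hl).1 h2 with h | h
        · exact absurd ((Nat.prime_dvd_prime_iff_eq hl hp).1 (hl.dvd_of_dvd_pow h)) hlp
        · rw [he]; exact (h.trans hpex.zero).mul_right _
    have h4 : l ∣ 1 := (Nat.dvd_add_left (h3.mul_right t)).1 h1
    exact hl.one_lt.ne' (Nat.dvd_one.1 h4)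
  -- values at powers
  have hmodL : ∀ (y : M) (a b : ℕ), a ≡ b [MOD L] → y ^ a = y ^ b := fun y a b hab =>
    pow_eq_pow_iff_modEq.mpr (hab.of_dvd (orderOf_dvd_of_pow_eq_one (hyL y)))
  have hgal : ∀ (k : ℕ) (σ : ℂ →+* ℂ), (∀ ξ : ℂ, ξ ^ L = 1 → σ ξ = ξ ^ k) → ∀ y : M,
      σ (ψ y) = ψ (y ^ k) := by
    intro k σ hσ y
    have h1 : (r y) ^ L = 1 := by rw [← map_pow, hyL, map_one]
    rw [hψ]
    simp only
    rw [gal_trace hL σ hσ (r y) h1, map_pow]
  have hconj : ∀ y : M, conj (ψ y) = ψ y⁻¹ := by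
    intro y
    rw [hgal (L - 1) (starRingEnd ℂ) (fun ξ hξ => ?_) y]
    · congr 1
      rw [eq_inv_iff_mul_eq_one, ← pow_succ, Nat.sub_add_cancel hL0, hyL]
    · have h1 : ‖ξ‖ = 1 := Complex.norm_eq_one_of_pow_eq_one hξ hL
      have h2 : ξ * conj ξ = 1 := by
        rw [Complex.mul_conj, Complex.normSq_eq_norm_sq, h1]; simp
      have h3 : ξ ≠ 0 := fun h => by rw [h, zero_mul] at h2; exact zero_ne_one h2
      apply mul_left_cancel₀ h3
      rw [h2, ← pow_succ', Nat.sub_add_cancel hL0, hξ]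
  have hG : (Fintype.card M : ℂ) ≠ 0 := by exact_mod_cast Fintype.card_ne_zero
  -- the scalar products
  let I : ℕ → ℕ → ℂ := fun t s => ∑ y : M, ψ (y ^ (1 + e * t)) * ψ ((y ^ (1 + e * s))⁻¹)
  have hI : ∀ t ∈ range T, ∀ s ∈ range T,
      (I t s).re ≤ if s ≡ t [MOD p ^ j] then (Fintype.card M : ℝ) else 0 := by
    intro t _ s hs
    rw [mem_range] at hs
    obtain ⟨m, hm⟩ : ∃ m : ℕ, (1 + e * s) * m ≡ 1 [MOD L] := by
      have := Nat.exists_mul_mod_eq_one_of_coprime (hcop s)
      rcases Nat.lt_or_ge 1 L with h | h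
      · obtain ⟨m, -, hm⟩ := this h
        refine ⟨m, ?_⟩
        rw [Nat.ModEq, hm, Nat.mod_eq_of_lt h]
      · have h1 : L = 1 := by omega
        exact ⟨0, by rw [h1]; exact Nat.modEq_one⟩
    have hmc : m.Coprime L := by
      have h1 : ((1 + e * s) * m).Coprime L := by
        rw [Nat.Coprime, hm.gcd_eq, Nat.gcd_one_left]
      exact Nat.Coprime.coprime_mul_left h1
    -- substitution `y = w ^ m`
    have hbij : Function.Bijective fun w : M => w ^ m := by
      refine (Finite.injective_iff_bijective).1 fun x y hxy => ?_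
      have h1 : (x ^ m) ^ (1 + e * s) = (y ^ m) ^ (1 + e * s) := by
        have := congrArg (· ^ (1 + e * s)) hxy
        exact this
      rw [← pow_mul, ← pow_mul, mul_comm m, hmodL x _ _ hm, hmodL y _ _ hm, pow_one, pow_one] at h1
      exact h1
    obtain ⟨σ, hσ⟩ := Pool.Agent.Lib.MP1aae89.exists_aut L hL0 (m * (1 + e * t))
      (Nat.Coprime.mul_left hmc (hcop t))
    have hI1 : I t s = ∑ w : M, (galR r σ w).trace * (r w⁻¹).trace := by
      show ∑ y : M, ψ (y ^ (1 + e * t)) * ψ ((y ^ (1 + e * s))⁻¹) = _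
      rw [← Function.Bijective.sum_comp hbij fun y => ψ (y ^ (1 + e * t)) * ψ ((y ^ (1 + e * s))⁻¹)]
      refine sum_congr rfl fun w _ => ?_
      rw [galR_trace]
      have h1 := hgal _ σ hσ w
      have h2 : (w ^ m) ^ (1 + e * s) = w := by
        rw [← pow_mul, mul_comm m, hmodL w _ _ hm, pow_one]
      rw [h2, ← pow_mul]
      show ψ (w ^ (m * (1 + e * t))) * ψ w⁻¹ = σ (ψ w) * ψ w⁻¹
      rw [h1]
    by_cases h0 : I t s = 0
    · rw [h0, Complex.zero_re]
      split_ifs
      · exact Nat.cast_nonneg _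
      · exact le_rfl
    · rw [hI1] at h0
      have htr := trace_eq_of_ne hr hn h0
      have hψm : ∀ w, ψ (w ^ (m * (1 + e * t))) = ψ w := by
        intro w
        rw [← hgal _ σ hσ w, ← galR_trace]
        exact htr w
      -- the congruence
      have hcg : s ≡ t [MOD p ^ j] := by
        have h1 := H (m * (t + (T - s))) fun y => by
          have h2 : 1 + s0 * p ^ (c - 1) * (m * (t + (T - s))) ≡ m * (1 + e * t) [MOD L] := by
            rw [← he]
            have h3 : (1 + e * s) * m + (1 + e * (m * (t + (T - s)))) =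
                (1 + m * (1 + e * t)) + m * (e * T) := by
              have h4 : s + (T - s) = T := by omega
              calc (1 + e * s) * m + (1 + e * (m * (t + (T - s))))
                  = m + 1 + m * e * t + m * e * (s + (T - s)) := by ring
                _ = _ := by rw [h4]; ring
            have h5 : (1 + m * (1 + e * t)) + m * (e * T) ≡ 1 + m * (1 + e * t) [MOD L] := by
              have h6 : m * (e * T) ≡ 0 [MOD L] :=
                (Nat.modEq_zero_iff_dvd).2 (hLT.mul_left m)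
              simpa using Nat.ModEq.add_left (1 + m * (1 + e * t)) h6
            rw [← h3] at h5
            exact Nat.ModEq.add_left_cancel hm h5
          have h7 := hψm y
          rw [← hmodL y _ _ h2] at h7
          exact h7
        have h2 : p ^ j ∣ t + (T - s) := by
          by_cases hpL : p ∣ L
          · have h3 : (p ^ j).Coprime m :=
              Nat.Coprime.pow_left _ (Nat.Coprime.coprime_dvd_left hpL hmc.symm)
            exact h3.dvd_of_dvd_mul_left h1
          · have h3 : L.factorization p = 0 := Nat.factorization_eq_zero_of_not_dvd hpL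
            have h4 : j = 0 := by omega
            rw [h4, pow_zero]; exact one_dvd _
        have h3 : s + (t + (T - s)) = t + T := by omega
        have h4 : s + (t + (T - s)) ≡ s [MOD p ^ j] := by
          simpa using Nat.ModEq.add_left s ((Nat.modEq_zero_iff_dvd).2 h2)
        have h5 : t + T ≡ t [MOD p ^ j] := by
          simpa using Nat.ModEq.add_left t ((Nat.modEq_zero_iff_dvd).2 hpj)
        rw [h3] at h4
        exact h4.symm.trans h5
      rw [if_pos hcg, hI1]
      have h1 : ∑ w : M, (galR r σ w).trace * (r w⁻¹).trace = (Fintype.card M : ℂ) := by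
        have h2 := orth hr hn 1 1
        have hn' : (n : ℂ) ≠ 0 := by exact_mod_cast hn
        rw [Matrix.one_mul, trace_one, Fintype.card_fin, div_mul_cancel₀ _ hn'] at h2
        rw [← h2]
        refine sum_congr rfl fun w _ => ?_
        rw [htr w, Matrix.one_mul, Matrix.mul_one]
      rw [h1, Complex.natCast_re]
  -- the sum
  have hTc : (T : ℂ) ≠ 0 := by exact_mod_cast hT0
  have hsum : ((∑ y, ‖av T e ψ y‖ ^ 2 : ℝ) : ℂ) =
      (T : ℂ)⁻¹ ^ 2 * ∑ t ∈ range T, ∑ s ∈ range T, I t s := by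
    push_cast
    have h1 : ∀ y ∈ univ, ((‖av T e ψ y‖ : ℝ) : ℂ) ^ 2 = (T : ℂ)⁻¹ ^ 2 *
        ∑ t ∈ range T, ∑ s ∈ range T, ψ (y ^ (1 + e * t)) * ψ ((y ^ (1 + e * s))⁻¹) := by
      intro y _
      rw [← Complex.mul_conj', av, map_mul, map_inv₀, map_natCast, map_sum]
      simp only [hconj]
      rw [← sum_mul_sum]
      ring
    rw [sum_congr rfl h1, ← mul_sum, sum_comm]
    congr 1
    refine sum_congr rfl fun t _ => ?_
    rw [sum_comm]
  have hre : ∑ y, ‖av T e ψ y‖ ^ 2 = (T : ℝ)⁻¹ ^ 2 * ∑ t ∈ range T, ∑ s ∈ range T, (I t s).re := by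
    have h1 := congrArg Complex.re hsum
    rw [Complex.ofReal_re] at h1
    rw [h1]
    have h2 : ((T : ℂ)⁻¹ ^ 2) = (((T : ℝ)⁻¹ ^ 2 : ℝ) : ℂ) := by push_cast; rfl
    rw [h2, Complex.re_ofReal_mul, Complex.re_sum]
    congr 1
    refine sum_congr rfl fun t _ => ?_
    rw [Complex.re_sum]
  show ∑ y, ‖av T e ψ y‖ ^ 2 ≤ _
  rw [hre]
  have hpj0 : 0 < p ^ j := pow_pos hp.pos _
  have h1 : ∑ t ∈ range T, ∑ s ∈ range T, (I t s).re ≤
      (T : ℝ) * ((T / p ^ j : ℕ) * (Fintype.card M : ℝ)) := by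
    calc ∑ t ∈ range T, ∑ s ∈ range T, (I t s).re
        ≤ ∑ t ∈ range T, ∑ s ∈ range T,
          (if s ≡ t [MOD p ^ j] then (Fintype.card M : ℝ) else 0) :=
          sum_le_sum fun t ht => sum_le_sum fun s hs => hI t ht s hs
      _ = ∑ t ∈ range T, ((T / p ^ j : ℕ) * (Fintype.card M : ℝ)) := by
          refine sum_congr rfl fun t _ => ?_
          rw [← sum_filter, sum_const, cnt T _ hpj0 hpj t, nsmul_eq_mul]
      _ = _ := by rw [sum_const, card_range, nsmul_eq_mul]
  have hTr : (0 : ℝ) < T := by exact_mod_cast Nat.pos_of_ne_zero hT0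
  have hpr : (0 : ℝ) < (p : ℝ) ^ j := by exact_mod_cast hpj0
  have h2 : ((T / p ^ j : ℕ) : ℝ) = (T : ℝ) / (p : ℝ) ^ j := by
    rw [Nat.cast_div hpj (by exact_mod_cast hpr.ne')]
    push_cast
    rfl
  calc (T : ℝ)⁻¹ ^ 2 * ∑ t ∈ range T, ∑ s ∈ range T, (I t s).re
      ≤ (T : ℝ)⁻¹ ^ 2 * ((T : ℝ) * ((T / p ^ j : ℕ) * (Fintype.card M : ℝ))) :=
        mul_le_mul_of_nonneg_left h1 (by positivity)
    _ = (Fintype.card M : ℝ) / (p : ℝ) ^ j := by
        rw [h2]
        field_simp

end Pool.Agent.Lib.MP_1aae89_al.W.NRM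
end

section
/-!
# Module NVZ: a character of degree prime to `p` does not vanish at a `p`-element
-/
set_option autoImplicit false

namespace Pool.Agent.Lib.MP_1aae89_al.W

open Pool.Agent.Lib.MP_1aae89_al Pool.Agent.Lib.MP_1aae89_al.BF Finset

/-- modulo `p`: the `p^k`-th power of a sum is the sum of the `p^k`-th powers -/
theorem msum_pow {p : ℕ} [hp : Fact p.Prime] (k : ℕ) (s : Multiset ℂ)
    (hs : ∀ x ∈ s, IsIntegral ℤ x) :
    ∃ w : ℂ, IsIntegral ℤ w ∧ (s.sum) ^ p ^ k = (s.map fun x => x ^ p ^ k).sum + p * w := by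
  induction s using Multiset.induction_on with
  | empty =>
    refine ⟨0, isIntegral_zero, ?_⟩
    rw [Multiset.sum_zero, zero_pow (pow_ne_zero _ hp.out.ne_zero), Multiset.map_zero,
      Multiset.sum_zero, mul_zero, add_zero]
  | cons a s ih =>
    obtain ⟨w, hw, h⟩ := ih fun x hx => hs x (Multiset.mem_cons_of_mem hx)
    have ha := hs a (Multiset.mem_cons_self a s)
    have hsum : IsIntegral ℤ s.sum := IsIntegral.multiset_sum
      fun x hx => hs x (Multiset.mem_cons_of_mem hx)
    -- the ring of integers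
    let A := integralClosure ℤ ℂ
    let a' : A := ⟨a, ha⟩
    let b' : A := ⟨s.sum, hsum⟩
    obtain ⟨r, hr⟩ := exists_add_pow_prime_pow_eq hp.out a' b' k
    have h1 : (a + s.sum) ^ p ^ k = a ^ p ^ k + s.sum ^ p ^ k + p * (a * s.sum * (r : ℂ)) := by
      have h2 := congrArg (fun x : A => (x : ℂ)) hr
      simpa [a', b', mul_assoc] using h2
    refine ⟨w + a * s.sum * (r : ℂ), hw.add ((ha.mul hsum).mul r.2), ?_⟩
    rw [Multiset.sum_cons, Multiset.map_cons, Multiset.sum_cons, h1, h]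
    ring

theorem specNVZ : SpecNVZ := by
  intro p hp' C _ _ χ hχ u k hu h0 n hn
  have hp : Fact p.Prime := ⟨hp'⟩
  obtain ⟨m, ρ, hρ⟩ := hχ
  have hmn : m = n := by
    rw [hρ, map_one, Matrix.trace_one, Fintype.card_fin] at hn
    exact_mod_cast hn
  subst hmn
  rcases Nat.eq_zero_or_pos m with rfl | hm
  · exact dvd_zero p
  have : Nonempty (Fin m) := ⟨⟨0, hm⟩⟩
  have : Nontrivial (Matrix (Fin m) (Fin m) ℂ) := inferInstance
  have h1 : ρ u ^ p ^ k = 1 := by rw [← map_pow, hu, map_one]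
  set s := (ρ u).charpoly.roots with hs
  have hroot : ∀ μ ∈ s, μ ^ p ^ k = 1 := by
    intro μ hμ
    have h2 : μ ∈ spectrum ℂ (ρ u) := Matrix.mem_spectrum_of_isRoot_charpoly
      ((Polynomial.mem_roots (Matrix.charpoly_monic _).ne_zero).1 hμ)
    have h4 := spectrum.pow_mem_pow (ρ u) (p ^ k) h2
    rw [h1, spectrum.one_eq] at h4
    exact h4
  have hint : ∀ μ ∈ s, IsIntegral ℤ μ := by
    intro μ hμ
    refine ⟨Polynomial.X ^ p ^ k - 1, Polynomial.monic_X_pow_sub_C 1
      (pow_ne_zero _ hp'.ne_zero), ?_⟩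
    rw [Polynomial.eval₂_sub, Polynomial.eval₂_X_pow, Polynomial.eval₂_one, hroot μ hμ, sub_self]
  obtain ⟨w, hw, h⟩ := msum_pow (p := p) k s hint
  have hcard : Multiset.card s = m := by
    have h5 := IsAlgClosed.card_roots_eq_natDegree (p := (ρ u).charpoly)
    rw [Matrix.charpoly_natDegree_eq_dim, Fintype.card_fin] at h5
    exact h5
  have htr : s.sum = 0 := by
    rw [hs, ← Matrix.trace_eq_sum_roots_charpoly, ← hρ, h0]
  have hmap : (s.map fun x => x ^ p ^ k).sum = m := by
    rw [Multiset.map_congr rfl hroot, Multiset.map_const', Multiset.sum_replicate, hcard,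
      nsmul_eq_mul, mul_one]
  rw [htr, hmap, zero_pow (pow_ne_zero _ hp'.ne_zero)] at h
  -- `m / p` is integral
  have hpC : (p : ℂ) ≠ 0 := by exact_mod_cast hp'.ne_zero
  have h6 : (((m : ℚ) / p : ℚ) : ℂ) = -w := by
    push_cast
    field_simp
    linear_combination -h
  have h7 : IsIntegral ℤ ((m : ℚ) / p) := by
    have h8 : IsIntegral ℤ (algebraMap ℚ ℂ ((m : ℚ) / p)) := by
      have h9 : algebraMap ℚ ℂ ((m : ℚ) / p) = -w := h6
      rw [h9]
      exact hw.neg
    exact (isIntegral_algebraMap_iff (algebraMap ℚ ℂ).injective).1 h8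
  obtain ⟨z, hz⟩ := IsIntegrallyClosed.isIntegral_iff.1 h7
  have h10 : (m : ℤ) = p * z := by
    have hpQ : (p : ℚ) ≠ 0 := by exact_mod_cast hp'.ne_zero
    have h11 : (z : ℚ) = (m : ℚ) / p := by simpa using hz
    rw [eq_div_iff hpQ] at h11
    have h12 : (m : ℚ) = p * z := by linear_combination -h11
    exact_mod_cast h12
  exact Int.natCast_dvd_natCast.1 ⟨z, h10⟩

end Pool.Agent.Lib.MP_1aae89_al.W
end

section
/-!
# Module PFN: the indicator function of a fibre of the power map
-/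
set_option autoImplicit false

namespace Pool.Agent.Lib.MP_1aae89_al.W

open Pool.Agent.Lib.MP_1aae89_al Pool.Agent.Lib.MP_1aae89_al.BF Finset

theorem specPFN (hGCA2 : SpecGCA2) : SpecPFN := by
  classical
  intro P _ _ q hq z
  obtain ⟨-, -, hsmul, hcon, hsum, -, -, -⟩ := hGCA2
  by_cases hz : ∃ x, x ^ q = z
  · let f : P →* P := MonoidHom.mk' (fun x => x ^ q) fun x y => (hq x y).1
    let R : Subgroup P := f.range
    have hRc : ∀ a b : R, a * b = b * a := by
      rintro ⟨_, x, rfl⟩ ⟨b, hb⟩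
      exact Subtype.ext (hq x b).2
    let _ : CommGroup R := { (inferInstance : Group R) with mul_comm := hRc }
    have hmem : ∀ u : P, u ^ q ∈ R := fun u => ⟨u, rfl⟩
    have hzR : z ∈ R := by
      obtain ⟨x, rfl⟩ := hz
      exact hmem x
    have hcard : Nat.card {z : P // ∃ x, x ^ q = z} = Fintype.card (Additive R) := by
      rw [← Nat.card_eq_fintype_card]
      exact Nat.card_congr (Equiv.subtypeEquivRight fun z => Iff.rfl)
    have key : ∀ u : P, (if u ^ q = z then ((Nat.card {z : P // ∃ x, x ^ q = z} : ℕ) : ℂ) else 0) =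
        ∑ ψ : AddChar (Additive R) ℂ, ψ (Additive.ofMul (⟨z, hzR⟩⁻¹ : R)) *
          ψ (Additive.ofMul (⟨u ^ q, hmem u⟩ : R)) := by
      intro u
      have h1 : ∀ ψ : AddChar (Additive R) ℂ, ψ (Additive.ofMul (⟨z, hzR⟩⁻¹ : R)) *
          ψ (Additive.ofMul (⟨u ^ q, hmem u⟩ : R)) =
          ψ (Additive.ofMul ((⟨z, hzR⟩⁻¹ : R) * (⟨u ^ q, hmem u⟩ : R))) := by
        intro ψ
        rw [ofMul_mul, AddChar.map_add_eq_mul]
      rw [Finset.sum_congr rfl fun ψ _ => h1 ψ, AddChar.sum_apply_eq_ite, hcard]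
      refine if_congr ?_ rfl rfl
      rw [← ofMul_one, Additive.ofMul.injective.eq_iff, inv_mul_eq_one, Subtype.mk_eq_mk, eq_comm]
    have hfun : (fun u : P => (if u ^ q = z then
        ((Nat.card {z : P // ∃ x, x ^ q = z} : ℕ) : ℂ) else 0)) =
        fun u => ∑ ψ : AddChar (Additive R) ℂ, ψ (Additive.ofMul (⟨z, hzR⟩⁻¹ : R)) *
          ψ (Additive.ofMul (⟨u ^ q, hmem u⟩ : R)) := funext key
    rw [hfun]
    refine hsum univ (fun (ψ : AddChar (Additive R) ℂ) (u : P) => ψ (Additive.ofMul (⟨z, hzR⟩⁻¹ : R)) *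
          ψ (Additive.ofMul (⟨u ^ q, hmem u⟩ : R))) fun ψ _ => ?_
    refine hsmul _ _ ?_ ?_
    · have h1 : ψ (Additive.ofMul (⟨z, hzR⟩⁻¹ : R)) ^ Fintype.card R = 1 := by
        rw [← AddChar.map_nsmul_eq_pow, ← ofMul_pow, pow_card_eq_one, ofMul_one,
          AddChar.map_zero_eq_one]
      refine ⟨Polynomial.X ^ Fintype.card R - 1, Polynomial.monic_X_pow_sub_C 1
        Fintype.card_ne_zero, ?_⟩
      rw [Polynomial.eval₂_sub, Polynomial.eval₂_X_pow, Polynomial.eval₂_one, h1, sub_self]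
    · let g : P →* ℂ :=
        { toFun := fun u => ψ (Additive.ofMul (⟨u ^ q, hmem u⟩ : R))
          map_one' := by
            have h1 : (⟨(1 : P) ^ q, hmem 1⟩ : R) = 1 := Subtype.ext (one_pow q)
            rw [h1, ofMul_one, AddChar.map_zero_eq_one]
          map_mul' := by
            intro u v
            have h1 : (⟨(u * v) ^ q, hmem (u * v)⟩ : R) = ⟨u ^ q, hmem u⟩ * ⟨v ^ q, hmem v⟩ :=
              Subtype.ext (hq u v).1
            rw [h1, ofMul_mul, AddChar.map_add_eq_mul] }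
      have h2 := isCharacter_linear g.toHomUnits
      exact Submodule.subset_span h2
  · have hfun : (fun u : P => (if u ^ q = z then
        ((Nat.card {z : P // ∃ x, x ^ q = z} : ℕ) : ℂ) else 0)) = fun _ => 0 := by
      funext u
      rw [if_neg fun h => hz ⟨u, h⟩]
    rw [hfun]
    exact hcon 0 isIntegral_zero

end Pool.Agent.Lib.MP_1aae89_al.W
end

section
/-!
# Module SCA of Theorem W (MP_1aae89_al): the fixed space of `u ^ q` modulo `p`
-/
set_option autoImplicit false

namespace Pool.Agent.Lib.MP_1aae89_al.W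

open Pool.Agent.Lib.MP_1aae89_al Finset

namespace SCAM

/-- A weighted version of the fixed point congruence, for a map whose order is a power of `p`. -/
theorem sum_modEq_pow {X : Type} {p : ℕ} [hp : Fact p.Prime] (n : ℕ) (s : Finset X) (f : X → X)
    (hfs : ∀ x ∈ s, f x ∈ s) (hfp : ∀ x ∈ s, f^[p ^ n] x = x) (F : X → ℕ)
    (hF : ∀ x ∈ s, F (f x) = F x) [DecidablePred fun x => f x = x] :
    ∑ x ∈ s, F x ≡ ∑ x ∈ s.filter (fun x => f x = x), F x [MOD p] := by
  classical
  let T := s.sigma fun x => range (F x)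
  have hT : ∀ q : T, (⟨f q.1.1, q.1.2⟩ : Σ _ : X, ℕ) ∈ T := by
    rintro ⟨⟨x, i⟩, hq⟩
    rw [mem_sigma, mem_range] at hq
    rw [mem_sigma, mem_range]
    exact ⟨hfs x hq.1, by rw [hF x hq.1]; exact hq.2⟩
  let g : Function.End T := fun q => ⟨⟨f q.1.1, q.1.2⟩, hT q⟩
  have hg : ∀ (k : ℕ) (q : T), ((g ^ k) q).1 = ⟨f^[k] q.1.1, q.1.2⟩ := by
    intro k q
    induction k with
    | zero => rfl
    | succ k ih =>
      have h1 : (g ^ (k + 1)) q = g ((g ^ k) q) := by rw [pow_succ']; rfl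
      rw [h1, Function.iterate_succ_apply']
      show (⟨f ((g ^ k) q).1.1, ((g ^ k) q).1.2⟩ : Σ _ : X, ℕ) = _
      rw [ih]
  have hgp : g ^ p ^ n = 1 := by
    funext q
    apply Subtype.ext
    rw [hg]
    have h1 := (mem_sigma.1 q.2).1
    rw [hfp _ h1]
    rfl
  have h1 := Equiv.Perm.card_fixedPoints_modEq (p := p) (n := n) hgp
  have h2 : Fintype.card T = ∑ x ∈ s, F x := by
    rw [Fintype.card_coe, card_sigma]
    exact sum_congr rfl fun x _ => card_range _
  have h3 : Fintype.card (Function.fixedPoints g) = ∑ x ∈ s.filter (fun x => f x = x), F x := by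
    have h4 : ∑ x ∈ s.filter (fun x => f x = x), F x =
        #((s.filter (fun x => f x = x)).sigma fun x => range (F x)) := by
      rw [card_sigma]
      exact sum_congr rfl fun x _ => (card_range _).symm
    rw [h4, ← Fintype.card_coe]
    refine Fintype.card_congr ⟨fun q => ⟨q.1.1, ?_⟩, fun q => ⟨⟨q.1, ?_⟩, ?_⟩, ?_, ?_⟩
    · have h5 : g q.1 = q.1 := q.2
      have h6 := congrArg (fun r : T => r.1.1) h5
      have h7 := mem_sigma.1 q.1.2
      rw [mem_sigma, mem_filter]
      exact ⟨⟨h7.1, h6⟩, h7.2⟩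
    · have h7 := mem_sigma.1 q.2
      rw [mem_filter] at h7
      exact mem_sigma.2 ⟨h7.1.1, h7.2⟩
    · have h7 := mem_sigma.1 q.2
      rw [mem_filter] at h7
      show g _ = _
      apply Subtype.ext
      show (⟨f q.1.1, q.1.2⟩ : Σ _ : X, ℕ) = q.1
      rw [h7.1.2]
    · intro q; rfl
    · intro q; rfl
  rw [h2, h3] at h1
  exact h1

/-- The sum of the values of all linear characters. -/
theorem sum_lin {B : Type} [CommGroup B] [Fintype B] (x : B) :
    ∑ μ : Lin B, ((μ x : ℂˣ) : ℂ) = open Classical in if x = 1 then (Fintype.card B : ℂ) else 0 := by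
  classical
  split_ifs with hx
  · subst hx
    have h1 : ∀ μ : Lin B, ((μ 1 : ℂˣ) : ℂ) = 1 := fun μ => by rw [map_one, Units.val_one]
    rw [sum_congr rfl fun μ _ => h1 μ, sum_const, nsmul_eq_mul, mul_one]
    have h2 : Fintype.card (Lin B) = Fintype.card B := by
      rw [← Nat.card_eq_fintype_card, ← Nat.card_eq_fintype_card]
      exact CommGroup.card_monoidHom_of_hasEnoughRootsOfUnity B ℂ
    rw [card_univ, h2]
  · obtain ⟨φ, hφ⟩ : ∃ φ : Lin B, φ x ≠ 1 :=
      CommGroup.exists_apply_ne_one_of_hasEnoughRootsOfUnity B ℂ hx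
    have h1 : ∑ μ : Lin B, ((μ x : ℂˣ) : ℂ) =
        ∑ μ : Lin B, ((φ x : ℂˣ) : ℂ) * ((μ x : ℂˣ) : ℂ) := by
      refine (Fintype.sum_equiv (Equiv.mulLeft φ) _ _ fun μ => ?_).symm
      rw [Equiv.coe_mulLeft, Lin.mul_apply, Units.val_mul]
    rw [← mul_sum] at h1
    have h2 : (((φ x : ℂˣ) : ℂ) - 1) * ∑ μ : Lin B, ((μ x : ℂˣ) : ℂ) = 0 := by
      rw [sub_mul, one_mul, ← h1, sub_self]
    rcases mul_eq_zero.1 h2 with h3 | h3
    · exfalso
      apply hφ
      apply Units.ext
      rw [Units.val_one]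
      exact sub_eq_zero.1 h3
    · exact h3

/-- Fourier inversion. -/
theorem inversion {B : Type} [CommGroup B] [Fintype B] (F : B → ℂ)
    (hF : ∀ μ : Lin B, ∃ k : ℕ, (Fintype.card B : ℂ)⁻¹ * ∑ x, F x * (((μ x)⁻¹ : ℂˣ) : ℂ) = k)
    (x : B) : F x = ∑ μ : Lin B, ((mlt F μ : ℕ) : ℂ) * ((μ x : ℂˣ) : ℂ) := by
  classical
  have hm : ∀ μ : Lin B, ((mlt F μ : ℕ) : ℂ) =
      (Fintype.card B : ℂ)⁻¹ * ∑ y, F y * (((μ y)⁻¹ : ℂˣ) : ℂ) := by
    intro μ
    unfold mlt
    rw [dif_pos (hF μ)]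
    exact (hF μ).choose_spec.symm
  have hB : (Fintype.card B : ℂ) ≠ 0 := by
    exact_mod_cast Fintype.card_ne_zero
  have h1 : ∑ μ : Lin B, ((mlt F μ : ℕ) : ℂ) * ((μ x : ℂˣ) : ℂ) =
      (Fintype.card B : ℂ)⁻¹ * ∑ y, F y * ∑ μ : Lin B, ((μ (y⁻¹ * x) : ℂˣ) : ℂ) := by
    calc ∑ μ : Lin B, ((mlt F μ : ℕ) : ℂ) * ((μ x : ℂˣ) : ℂ)
        = ∑ μ : Lin B, (Fintype.card B : ℂ)⁻¹ * ∑ y, F y * ((μ (y⁻¹ * x) : ℂˣ) : ℂ) := by
          refine sum_congr rfl fun μ _ => ?_
          rw [hm μ, mul_assoc, sum_mul]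
          congr 1
          refine sum_congr rfl fun y _ => ?_
          rw [map_mul, map_inv, Units.val_mul, mul_assoc]
      _ = (Fintype.card B : ℂ)⁻¹ * ∑ μ : Lin B, ∑ y, F y * ((μ (y⁻¹ * x) : ℂˣ) : ℂ) := by
          rw [mul_sum]
      _ = (Fintype.card B : ℂ)⁻¹ * ∑ y, ∑ μ : Lin B, F y * ((μ (y⁻¹ * x) : ℂˣ) : ℂ) := by
          rw [sum_comm]
      _ = (Fintype.card B : ℂ)⁻¹ * ∑ y, F y * ∑ μ : Lin B, ((μ (y⁻¹ * x) : ℂˣ) : ℂ) := by
          congr 1
          exact sum_congr rfl fun y _ => (mul_sum _ _ _).symm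
  rw [h1]
  have h2 : ∀ y : B, F y * ∑ μ : Lin B, ((μ (y⁻¹ * x) : ℂˣ) : ℂ) =
      if y = x then F x * (Fintype.card B : ℂ) else 0 := by
    intro y
    rw [sum_lin]
    by_cases h : y = x
    · subst h
      rw [inv_mul_cancel, if_pos rfl, if_pos rfl]
    · rw [if_neg h, if_neg (fun h3 => h (inv_mul_eq_one.1 h3)), mul_zero]
  rw [sum_congr rfl fun y _ => h2 y, sum_ite_eq' univ x, if_pos (mem_univ x)]
  field_simp

/-- The mean value of the powers of a root of unity. -/
theorem mean_pow {T : ℕ} (hT : T ≠ 0) {w : ℂ} (hw : w ^ T = 1) :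
    (T : ℂ)⁻¹ * ∑ i ∈ range T, w ^ i = open Classical in if w = 1 then 1 else 0 := by
  classical
  have hT' : (T : ℂ) ≠ 0 := by exact_mod_cast hT
  split_ifs with h
  · subst h
    simp [hT']
  · rw [geom_sum_eq h, hw, sub_self, zero_div, mul_zero]

end SCAM

open SCAM

/-- SCA. -/
theorem specSCA : SpecSCA := by
  intro p hp B _ _ e c T hB hc hT u hu hzT F hF hgal
  classical
  haveI : Fact p.Prime := ⟨hp⟩
  set q := p ^ (c - 1) with hq
  set z := u ^ q with hz
  have hpq : p ∣ q := dvd_pow_self p (by omega)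
  have hcard : Nat.card B = p ^ e := by rw [Nat.card_eq_fintype_card, hB]
  -- orders of the linear characters
  have hpe : ∀ μ : Lin B, μ ^ (p ^ e) = 1 := by
    intro μ
    apply Lin.ext
    intro x
    rw [Lin.pow_apply, ← map_pow, ← hcard, pow_card_eq_one', map_one, Lin.one_apply]
  -- the two dimensions
  have hd : (T : ℂ)⁻¹ * ∑ i ∈ range T, F (z ^ i) =
      ((∑ μ ∈ univ.filter (fun μ : Lin B => μ z = 1), mlt F μ : ℕ) : ℂ) := by
    have h1 : ∀ i, F (z ^ i) = ∑ μ : Lin B, ((mlt F μ : ℕ) : ℂ) * ((μ z : ℂˣ) : ℂ) ^ i := by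
      intro i
      rw [inversion F hF (z ^ i)]
      refine sum_congr rfl fun μ _ => ?_
      rw [map_pow, Units.val_pow_eq_pow_val]
    rw [sum_congr rfl fun i _ => h1 i, sum_comm, mul_sum, Nat.cast_sum, sum_filter]
    refine sum_congr rfl fun μ _ => ?_
    have h2 : ((μ z : ℂˣ) : ℂ) ^ T = 1 := by
      rw [← Units.val_pow_eq_pow_val, ← map_pow, hzT, map_one, Units.val_one]
    rw [← mul_sum, mul_left_comm, mean_pow hT h2]
    by_cases h3 : μ z = 1
    · rw [if_pos h3, if_pos (by rw [h3, Units.val_one]), mul_one]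
    · rw [if_neg h3, if_neg (fun h4 => h3 (Units.ext (by rw [Units.val_one]; exact h4))), mul_zero]
  have hn : F 1 = ((∑ μ : Lin B, mlt F μ : ℕ) : ℂ) := by
    rw [inversion F hF 1, Nat.cast_sum]
    refine sum_congr rfl fun μ _ => ?_
    rw [map_one, Units.val_one, mul_one]
  refine ⟨_, _, hd, hn, ?_⟩
  -- the permutation
  have hiter : ∀ (j : ℕ) (μ : Lin B), (fun μ : Lin B => μ ^ (1 + q))^[j] μ = μ ^ ((1 + q) ^ j) := by
    intro j μ
    induction j with
    | zero => simp
    | succ j ih =>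
      rw [Function.iterate_succ_apply', ih, ← pow_mul, ← pow_succ]
  have hpow1 : ∀ μ : Lin B, μ ^ ((1 + q) ^ (p ^ e)) = μ := by
    intro μ
    have h1 : (1 + q) ^ (p ^ e) ≡ 1 [MOD p ^ e] := by
      have h2 : ((p : ℤ)) ∣ ((1 + q : ℕ) : ℤ) - 1 := by
        obtain ⟨m, hm⟩ := hpq
        exact ⟨m, by rw [hm]; push_cast; ring⟩
      have h3 := dvd_sub_pow_of_dvd_sub h2 e
      have h4 : ((p ^ e : ℕ) : ℤ) ∣ (((1 + q) ^ (p ^ e) : ℕ) : ℤ) - ((1 : ℕ) : ℤ) := by
        refine (dvd_trans ?_ h3).trans (dvd_of_eq ?_)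
        · push_cast
          exact pow_dvd_pow _ (by omega)
        · push_cast
          rw [one_pow]
      exact ((Nat.modEq_iff_dvd).2 h4).symm
    have h5 : 1 ≤ (1 + q) ^ (p ^ e) := Nat.one_le_pow _ _ (by omega)
    obtain ⟨m, hm⟩ := (Nat.modEq_iff_dvd' h5).1 h1.symm
    have h6 : (1 + q) ^ (p ^ e) = 1 + p ^ e * m := by omega
    rw [h6, pow_add, pow_one, pow_mul, hpe, one_pow, mul_one]
  have hcop : (Nat.card B).Coprime (1 + q) := coprime_one_add hp hc hcard
  have hone : ∀ μ : Lin B, (μ ^ (1 + q)) z = 1 → μ z = 1 := by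
    intro μ h
    have h1 := congrArg (fun w : ℂˣ => w ^ ((1 + q) ^ (p ^ e - 1))) h
    simp only [one_pow] at h1
    rw [← Lin.pow_apply, ← pow_mul, ← pow_succ', Nat.sub_add_cancel (pow_pos hp.pos e), hpow1] at h1
    exact h1
  have hmod := sum_modEq_pow (p := p) e (univ.filter (fun μ : Lin B => μ z ≠ 1))
    (fun μ : Lin B => μ ^ (1 + q)) ?_ ?_ (mlt F) ?_
  · have hempty : ((univ.filter (fun μ : Lin B => μ z ≠ 1)).filter
        (fun μ : Lin B => μ ^ (1 + q) = μ)) = ∅ := by
      apply filter_false_of_mem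
      intro μ hμ h
      rw [mem_filter] at hμ
      apply hμ.2
      have h1 : μ ^ q = 1 := by
        rw [pow_add, pow_one] at h
        exact mul_eq_left.1 h
      rw [hz, map_pow, ← Lin.pow_apply, h1, Lin.one_apply]
    rw [hempty, sum_empty] at hmod
    have hsplit : ∑ μ : Lin B, mlt F μ = ∑ μ ∈ univ.filter (fun μ : Lin B => μ z = 1), mlt F μ +
        ∑ μ ∈ univ.filter (fun μ : Lin B => μ z ≠ 1), mlt F μ :=
      (sum_filter_add_sum_filter_not univ (fun μ : Lin B => μ z = 1) (mlt F)).symm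
    rw [hsplit]
    have h7 := Nat.ModEq.add_left (∑ μ ∈ univ.filter (fun μ : Lin B => μ z = 1), mlt F μ) hmod
    rw [add_zero] at h7
    exact h7.symm
  · intro μ hμ
    rw [mem_filter] at hμ ⊢
    exact ⟨mem_univ _, fun h => hμ.2 (hone μ h)⟩
  · intro μ _
    rw [hiter, hpow1]
  · intro μ _
    exact mlt_pow hcop hgal μ

end Pool.Agent.Lib.MP_1aae89_al.W
end
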