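import Pool.Agent.Lib.MP_1aae89_al.W.Spec
import Pool.Agent.Lib.MP_1aae89_al.W.SCA

section
/-!
# SCB: the fixed space of a central `p`-th power in an induced representation
-/
set_option autoImplicit false

namespace Pool.Agent.Lib.MP_1aae89_al.W.SCB

open Pool.Agent.Lib.MP_1aae89_al Finset

section cyc

variable {G : Type} [Group G] [Finite G]

omit [Finite G] in
theorem sum_rep (f : G → ℂ) (z : G) (c : ℕ) :
    ∑ i ∈ range (orderOf z * c), f (z ^ i) = c * ∑ i ∈ range (orderOf z), f (z ^ i) := by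
  induction c with
  | zero => simp
  | succ c ih =>
    rw [Nat.mul_succ, sum_range_add, ih]
    have h1 : ∀ i ∈ range (orderOf z), f (z ^ (orderOf z * c + i)) = f (z ^ i) := fun i _ => by
      rw [pow_add, pow_mul, pow_orderOf_eq_one, one_pow, one_mul]
    rw [sum_congr rfl h1]
    push_cast
    ring

theorem sum_zp (f : G → ℂ) (z : G) [Fintype (Subgroup.zpowers z)] :
    ∑ i ∈ range (orderOf z), f (z ^ i) = ∑ r : Subgroup.zpowers z, f r := by
  rw [Finset.sum_range]
  refine Fintype.sum_equiv (finEquivZPowers (isOfFinOrder_of_finite z)) _ _ fun i => ?_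
  rw [finEquivZPowers_apply]

theorem cyc_avg (f : G → ℂ) (z : G) [Fintype (Subgroup.zpowers z)] (T : ℕ) (hT : T ≠ 0)
    (hz : z ^ T = 1) : (T : ℂ)⁻¹ * ∑ i ∈ range T, f (z ^ i) =
      (Nat.card (Subgroup.zpowers z) : ℂ)⁻¹ * ∑ r : Subgroup.zpowers z, f r := by
  obtain ⟨c, hc⟩ := orderOf_dvd_of_pow_eq_one hz
  subst hc
  rw [sum_rep, sum_zp, Nat.card_zpowers]
  have h0 : orderOf z ≠ 0 := fun h => hT (by rw [h, zero_mul])
  have h1 : c ≠ 0 := fun h => hT (by rw [h, mul_zero])
  have h2 : (orderOf z : ℂ) ≠ 0 := by exact_mod_cast h0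
  have h3 : (c : ℂ) ≠ 0 := by exact_mod_cast h1
  push_cast
  field_simp

end cyc

/-- product formula for orders -/
theorem card_sup {Q : Type} [Group Q] [Finite Q] (H K : Subgroup Q) [K.Normal] :
    Nat.card (H ⊔ K : Subgroup Q) * Nat.card (H ⊓ K : Subgroup Q) = Nat.card H * Nat.card K := by
  have h1 : K.relIndex (H ⊔ K) = K.relIndex H := Subgroup.relIndex_sup_right H K
  have h2 : Nat.card K * K.relIndex (H ⊔ K) = Nat.card (H ⊔ K : Subgroup Q) := by
    have h := (K.subgroupOf (H ⊔ K)).card_mul_index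
    rwa [Nat.card_congr (Subgroup.subgroupOfEquivOfLe le_sup_right).toEquiv] at h
  have h3 : Nat.card (H ⊓ K : Subgroup Q) * K.relIndex H = Nat.card H := by
    have h := (K.subgroupOf H).card_mul_index
    rw [← Subgroup.inf_subgroupOf_left, Nat.card_congr
      (Subgroup.subgroupOfEquivOfLe inf_le_left).toEquiv, Subgroup.inf_subgroupOf_left] at h
    exact h
  rw [← h2, h1, ← h3]
  ring

/-- central `p`-th powers are in the Frattini subgroup of a `p`-group -/
theorem frat {Q : Type} [Group Q] [Finite Q] {p N : ℕ} (hp : p.Prime) (hQ : Nat.card Q = p ^ N)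
    (H : Subgroup Q) (v : Q) (hz : ∀ y, v ^ p * y = y * v ^ p)
    (h : H ⊔ Subgroup.zpowers (v ^ p) = ⊤) : H = ⊤ := by
  set z := v ^ p with hzd
  have hN : (Subgroup.zpowers z).Normal := by
    refine ⟨fun n hn g => ?_⟩
    obtain ⟨k, rfl⟩ := Subgroup.mem_zpowers_iff.1 hn
    have h1 : Commute z g := hz g
    have h2 : g * z ^ k = z ^ k * g := ((h1.zpow_left k).eq).symm
    rw [h2, mul_inv_cancel_right]
    exact hn
  have hv : v ∈ H ⊔ Subgroup.zpowers z := by rw [h]; exact Subgroup.mem_top v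
  obtain ⟨a, ha, b, hb, hab⟩ := Subgroup.mem_sup_of_normal_right.1 hv
  obtain ⟨k, rfl⟩ := Subgroup.mem_zpowers_iff.1 hb
  have hc : Commute a (z ^ k) := ((show Commute z a from hz a).zpow_left k).symm
  have h3 : z = a ^ p * (z ^ k) ^ p := by rw [← hc.mul_pow, hab]
  have h4 : z ^ (1 - k * p) = a ^ p := by
    rw [zpow_sub, zpow_one, zpow_mul, zpow_natCast]
    exact mul_inv_eq_of_eq_mul h3
  have h5 : z ^ (1 - k * (p : ℤ)) ∈ H := by rw [h4]; exact H.pow_mem ha p
  have h6 : z ^ (p ^ N) = 1 := by rw [← hQ]; exact pow_card_eq_one'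
  have h7 : IsCoprime (1 - k * (p : ℤ)) ((p ^ N : ℕ) : ℤ) := by
    push_cast
    refine IsCoprime.pow_right ⟨1, k, by ring⟩
  obtain ⟨α, β, hαβ⟩ := h7
  have h8 : z = (z ^ (1 - k * (p : ℤ))) ^ α := by
    rw [← zpow_mul]
    conv_lhs => rw [← zpow_one z, ← hαβ]
    rw [zpow_add, mul_comm β, zpow_mul z ((p ^ N : ℕ) : ℤ) β, zpow_natCast z (p ^ N), h6, one_zpow,
      mul_one, mul_comm]
  have h9 : z ∈ H := by rw [h8]; exact H.zpow_mem h5 α
  rw [← h, sup_eq_left.2]
  rwa [Subgroup.zpowers_le]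

section

variable {G : Type} [Group G] (M : Subgroup G)

theorem sg_one_mul [Fintype G] (Z : Subgroup G) (ψ : M → ℂ) (μ : Lin Z) (a g : G)
    (ha : ∀ r ∈ Z, a⁻¹ * r * a = r) : sg Z M ψ (a * g) μ = sg Z M ψ g μ := by
  classical
  unfold sg
  refine sum_congr rfl fun r _ => ?_
  have h1 : (a * g)⁻¹ * (r : G) * (a * g) = g⁻¹ * r * g := by
    have h2 : (a * g)⁻¹ * (r : G) * (a * g) = g⁻¹ * (a⁻¹ * r * a) * g := by group
    rw [h2, ha _ r.2]
  have key : ∀ w w' : G, w = w' → ∀ c : ℂ, (if h : w ∈ M then ψ ⟨w, h⟩ * c else 0) =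
      if h : w' ∈ M then ψ ⟨w', h⟩ * c else 0 := by
    rintro w _ rfl c; rfl
  exact key _ _ h1 _

theorem card_one_mul (Z : Subgroup G) (a g : G) (ha : ∀ r ∈ Z, a⁻¹ * r * a = r) :
    Nat.card (Pg Z M (a * g)) = Nat.card (Pg Z M g) := by
  refine Nat.card_congr ((Equiv.refl Z).subtypeEquiv fun r => ?_)
  rw [mem_Pg, mem_Pg]
  have h2 : (a * g)⁻¹ * (r : G) * (a * g) = g⁻¹ * (a⁻¹ * r * a) * g := by group
  rw [h2, ha _ r.2]
  rfl

end

theorem specSCB : SpecSCB := by
  intro p hp G _ _ M P N hP u hu q T hq hT hzT hz ψ hψ d hd hpd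
  classical
  set z := u ^ q with hzd
  have hzP : z ∈ P := P.pow_mem hu q
  set Z := Subgroup.zpowers z with hZ
  have hZP : Z ≤ P := by rw [hZ, Subgroup.zpowers_le]; exact hzP
  have hcomm : ∀ a ∈ P, ∀ r ∈ Z, a⁻¹ * r * a = r := by
    intro a ha r hr
    obtain ⟨k, rfl⟩ := Subgroup.mem_zpowers_iff.1 hr
    have h1 : Commute (z ^ k) a := (show Commute z a from hz a ha).zpow_left k
    rw [mul_assoc, h1.eq, inv_mul_cancel_left]
  -- the numbers
  let δ : G → ℕ := fun x => Tg Z M ψ x 1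
  let K : Subgroup P := Z.subgroupOf P
  have hK : K.Normal := by
    refine ⟨fun n hn g => ?_⟩
    rw [Subgroup.mem_subgroupOf] at hn ⊢
    have h1 := hcomm (g : G)⁻¹ (P.inv_mem g.2) _ hn
    rw [inv_inv] at h1
    push_cast
    rw [h1]
    exact hn
  have hcK : Nat.card K = Nat.card Z := Nat.card_congr (Subgroup.subgroupOfEquivOfLe hZP).toEquiv
  let I : G → ℕ := fun x => (Pg P M x ⊔ K).index
  have hinf : ∀ x, Nat.card (Pg P M x ⊓ K : Subgroup P) = Nat.card (Pg Z M x) := by
    intro x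
    refine Nat.card_congr ⟨fun y => ⟨⟨(y : P), ?_⟩, ?_⟩, fun r => ⟨⟨(r : Z), ?_⟩, ?_, ?_⟩, ?_, ?_⟩
    · exact (Subgroup.mem_subgroupOf.1 (Subgroup.mem_inf.1 y.2).2)
    · rw [mem_Pg]; exact (mem_Pg P M).1 (Subgroup.mem_inf.1 y.2).1
    · exact hZP (r : Z).2
    · show _ ∈ Pg P M x
      rw [mem_Pg]; exact (mem_Pg Z M).1 r.2
    · show _ ∈ K
      rw [Subgroup.mem_subgroupOf]; exact (r : Z).2
    · intro y; rfl
    · intro r; rfl
  have hI : ∀ x, Nat.card P * Nat.card (Pg Z M x) =
      I x * (Nat.card (Pg P M x) * Nat.card Z) := by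
    intro x
    have h1 := card_sup (Pg P M x) K
    have h2 := (Pg P M x ⊔ K).card_mul_index
    rw [← h2, ← hinf x, ← hcK, ← h1]
    ring
  have hZ0 : Nat.card Z ≠ 0 := Nat.card_pos.ne'
  have hIinv : ∀ (a : P) (m : M) (x : G), I ((a : G) * x * (m : G)⁻¹) = I x := by
    intro a m x
    have h1 := hI ((a : G) * x * (m : G)⁻¹)
    have h2 := hI x
    rw [card_Pg_inv P M a m x] at h1
    have h3 : Nat.card (Pg Z M ((a : G) * x * (m : G)⁻¹)) = Nat.card (Pg Z M x) := by
      rw [mul_assoc, card_one_mul M Z _ _ (hcomm a a.2)]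
      have h4 := card_Pg_inv Z M 1 m x
      rwa [Subgroup.coe_one, one_mul] at h4
    rw [h3, h2] at h1
    have h5 : 0 < Nat.card (Pg P M x) * Nat.card Z :=
      Nat.mul_pos Nat.card_pos Nat.card_pos
    exact (Nat.eq_of_mul_eq_mul_right h5 h1).symm
  have hδinv : ∀ (a : P) (m : M) (x : G), δ ((a : G) * x * (m : G)⁻¹) = δ x := by
    intro a m x
    refine Tg_congr Z M ψ ?_ ?_
    · rw [mul_assoc, sg_one_mul M Z ψ _ _ _ (hcomm a a.2)]
      have h4 := sg_inv Z M hψ 1 m x 1
      rwa [Subgroup.coe_one, one_mul] at h4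
    · rw [mul_assoc, card_one_mul M Z _ _ (hcomm a a.2)]
      have h4 := card_Pg_inv Z M 1 m x
      rwa [Subgroup.coe_one, one_mul] at h4
  -- the main formula
  have hmain : Nat.card P * Nat.card M * d = ∑ x : G, Nat.card (Pg P M x) * (I x * δ x) := by
    have h1 := sum_ind Z M hψ 1
    have h2 := cyc_avg (ind M ψ) z T hT hzT
    rw [hd] at h2
    have h3 : (Nat.card Z : ℂ) ≠ 0 := by exact_mod_cast hZ0
    have h4 : ∑ r : Z, ind M ψ r = Nat.card Z * d := by
      rw [h2, ← mul_assoc, mul_inv_cancel₀ h3, one_mul]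
    simp only [Lin.one_apply, inv_one, Units.val_one, mul_one] at h1
    rw [h4] at h1
    have h5 : Nat.card M * (Nat.card Z * d) = ∑ x : G, Nat.card (Pg Z M x) * δ x := by
      exact_mod_cast h1
    apply Nat.eq_of_mul_eq_mul_left (Nat.pos_of_ne_zero hZ0)
    calc Nat.card Z * (Nat.card P * Nat.card M * d)
        = Nat.card P * (Nat.card M * (Nat.card Z * d)) := by ring
      _ = ∑ x : G, Nat.card P * (Nat.card (Pg Z M x) * δ x) := by rw [h5, mul_sum]
      _ = ∑ x : G, Nat.card Z * (Nat.card (Pg P M x) * (I x * δ x)) := by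
          refine sum_congr rfl fun x _ => ?_
          rw [← mul_assoc, hI x]
          ring
      _ = _ := by rw [← mul_sum]
  -- divisibility
  have hex : ∃ x, Pg P M x = ⊤ ∧ ¬ p ∣ δ x := by
    by_contra hcon
    push Not at hcon
    have hF : ∀ x, p ∣ I x * δ x := by
      intro x
      by_cases hx : Pg P M x = ⊤
      · exact (hcon x hx).mul_left _
      · refine Dvd.dvd.mul_right ?_ _
        have h1 : I x ∣ p ^ N := by rw [← hP]; exact Subgroup.index_dvd_card _
        obtain ⟨k, -, hk⟩ := (Nat.dvd_prime_pow hp).1 h1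
        rcases Nat.eq_zero_or_pos k with h0 | h0
        · exfalso
          rw [h0, pow_zero] at hk
          have h2 : Pg P M x ⊔ K = ⊤ := Subgroup.index_eq_one.1 hk
          obtain ⟨q', rfl⟩ := hq
          apply hx
          let v : P := ⟨u ^ q', P.pow_mem hu q'⟩
          have h3 : ((v ^ p : P) : G) = z := by
            rw [Subgroup.coe_pow, hzd, mul_comm p q', pow_mul]
          have h4 : K = Subgroup.zpowers (v ^ p) := by
            ext y
            rw [Subgroup.mem_subgroupOf, hZ, Subgroup.mem_zpowers_iff, Subgroup.mem_zpowers_iff]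
            constructor
            · rintro ⟨k, hk⟩
              exact ⟨k, Subtype.ext (by rw [Subgroup.coe_zpow, h3, hk])⟩
            · rintro ⟨k, hk⟩
              exact ⟨k, by rw [← hk, Subgroup.coe_zpow, h3]⟩
          refine frat hp hP (Pg P M x) v (fun y => ?_) (by rw [← h4]; exact h2)
          apply Subtype.ext
          rw [Subgroup.coe_mul, Subgroup.coe_mul, h3]
          exact hz y y.2
        · rw [hk]; exact dvd_pow_self p h0.ne'
    choose F hFF using hF
    let _ := dcAct P M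
    have h2 := orb (Γ := P × M) (X := G) (fun g => (F g : ℤ)) fun γ g => by
      have h3 : I ((γ.1 : G) * g * (γ.2 : G)⁻¹) * δ ((γ.1 : G) * g * (γ.2 : G)⁻¹) = I g * δ g := by
        rw [hIinv, hδinv]
      have h4 : F ((γ.1 : G) * g * (γ.2 : G)⁻¹) = F g := by
        rw [hFF, hFF g] at h3
        exact Nat.eq_of_mul_eq_mul_left hp.pos h3
      have h5 : F (γ • g) = F g := h4
      exact_mod_cast h5
    rw [Nat.card_prod] at h2
    simp only [card_stab] at h2
    have h3 : (Nat.card P * Nat.card M) ∣ ∑ g : G, Nat.card (Pg P M g) * F g := by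
      exact_mod_cast h2
    obtain ⟨k, hk⟩ := h3
    apply hpd
    refine ⟨k, ?_⟩
    have h4 : ∑ x : G, Nat.card (Pg P M x) * (I x * δ x) =
        p * ∑ g : G, Nat.card (Pg P M g) * F g := by
      rw [mul_sum]
      refine sum_congr rfl fun x _ => ?_
      rw [hFF]
      ring
    rw [h4, hk] at hmain
    have h5 : 0 < Nat.card P * Nat.card M := Nat.mul_pos Nat.card_pos Nat.card_pos
    apply Nat.eq_of_mul_eq_mul_left h5
    rw [hmain]
    ring
  obtain ⟨x, hx, hpx⟩ := hex
  have hmem : ∀ y ∈ P, x⁻¹ * y * x ∈ M := by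
    intro y hy
    have h1 : (⟨y, hy⟩ : P) ∈ Pg P M x := by rw [hx]; exact Subgroup.mem_top _
    exact (mem_Pg P M).1 h1
  refine ⟨x, hmem, hmem z hzP, δ x, ?_, hpx⟩
  have htop : Pg Z M x = ⊤ := by
    rw [eq_top_iff]
    intro r _
    rw [mem_Pg]
    exact hmem r (hZP r.2)
  have h1 := Tg_spec Z M hψ x 1
  rw [htop, Subgroup.card_top] at h1
  have h3 : (Nat.card Z : ℂ) ≠ 0 := by exact_mod_cast hZ0
  let f : G → ℂ := fun r => if h : x⁻¹ * r * x ∈ M then ψ ⟨x⁻¹ * r * x, h⟩ else 0
  have h2 := cyc_avg f z T hT hzT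
  have h4 : ∑ r : Z, f r = sg Z M ψ x 1 := by
    unfold sg
    refine sum_congr rfl fun r _ => ?_
    simp only [f, Lin.one_apply, inv_one, Units.val_one, mul_one]
  rw [h4, h1, ← mul_assoc, inv_mul_cancel₀ h3, one_mul] at h2
  show (T : ℂ)⁻¹ * ∑ i ∈ range T, ψ (1 * _ ^ i) = _
  rw [← h2]
  congr 1
  refine sum_congr rfl fun i _ => ?_
  have h5 : x⁻¹ * z ^ i * x ∈ M := hmem _ (P.pow_mem hzP i)
  simp only [f]
  rw [dif_pos h5]
  congr 1
  apply Subtype.ext
  rw [one_mul, Subgroup.coe_pow]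
  show (x⁻¹ * z * x) ^ i = x⁻¹ * z ^ i * x
  have h6 := conj_pow (a := x⁻¹) (b := z) (i := i)
  rw [inv_inv] at h6
  exact h6

end Pool.Agent.Lib.MP_1aae89_al.W.SCB
end

section
set_option autoImplicit false

namespace Pool.Agent.Lib.MP_1aae89_al.W

open Pool.Agent.Lib.MP_1aae89_al Finset

namespace UPB

open Classical in
/-- the number of elements which conjugate `z` to `w` is at most the order of the centralizer -/
theorem card_conj_le {M : Type} [Group M] [Fintype M] (z w : M) :
    (univ.filter (fun g : M => g * z * g⁻¹ = w)).card ≤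
      Nat.card (Subgroup.centralizer ({z} : Set M)) := by
  by_cases h : ∃ g0 : M, g0 * z * g0⁻¹ = w
  · obtain ⟨g0, hg0⟩ := h
    have hmem : ∀ g : M, g * z * g⁻¹ = w → g0⁻¹ * g ∈ Subgroup.centralizer ({z} : Set M) := by
      intro g hg
      rw [Subgroup.mem_centralizer_singleton_iff]
      have h1 : g * z = w * g := by rw [← hg]; group
      have h2 : g0 * z = w * g0 := by rw [← hg0]; group
      have h3 : z * g0⁻¹ = g0⁻¹ * w := by
        have : g0⁻¹ * (g0 * z) * g0⁻¹ = g0⁻¹ * (w * g0) * g0⁻¹ := by rw [h2]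
        simpa [mul_assoc] using this
      calc g0⁻¹ * g * z = g0⁻¹ * (g * z) := by group
        _ = g0⁻¹ * (w * g) := by rw [h1]
        _ = (g0⁻¹ * w) * g := by group
        _ = (z * g0⁻¹) * g := by rw [h3]
        _ = z * (g0⁻¹ * g) := by group
    rw [Nat.card_eq_fintype_card, ← Fintype.card_coe]
    refine Fintype.card_le_of_injective
      (fun g : {g // g ∈ univ.filter (fun g : M => g * z * g⁻¹ = w)} =>
        (⟨g0⁻¹ * g.1, hmem g.1 (Finset.mem_filter.mp g.2).2⟩ :
          Subgroup.centralizer ({z} : Set M))) ?_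
    intro a b hab
    have := congrArg Subtype.val hab
    exact Subtype.ext (mul_left_cancel this)
  · rw [Finset.filter_eq_empty_iff.mpr (fun g _ hg => h ⟨g, hg⟩)]
    simp

theorem av_conj {M : Type} [Group M] [Fintype M] (T e : ℕ) {ψ : M → ℂ} (hψ : IsCharacter ψ)
    (g y : M) : av T e ψ (g * y * g⁻¹) = av T e ψ y := by
  unfold av
  congr 1
  refine Finset.sum_congr rfl fun t _ => ?_
  rw [conj_pow]
  simpa using hψ.conj g⁻¹ (y ^ (1 + e * t))

theorem av_eq_fx {M : Type} [Group M] (T e : ℕ) (ψ : M → ℂ) (z y : M) (h : y ^ e = z) :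
    av T e ψ y = fx T z ψ y := by
  unfold av fx
  congr 1
  refine Finset.sum_congr rfl fun t _ => ?_
  rw [pow_add, pow_one, pow_mul, h]

end UPB

open Classical in
theorem specUPB (hARE : SpecARE) : SpecUPB := by
  intro M _ _ R e T hT ψ hψ A hA hconj
  set f : M → ℝ := fun y => ‖av T e ψ y‖ ^ 2 with hf
  have hf0 : ∀ y, 0 ≤ f y := fun y => by positivity
  have hfc : ∀ g y, f (g * y * g⁻¹) = f y := fun g y => by
    simp only [hf, UPB.av_conj T e hψ g y]
  set C : M → ℝ := fun z => (Nat.card (Subgroup.centralizer ({z} : Set M)) : ℝ) with hC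
  have hCpos : ∀ z, 0 < C z := fun z => by
    simp only [hC]
    exact_mod_cast Nat.card_pos
  have hMpos : (0 : ℝ) < (Fintype.card M : ℝ) := by exact_mod_cast Fintype.card_pos
  set S : M → ℝ := fun z => ∑ y : M, if y ^ e = z then f y else 0 with hS
  -- the value of `AA`
  have hAA : ∀ z ∈ A, (AA R e T ψ z).re = (R : ℝ) / C z * S z := by
    intro z hz
    rw [hARE R e T hT ψ hψ z (hA z hz), Complex.ofReal_re]
    congr 1
    refine Finset.sum_congr rfl fun y _ => ?_
    by_cases hy : y ^ e = z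
    · simp only [hy, if_true, hf]
      rw [UPB.av_eq_fx T e ψ z y hy]
    · simp only [hy, if_false]
  -- the sum over the conjugates
  have hconjS : ∀ z g, (∑ y : M, if y ^ e = g * z * g⁻¹ then f y else 0) = S z := by
    intro z g
    simp only [hS]
    refine (Fintype.sum_equiv (MulAut.conj g).toEquiv _ _ ?_).symm
    intro y
    have h1 : (MulAut.conj g).toEquiv y = g * y * g⁻¹ := rfl
    rw [h1, hfc g y, conj_pow]
    by_cases hy : y ^ e = z
    · simp [hy]
    · rw [if_neg hy, if_neg]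
      intro h
      exact hy (mul_left_cancel (mul_right_cancel h))
  have hMS : ∀ z, (Fintype.card M : ℝ) * S z =
      ∑ y : M, f y * ((univ.filter (fun g : M => g * z * g⁻¹ = y ^ e)).card : ℝ) := by
    intro z
    have h1 : (Fintype.card M : ℝ) * S z = ∑ g : M, ∑ y : M, if y ^ e = g * z * g⁻¹ then f y else 0 := by
      simp_rw [hconjS z]
      simp
    rw [h1, Finset.sum_comm]
    refine Finset.sum_congr rfl fun y _ => ?_
    rw [Finset.card_filter]
    push_cast
    rw [Finset.mul_sum]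
    refine Finset.sum_congr rfl fun g _ => ?_
    by_cases hg : g * z * g⁻¹ = y ^ e
    · simp [hg]
    · rw [if_neg (fun h => hg h.symm), if_neg hg, mul_zero]
  -- for each `w` the weights sum up to at most one
  have hw : ∀ w : M, ∑ z ∈ A, ((univ.filter (fun g : M => g * z * g⁻¹ = w)).card : ℝ) / C z ≤ 1 := by
    intro w
    by_cases hex : ∃ z ∈ A, ∃ g, g * z * g⁻¹ = w
    · obtain ⟨z0, hz0, g0, hg0⟩ := hex
      rw [Finset.sum_eq_single_of_mem z0 hz0]
      · rw [div_le_one (hCpos z0)]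
        simp only [hC]
        exact_mod_cast UPB.card_conj_le z0 w
      · intro z hz hne
        have : (univ.filter (fun g : M => g * z * g⁻¹ = w)) = ∅ := by
          refine Finset.filter_eq_empty_iff.mpr fun g _ hg => hne ?_
          refine (hconj z hz z0 hz0 ⟨g0⁻¹ * g, ?_⟩)
          have : g0⁻¹ * g * z * (g0⁻¹ * g)⁻¹ = g0⁻¹ * (g * z * g⁻¹) * g0 := by group
          rw [this, hg, ← hg0]
          group
        rw [this]; simp
    · push Not at hex
      rw [Finset.sum_eq_zero]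
      · norm_num
      · intro z hz
        have : (univ.filter (fun g : M => g * z * g⁻¹ = w)) = ∅ :=
          Finset.filter_eq_empty_iff.mpr fun g _ hg => hex z hz g hg
        rw [this]; simp
  have key : (Fintype.card M : ℝ) * ∑ z ∈ A, S z / C z ≤ ∑ y, f y := by
    calc (Fintype.card M : ℝ) * ∑ z ∈ A, S z / C z
        = ∑ z ∈ A, ((Fintype.card M : ℝ) * S z) / C z := by
          rw [Finset.mul_sum]
          exact Finset.sum_congr rfl fun z _ => by ring
      _ = ∑ z ∈ A, ∑ y : M, f y *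
            (((univ.filter (fun g : M => g * z * g⁻¹ = y ^ e)).card : ℝ) / C z) := by
          refine Finset.sum_congr rfl fun z _ => ?_
          rw [hMS z, Finset.sum_div]
          exact Finset.sum_congr rfl fun y _ => by ring
      _ = ∑ y : M, f y * ∑ z ∈ A,
            (((univ.filter (fun g : M => g * z * g⁻¹ = y ^ e)).card : ℝ) / C z) := by
          rw [Finset.sum_comm]
          exact Finset.sum_congr rfl fun y _ => by rw [Finset.mul_sum]
      _ ≤ ∑ y : M, f y * 1 :=
          Finset.sum_le_sum fun y _ => mul_le_mul_of_nonneg_left (hw (y ^ e)) (hf0 y)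
      _ = ∑ y, f y := by simp
  calc ∑ z ∈ A, (AA R e T ψ z).re = ∑ z ∈ A, (R : ℝ) / C z * S z :=
        Finset.sum_congr rfl hAA
    _ = (R : ℝ) / (Fintype.card M : ℝ) * ((Fintype.card M : ℝ) * ∑ z ∈ A, S z / C z) := by
        rw [Finset.mul_sum, Finset.mul_sum]
        refine Finset.sum_congr rfl fun z _ => ?_
        field_simp
    _ ≤ (R : ℝ) / (Fintype.card M : ℝ) * ∑ y, f y :=
        mul_le_mul_of_nonneg_left key (by positivity)

end Pool.Agent.Lib.MP_1aae89_al.W
end

section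
/-!
# The final theorem without hypotheses
-/
set_option autoImplicit false

namespace Pool.Agent.Lib.MP_1aae89_al.W

open Pool.Agent.Lib.MP_1aae89_al Pool.Agent.Lib.MP_1aae89_al.BF Finset

theorem allMAJ : SpecMAJ := by
  have hGCA1 : SpecGCA1 := specGCA1
  have hGCA2 : SpecGCA2 := specGCA2 hGCA1
  have hTWG : SpecTWG := specTWG hGCA2
  have hLFM : SpecLFM := specLFM hGCA2
  have hLSP : SpecLSP := specLSP hGCA2 hLFM
  have hPFN : SpecPFN := specPFN hGCA2
  have hINT : SpecINT := specINT hGCA1 hGCA2 hTWG hLSP specGLU hPFN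
  have hAIN : SpecAIN := specAIN hINT specFXC
  have hAPO : SpecAPO := specAPO specFXC specNVZ specARE
  have hUPB : SpecUPB := specUPB specARE
  have hLEV : SpecLEV := specLEV specLTE
  have hFIN : SpecFIN :=
    specFIN hAIN specACY specARE hAPO specAGA specAMG hUPB specSCA SCB.specSCB specCMB
  exact specMAJ (specMAI specGIN NRM.specNRM hLEV hFIN)

theorem final_all {p : ℕ} (hp : p.Prime)
    {G : Type} [Group G] [Fintype G] (M P : Subgroup G) (hM : ¬ p ∣ M.index)
    (hP : Nat.card P = p ^ (Fintype.card G).factorization p) {n : ℕ}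
    (r : M →* Matrix (Fin n) (Fin n) ℂ) (hr : Sch r) (hn : ¬ p ∣ n) (b c : ℕ)
    (hb : lev p (fun y => (r y).trace) = b) (hc : 2 ≤ c) (hcb : c ≤ b)
    (h2 : p = 2 → c = 2 → b = 2) (hPow : PowC P (p ^ (c - 1)))
    (hh : Nat.card (Subgroup.normalizer (P : Set G)) <
        p ^ (b - c + 1) * Nat.card (NC P (p ^ (c - 1))) ∨
      nR P (p ^ (c - 1)) < p ^ (b - c + 1) * nK P (p ^ (c - 1))) :
    c ≤ lev p (fun x : P => ind M (fun y => (r y).trace) (x : G)) ∧
    c ≤ lev p (ind M (fun y => (r y).trace)) ∧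
    lev p (ind M (fun y => (r y).trace)) ≤ b :=
  final_mx allMAJ specLRS hp M P hM hP r hr hn b c hb hc hcb h2 hPow hh

end Pool.Agent.Lib.MP_1aae89_al.W
end
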