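import Pool.Agent.Lib.MP_1aae89_al.BF.Top
import Pool.Agent.Lib.MP_1aae89_al.Grp2

/-!
# Definitions for the theorem on abelian Sylow subgroups and small automizers
-/

set_option autoImplicit false

namespace Pool.Agent.Lib.MP_1aae89_al.W

open Pool.Agent.Lib.MP_1aae89_al Finset

/-- combinations of characters with algebraic integers as coefficients -/
def GC {Q : Type} [Group Q] (F : Q → ℂ) : Prop :=
  F ∈ Submodule.span (integralClosure ℤ ℂ) {χ : Q → ℂ | IsCharacter χ}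

/-- `x` is divisible by `l ^ a` away from denominators prime to `l` -/
def LD (l a : ℕ) (x : ℂ) : Prop :=
  ∃ n : ℕ, ¬ l ∣ n ∧ ∃ w : ℂ, IsIntegral ℤ w ∧ (n : ℂ) * x = (l : ℂ) ^ a * w

/-- the `q`-th power map is a homomorphism from `P` to its centre -/
def PowC {C : Type} [Group C] (P : Subgroup C) (q : ℕ) : Prop :=
  ∀ x ∈ P, ∀ y ∈ P, (x * y) ^ q = x ^ q * y ^ q ∧ x ^ q * y = y * x ^ q

/-- the number of `q`-th powers of elements of `P` -/
noncomputable def nR {C : Type} [Group C] (P : Subgroup C) (q : ℕ) : ℕ :=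
  Nat.card {z : C // ∃ x ∈ P, x ^ q = z}

/-- the number of conjugacy classes of `C` which contain a `q`-th power of an element of `P` -/
noncomputable def nK {C : Type} [Group C] (P : Subgroup C) (q : ℕ) : ℕ :=
  Nat.card {c : ConjClasses C // ∃ x ∈ P, ConjClasses.mk (x ^ q) = c}

/-- the trace on the space of vectors fixed by `z` (`z ^ T = 1`, `z y = y z`) -/
noncomputable def fx {M : Type} [Group M] (T : ℕ) (z : M) (ψ : M → ℂ) (y : M) : ℂ :=
  (T : ℂ)⁻¹ * ∑ i ∈ range T, ψ (y * z ^ i)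

open Classical in
/-- `(R / |C(z)|) ∑_{y ^ e = z} |fx y|²` -/
noncomputable def AA {M : Type} [Group M] [Fintype M] (R e T : ℕ) (ψ : M → ℂ) (z : M) : ℂ :=
  (R : ℂ) / (Nat.card (Subgroup.centralizer ({z} : Set M)) : ℂ) *
    ∑ y ∈ univ.filter (fun y : M => y ^ e = z), fx T z ψ y * fx T z ψ y⁻¹

/-- the conjugate function `y ↦ (1/T) ∑_t ψ(y^(1 + e t))` -/
noncomputable def av {M : Type} [Group M] (T e : ℕ) (ψ : M → ℂ) (y : M) : ℂ :=
  (T : ℂ)⁻¹ * ∑ t ∈ range T, ψ (y ^ (1 + e * t))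

end Pool.Agent.Lib.MP_1aae89_al.W
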