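import Pool.Agent.Lib.MP_1aae89_al.W.Defs

/-!
# Specifications of the modules for the theorem on small automizers (MP_1aae89_al, Q1)

THE THEOREM. `p` prime, `M ≤ G` finite, `p ∤ |G:M|`, `P` a Sylow `p`-subgroup of `G`,
`ψ ∈ Irr(M)` of degree prime to `p`, `b = lev ψ`, `2 ≤ c ≤ b`, `q = p^(c-1)`, `j = b - c + 1`
(if `p = c = 2` then also `b = 2`). Suppose `u ↦ u^q` is a homomorphism of `P` to its centre, with
image `R`. If more than `|R|/p^j` conjugacy classes of `G` meet `R`, then `lev((ψ^G)_P) ≥ c`.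
COROLLARY. `P` abelian and `|N_G(P) : C_G(P)| < p^j` imply `lev ψ^G ≥ lev ψ - j + 1`; so the answer
to Q1 is yes if `P` is abelian and `|N_G(P) : C_G(P)| < p`.

THE PROOF. `L = |G|`, `N = v_p(L)`, `T = p^N`, `s0 ≡ 1` modulo `p^N`, `s0 ≡ 0` modulo the part of `L`
prime to `p` (structure `Pex p L s0`), so `y^s0` is the `p`-part of `y`; `e = s0 * q`. The functions
`ψ_t(y) = ψ(y^(1+et))` are Galois conjugates of `ψ`; `ψ_t = ψ` implies `p^j ∣ t` (LEV), so the average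
`av` of the `ψ_t` has norm at most `p^(-j)` (NRM). If `y^e = z` then
`av y = (1/T) ∑_i ψ(y z^i) = fx z y`, the trace of `y` on the space `V^z` of fixed vectors of `z`.
For `z ∈ R` the number `AA z = (|R|/|C_M(z)|) ∑_{y^e = z} |fx z y|²` is an algebraic integer (AIN; the
elementary substitute INT for Brauer's theorem), a real number `≥ 0`, its Galois conjugates are the
numbers `AA (z^k)` (AGA), and it is not `0` if `p ∤ dim V^z` (APO). So the mean value of the
`AA (z^k)`, `k` prime to `L`, is at least `1` if `p ∤ dim V^z` (AMG). If `lev (ψ^G)_P < c` then every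
`z ∈ R` is conjugate in `G` to some `z' ∈ R` with `p ∤ dim V^z'` (SCA, SCB). As
`∑ AA z / |R| ≤ |av|² ≤ p^(-j)`, the sum over elements of `R` which are pairwise not conjugate in `M`
(UPB), at most `|R|/p^j` classes of `G` meet `R` (CMB, FIN).
-/

set_option autoImplicit false

namespace Pool.Agent.Lib.MP_1aae89_al.W

open Pool.Agent.Lib.MP_1aae89_al Pool.Agent.Lib.MP_1aae89_al.BF Finset
open Pool.Agent.Lib.MP1aae89 (Pex)

/-! ## Block A: integrality -/

/-- GCA1. Characters are closed under products and contragredients.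
PROOF. Kronecker products of matrices (`Matrix.kroneckerMap`, reindexed by
`finProdFinEquiv : Fin m × Fin n ≃ Fin (m * n)`), `Matrix.trace_kronecker`;
`g ↦ (ρ g⁻¹)ᵀ`. -/
def SpecGCA1 : Prop :=
  (∀ {Q : Type} [Group Q] (χ θ : Q → ℂ), IsCharacter χ → IsCharacter θ →
    IsCharacter fun x => χ x * θ x) ∧
  (∀ {Q : Type} [Group Q] (χ : Q → ℂ), IsCharacter χ → IsCharacter fun x => χ x⁻¹) ∧
  (∀ {Q : Type} [Group Q], IsCharacter fun _ : Q => (1 : ℂ))

/-- GCA2. `GC` is closed under sums, products, algebraic integer multiples, finite sums, and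
composition with homomorphisms; its elements have integral values, and integral mean values.
PROOF. `Submodule.span_induction`; products by two inductions and GCA1; the mean value of a
character is a natural number (`IsCharacter.avg`); the values of a character of a finite group are
sums of roots of unity (or: `χ x` is the trace of a matrix of finite order, so integral; e.g.
`IsCharacter.comp` to the cyclic group generated by `x`, or the characteristic polynomial). -/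
def SpecGCA2 : Prop :=
  (∀ {Q : Type} [Group Q] (F F' : Q → ℂ), GC F → GC F' → GC fun x => F x + F' x) ∧
  (∀ {Q : Type} [Group Q] (F F' : Q → ℂ), GC F → GC F' → GC fun x => F x * F' x) ∧
  (∀ {Q : Type} [Group Q] (F : Q → ℂ) (α : ℂ), IsIntegral ℤ α → GC F → GC fun x => α * F x) ∧
  (∀ {Q : Type} [Group Q] (α : ℂ), IsIntegral ℤ α → GC fun _ : Q => α) ∧
  (∀ {Q : Type} [Group Q] {ι : Type} (s : Finset ι) (F : ι → Q → ℂ), (∀ i ∈ s, GC (F i)) →
    GC fun x => ∑ i ∈ s, F i x) ∧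
  (∀ {Q Q' : Type} [Group Q] [Group Q'] (f : Q' →* Q) (F : Q → ℂ), GC F → GC fun x => F (f x)) ∧
  (∀ {Q : Type} [Group Q] [Finite Q] (F : Q → ℂ), GC F → ∀ x, IsIntegral ℤ (F x)) ∧
  (∀ {Q : Type} [Group Q] [Fintype Q] (F : Q → ℂ), GC F →
    IsIntegral ℤ ((Fintype.card Q : ℂ)⁻¹ * ∑ x, F x))

/-- TWG. If `t` commutes with all elements of the subgroup `Q` then `w ↦ Θ(t w)` is a combination of
characters of `Q` with integral coefficients, for each character `Θ` of the finite group `D`.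
PROOF. `Θ = trace r`, `A = r t`, `A^o = 1`, `o = |D|`, `ζ = zeta o` a primitive `o`-th root of unity.
`E_i = (1/o) ∑_{k<o} ζ^(-ik) A^k` (`i < o`) is an idempotent which commutes with `r w` (`w ∈ Q`), and
`A = ∑_i ζ^i E_i`. So `Θ(t w) = ∑_i ζ^i trace (E_i r(w))`, and `w ↦ trace (E_i r(w))` is a character
of `Q` (`idem_factor`, `compr` in `BF/Mx.lean`, `BF/Isot.lean`; compare the proof of
`IsCharacter.eval_pow` in `Chr.lean`). -/
def SpecTWG : Prop := ∀ {D : Type} [Group D] [Fintype D] (Θ : D → ℂ), IsCharacter Θ →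
  ∀ (Q : Subgroup D) (t : D), (∀ w ∈ Q, t * w = w * t) → GC fun w : Q => Θ (t * w)

/-- LFM (Frobenius). `l` prime, `Q` a Sylow `l`-subgroup of the finite group `D`, `F` a class
function on `D` whose restriction to `Q` is in `GC`. Then the sum of `F` over the `l`-elements of `D`
is divisible by `l^(v_l |D|)` away from denominators prime to `l`.
PROOF. Let `π w` be the number of fixed points of `w` on the cosets `D/Q`, that is,
`π w = |Q|⁻¹ #{x ∈ D : x⁻¹ w x ∈ Q}`. If `π w ≠ 0` then `w` is conjugate to an element of `Q`, so an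
`l`-element. If `w` is an `l`-element then `π w ≡ |D : Q| ≢ 0` modulo `l` (orbits of the `l`-group
`⟨w⟩` on `D/Q`; `IsPGroup.card_modEq_card_fixedPoints`). Put `a = v_l |D|`, `i = φ(l^(a+1))` or any
`i ≥ 1` with `π^i ≡ 1` modulo `l^a` for all integers `π` prime to `l` (Euler; take `i = φ(l^a)`,
which is `≥ 1`). Then
`∑_{w l-element} F w = ∑_{w ∈ D} F w (π w)^i - ∑_{w l-element} F w ((π w)^i - 1)`;
the second sum is `l^a` times an algebraic integer (values of `F` at `l`-elements are integral: they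
are conjugate into `Q`). The first: `(π w)^i = (π w)^(i-1) |Q|⁻¹ ∑_{x ∈ D} [x⁻¹ w x ∈ Q]`, so it is
`|Q|⁻¹ ∑_{x ∈ D} ∑_{v ∈ Q} F v (π v)^(i-1) = |D| · (|Q|⁻¹ ∑_{v ∈ Q} F v (π v)^(i-1))`, and
`π` restricted to `Q` is the character of a permutation representation (or: it is a sum over the
cosets of indicator functions; simplest: `π` on `D` is the trace of the permutation matrices on
`D ⧸ Q`), so the bracket is an algebraic integer by GCA2. -/
def SpecLFM : Prop := ∀ (l : ℕ), l.Prime → ∀ {D : Type} [Group D] [Fintype D] (Q : Subgroup D),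
  Nat.card Q = l ^ (Fintype.card D).factorization l → ∀ F : D → ℂ,
  (∀ g w, F (g * w * g⁻¹) = F w) → (GC fun w : Q => F w) →
  LD l ((Fintype.card D).factorization l)
    (∑ w : D, open Classical in if ∃ k : ℕ, w ^ l ^ k = 1 then F w else 0)

/-- LSP. `F` a class function on the finite group `C`, `l` prime. Suppose that for each `t ∈ C` of
order prime to `l` and each `l`-subgroup `Q` of `C` whose elements commute with `t` the function
`w ↦ F(t w)` on `Q` is in `GC`. Then `∑_y F y` is divisible by `l^(v_l |C|)` away from denominators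
prime to `l`.
PROOF. Each `y` is uniquely `t w = w t`, `t` of order prime to `l`, `w` an `l`-element (powers of
`y`). So `∑_y F y = ∑_t S t`, `S t = ∑_{w ∈ C(t), w l-element} F(t w)`, and by LFM for the centralizer
`C(t)` the number `a t = S t / |C(t)|` is integral away from `l`: `n_t a t` is an algebraic integer
for some `n_t` prime to `l` (`|C(t)|_{l'}` times the `n` of LFM). `S` and `|C(t)|` are constant on
conjugacy classes, so `∑_t S t = ∑_t |C(t)| a t = |C| ∑ a t`, the last sum over representatives of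
the classes (an analogue of `orb` in `Ind.lean`). -/
def SpecLSP : Prop := ∀ (l : ℕ), l.Prime → ∀ {C : Type} [Group C] [Fintype C] (F : C → ℂ),
  (∀ g w, F (g * w * g⁻¹) = F w) →
  (∀ (t : C), (orderOf t).Coprime l → ∀ Q : Subgroup C, IsPGroup l Q →
    (∀ w ∈ Q, t * w = w * t) → GC fun w : Q => F (t * w)) →
  LD l ((Fintype.card C).factorization l) (∑ y, F y)

/-- GLU. Integrality is a local property.
PROOF. The set `I` of the integers `m` with `m (x/n)` integral is an ideal of `ℤ`. For each prime `l`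
it contains an integer prime to `l`: if `n_l x = l^(v_l n) w` with `l ∤ n_l` and `w` integral, take
`m = n_l · (n / l^(v_l n))`. An ideal of `ℤ` contained in no `lℤ` is `ℤ`. -/
def SpecGLU : Prop := ∀ (n : ℕ), n ≠ 0 → ∀ x : ℂ, (∀ l : ℕ, l.Prime → LD l (n.factorization l) x) →
  IsIntegral ℤ (x / n)

/-- PFN. If the `q`-th power map is a homomorphism of the finite group `P` to its centre, then
`u ↦ |R| [u^q = z]` is in `GC`, `R` the set of `q`-th powers, for each `z`.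
PROOF. If `z` is not a `q`-th power the function is `0`. Otherwise `R` is a finite commutative group
(the range of the homomorphism `u ↦ u^q`), and
`|R| [r = z] = ∑_{μ : R →* ℂˣ} μ(r) μ(z)⁻¹` (orthogonality of characters of finite commutative groups;
Mathlib has it for `AddChar` and `MonoidHom`; the number of homomorphisms `R →* ℂˣ` is `|R|`), and
`u ↦ μ(u^q)` is a linear character. -/
def SpecPFN : Prop := ∀ {P : Type} [Group P] [Fintype P] (q : ℕ),
  (∀ x y : P, (x * y) ^ q = x ^ q * y ^ q ∧ x ^ q * y = y * x ^ q) → ∀ z : P,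
  GC fun u : P => open Classical in
    if u ^ q = z then ((Nat.card {z : P // ∃ x, x ^ q = z} : ℕ) : ℂ) else 0

/-- INT. `C` finite, `P` a Sylow `p`-subgroup with `PowC P q`, `z` central in `C`, `χ` a character of
`C`. Then `(|R|/|C|) ∑_{y^(s0 q) = z} χ(y) χ(y⁻¹)` is an algebraic integer.
PROOF. By GLU and LSP for `F y = |R| [y^(s0 q) = z] χ(y) χ(y⁻¹)`. Let `l` be a prime, `t` of order prime
to `l`, `Q` an `l`-group commuting with `t`. `w ↦ χ(t w)` and `w ↦ χ((t w)⁻¹) = χ^∨(t w)` are in `GC`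
(TWG, GCA1). If `l ≠ p`: `(t w)^(s0 q) = t^(s0 q) w^(s0 q) = t^(s0 q)`, because the order of `w`
divides the part of `L` prime to `p`, which divides `s0`; so the condition is independent of `w`.
If `l = p`: the order of `t` divides the part of `L` prime to `p`, so `t^(s0 q) = 1`, and
`w^(s0 q) = w^q`, because the order of `w` divides `p^N` and `s0 ≡ 1`. By Sylow's theorem there is
`g` with `g⁻¹ Q g ≤ P`; `w^q = z` iff `(g⁻¹ w g)^q = z` (`z` is central); so the function is the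
composition of the function of PFN for `P` (with `z` if `z ∈ P`; it is `0` if `z` is not a `q`-th power
of an element of `P`) with `w ↦ g⁻¹ w g`. -/
def SpecINT : Prop := ∀ (p : ℕ), p.Prime → ∀ {C : Type} [Group C] [Fintype C] (L s0 : ℕ), L ≠ 0 →
  Fintype.card C ∣ L → Pex p L s0 → ∀ P : Subgroup C,
  Nat.card P = p ^ (Fintype.card C).factorization p → ∀ q : ℕ, PowC P q → ∀ z : C,
  (∀ y, z * y = y * z) → ∀ χ : C → ℂ, IsCharacter χ →
  IsIntegral ℤ (((nR P q : ℕ) : ℂ) / (Fintype.card C : ℂ) *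
    ∑ y : C, open Classical in if y ^ (s0 * q) = z then χ y * χ y⁻¹ else 0)

/-! ## Block B: the numbers `AA z` -/

/-- FXC. `z` central in `C`, `z^T = 1`: `fx T z χ` is a character of `C` if `χ` is one. In particular
`fx T z χ 1` is a natural number.
PROOF. `χ = trace r`, `E = (1/T) ∑_{i<T} r(z)^i` is an idempotent which commutes with all `r y`, and
`fx T z χ y = trace (E r(y))`; `idem_factor`, `compr`. -/
def SpecFXC : Prop := ∀ {C : Type} [Group C] (T : ℕ), T ≠ 0 → ∀ z : C, z ^ T = 1 →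
  (∀ y, z * y = y * z) → ∀ χ : C → ℂ, IsCharacter χ → IsCharacter (fx T z χ)

/-- NVZ. A character does not vanish at a `p`-element if its degree is prime to `p`.
PROOF. `r u` has finite order `p^k`, `χ u = ∑ ω_i`, `χ 1 = ∑ ω_i^(p^k)`, so `(χ u)^(p^k) ≡ χ 1` modulo
`p` in the ring of algebraic integers. If `χ u = 0` then `χ 1 / p` is integral and rational. (With
`IsCharacter.eval_pow`-type formulas: `χ(u^i) = ∑_j a_j ζ^(ij)`, `a_j` the multiplicities, natural
numbers: `mlt` for the cyclic group.) -/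
def SpecNVZ : Prop := ∀ (p : ℕ), p.Prime → ∀ {C : Type} [Group C] [Finite C] (χ : C → ℂ),
  IsCharacter χ → ∀ (u : C) (k : ℕ), u ^ p ^ k = 1 → χ u = 0 → ∀ n : ℕ, χ 1 = n → p ∣ n

/-- AIN. `M` finite, `P` a Sylow `p`-subgroup with `PowC P q`, `z = u^q` with `u ∈ P`: `AA z` is an
algebraic integer.
PROOF. INT for `C = C_M(z)` (it contains `P`, as `z` is central in `P`) and the character
`fx T z ψ` of `C` (FXC). The elements `y` of `M` with `y^e = z` are in `C`. `nR` of `P` as a subgroup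
of `C` is `nR P q`. -/
def SpecAIN : Prop := ∀ (p : ℕ), p.Prime → ∀ {M : Type} [Group M] [Fintype M] (L s0 T : ℕ), L ≠ 0 →
  Fintype.card M ∣ L → Pex p L s0 → T = ordProj[p] L → ∀ P : Subgroup M,
  Nat.card P = p ^ (Fintype.card M).factorization p → ∀ q : ℕ, PowC P q → ∀ ψ : M → ℂ,
  IsCharacter ψ → ∀ u ∈ P, IsIntegral ℤ (AA (nR P q) (s0 * q) T ψ (u ^ q))

/-- ACY. `AA z` is in `ℚ_L`.
PROOF. All values of `ψ` are in `ℚ_|M| ≤ ℚ_L` (`IsCharacter.mem_cyc_card`, `cyc_mono`). -/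
def SpecACY : Prop := ∀ {M : Type} [Group M] [Fintype M] (L R e T : ℕ), L ≠ 0 →
  Fintype.card M ∣ L → ∀ ψ : M → ℂ, IsCharacter ψ → ∀ z : M, AA R e T ψ z ∈ cycField L

/-- ARE. `AA z` is real and `≥ 0` (`z^T = 1`), namely `(R/|C(z)|) ∑_{y^e = z} ‖fx y‖²`.
PROOF. `ψ(g⁻¹)` is the complex conjugate of `ψ(g)`; if `y^e = z` then `y z = z y`, so
`fx z y⁻¹ = (1/T) ∑_i ψ(y⁻¹ z^i)` is conjugate to `(1/T) ∑_i ψ(y z^(-i)) = fx z y`. -/
def SpecARE : Prop := ∀ {M : Type} [Group M] [Fintype M] (R e T : ℕ), T ≠ 0 → ∀ ψ : M → ℂ,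
  IsCharacter ψ → ∀ z : M, z ^ T = 1 →
  AA R e T ψ z = (((R : ℝ) / (Nat.card (Subgroup.centralizer ({z} : Set M)) : ℝ) *
    ∑ y : M, (open Classical in if y ^ e = z then ‖fx T z ψ y‖ ^ 2 else 0) : ℝ) : ℂ)

/-- APO. `AA z ≠ 0` if `z = u^q`, `u` a `p`-element, and `p ∤ dim V^z`.
PROOF. `y = u`: `u^(s0 q) = u^q = z` (`u` has order dividing `p^N`). By NVZ for the character
`fx T z ψ` of the centralizer of `z` (FXC): `fx T z ψ u ≠ 0`. Conclude by ARE: all terms of the sum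
are `≥ 0`. -/
def SpecAPO : Prop := ∀ (p : ℕ), p.Prime → ∀ {M : Type} [Group M] [Fintype M] (L s0 T : ℕ),
  L ≠ 0 → Fintype.card M ∣ L → Pex p L s0 → T = ordProj[p] L → ∀ (q R : ℕ), R ≠ 0 →
  ∀ ψ : M → ℂ, IsCharacter ψ → ∀ u : M, (∃ k, u ^ p ^ k = 1) → ∀ n : ℕ,
  fx T (u ^ q) ψ 1 = n → ¬ p ∣ n → 0 < (AA R (s0 * q) T ψ (u ^ q)).re

/-- AGA. Galois conjugation: `σ (AA z) = AA (z^k)` if `σ ξ = ξ^k` for the `L`-th roots of unity, `k`
prime to `L`.
PROOF. `σ (ψ y) = ψ (y^k)` (`gal_trace`), so `σ (fx z y) = (1/T) ∑_i ψ((y z^i)^k)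
= (1/T) ∑_i ψ(y^k z^(ki)) = fx (z^k) (y^k)` for `y` commuting with `z`, and `fx z = fx (z^k)` (the sum
over `i < T` is `T/|⟨z⟩|` times the sum over `⟨z⟩ = ⟨z^k⟩`). `y ↦ y^k` is a bijection from
`{y : y^e = z}` to `{y : y^e = z^k}`, and `C(z) = C(z^k)`. -/
def SpecAGA : Prop := ∀ {M : Type} [Group M] [Fintype M] (L : ℕ), L ≠ 0 → Fintype.card M ∣ L →
  ∀ (R e T : ℕ), T ≠ 0 → T ∣ L → ∀ ψ : M → ℂ, IsCharacter ψ → ∀ z : M, z ^ T = 1 →
  ∀ k : ℕ, k.Coprime L → ∀ σ : ℂ →+* ℂ, (∀ ξ : ℂ, ξ ^ L = 1 → σ ξ = ξ ^ k) →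
  σ (AA R e T ψ z) = AA R e T ψ (z ^ k)

/-- AMG. The mean value of a full set of conjugates of a totally positive algebraic integer of `ℚ_L`
is at least `1`. Here `U = (ZMod L)ˣ` and `a k` (`k ∈ U`) are the conjugates.
PROOF. `π = ∏_k a k` is an algebraic integer in `ℚ_L`, fixed by all the `σ` (they permute the `a k`).
Every automorphism of `ℚ_L` is the restriction of such a `σ` (`exists_aut`), so `π ∈ ℚ`, hence
`π ∈ ℤ` (`IsIntegrallyClosed`), and `π > 0`, so `π ≥ 1`. As `x ≥ 1 + log x`,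
`∑ a k ≥ |U| + log π ≥ |U|`. -/
def SpecAMG : Prop := ∀ (L : ℕ) [NeZero L] (a : (ZMod L)ˣ → ℂ), (∀ k, IsIntegral ℤ (a k)) →
  (∀ k, a k ∈ cycField L) → (∀ k, ∃ x : ℝ, 0 < x ∧ a k = x) →
  (∀ (j : (ZMod L)ˣ) (σ : ℂ →+* ℂ),
    (∀ ξ : ℂ, ξ ^ L = 1 → σ ξ = ξ ^ (j : ZMod L).val) → ∀ k, σ (a k) = a (j * k)) →
  (Fintype.card (ZMod L)ˣ : ℝ) ≤ ∑ k, (a k).re

/-! ## Block C: the norm of `av` -/

/-- ORT. Orthogonality of the characters of representations with scalar commutant.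
PROOF. `avg2`, `avg`, `entry` (`BF/Mx.lean`): if some `∑_g s(g) E_{ji} r(g⁻¹) ≠ 0` then the
representations are equivalent and `n = m`, the characters are equal; otherwise the sum of
`trace (s g) trace (r g⁻¹)` is `0`. If the characters are equal use `orth` with `A = B = 1` (the
equality of the characters gives `n = m`). -/
def SpecORT : Prop := ∀ {M : Type} [Group M] [Fintype M] {n m : ℕ}
  (r : M →* Matrix (Fin n) (Fin n) ℂ) (s : M →* Matrix (Fin m) (Fin m) ℂ), Sch r → Sch s →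
  n ≠ 0 → m ≠ 0 →
  ((∀ g, (s g).trace = (r g).trace) → ∑ g, (s g).trace * (r g⁻¹).trace = Fintype.card M) ∧
  ((∃ g, (s g).trace ≠ (r g).trace) → ∑ g, (s g).trace * (r g⁻¹).trace = 0)

/-- LTE. If `k = 1 + s0 p^(c-1) t` and `p^(b-c+1) ∤ t` then some power `k' = k^(p^i)` of `k` satisfies
`k' ≡ 1` modulo `p^(b-1)` and modulo `L_{p'}`, but not modulo `p^b` (`c = b`, or `p` odd, or `c ≥ 3`).
PROOF. `s0 = 1` modulo `p^N`, `b ≤ N`, `0` modulo `L_{p'}`; so `k ≡ 1 + p^(c-1) t` modulo `p^N`. Let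
`p^v` be the exact power of `p` dividing `t`, `v ≤ b - c`; `k - 1` is divisible exactly by `p^(c-1+v)`
(`c - 1 + v ≤ b - 1 < N`). If `x - 1` is divisible exactly by `p^f`, `f ≥ 1`, and `p` is odd or
`f ≥ 2`, then `x^p - 1` is divisible exactly by `p^(f+1)` (binomial formula, or the lifting the
exponent lemma in Mathlib). So `i = b - c - v` works; if `c = b` then `v = 0`, `i = 0`. -/
def SpecLTE : Prop := ∀ (p : ℕ), p.Prime → ∀ (L s0 : ℕ), L ≠ 0 → Pex p L s0 → ∀ (b c t : ℕ),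
  2 ≤ c → c ≤ b → (p ≠ 2 ∨ 3 ≤ c ∨ c = b) → b ≤ L.factorization p → ¬ p ^ (b - c + 1) ∣ t →
  ∃ i : ℕ, (1 + s0 * p ^ (c - 1) * t) ^ p ^ i ≡ 1 [MOD ordCompl[p] L * p ^ (b - 1)] ∧
    ¬ (1 + s0 * p ^ (c - 1) * t) ^ p ^ i ≡ 1 [MOD p ^ b]

/-- LEV. `ψ` a character of `M` of level `b`: if `ψ(y^(1 + e t)) = ψ(y)` for all `y`, `e = s0 p^(c-1)`,
then `p^(b-c+1) ∣ t`.
PROOF. Otherwise take `k'` from LTE (`b ≤ v_p L` because the conductor of `ψ` divides `|M|`). Then
`ψ(y^k') = ψ(y)` for all `y` (iterate). `k'` is prime to `L`; let `σ` be the automorphism with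
`σ ξ = ξ^k'` for the `L`-th roots of unity (`exists_aut`): `σ(ψ y) = ψ(y^k') = ψ y` (`gal_trace`).
`n = conductor ψ` divides `L`, its `p`-part is `p^b`, `k' ≡ 1` modulo `n/p`, `k' ≢ 1` modulo `n`;
by `descend` (`Gal.lean`) all values are in `ℚ_(n/p)`, a contradiction to the definition of `n`.
(Compare `moved_of_lev`.) -/
def SpecLEV : Prop := ∀ (p : ℕ), p.Prime → ∀ {M : Type} [Group M] [Fintype M] (L s0 : ℕ), L ≠ 0 →
  Fintype.card M ∣ L → Pex p L s0 → ∀ ψ : M → ℂ, IsCharacter ψ → ∀ (b c t : ℕ), 2 ≤ c → c ≤ b →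
  (p ≠ 2 ∨ 3 ≤ c ∨ c = b) → lev p ψ = b → (∀ y, ψ (y ^ (1 + s0 * p ^ (c - 1) * t)) = ψ y) →
  p ^ (b - c + 1) ∣ t

/-- NRM. The norm of `av` is at most `p^(-j)`.
PROOF. `ψ_t(y) = ψ(y^(1+et)) = σ_t(ψ y)`, `σ_t` the automorphism for the exponent `1 + e t`, which is
prime to `L` (`p ∣ e`, and `e` is divisible by the part of `L` prime to `p`; `exists_aut`,
`gal_trace`); it is the character of the representation `r^σ_t`, which is again `Sch` (apply the
inverse automorphism; or: `Sch` is equivalent to `∑_g trace (r g) trace (r g⁻¹) = |M|`, and this is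
Galois invariant). `ψ_t = ψ_s`, `s ≤ t` implies `p^j ∣ t - s`: let `k` be inverse to `1 + e s` modulo
`L`; `ψ((y^k)^(1+et)) = ψ((y^k)^(1+es)) = ψ y`, and `k (1 + e t) ≡ 1 + e (t - s) k`, so `p^j` divides
`(t - s) k` by hypothesis and `k` is prime to `p`. By ORT
`∑_y |av y|² = T⁻² ∑_{t,s<T} ∑_y ψ_t(y) ψ_s(y⁻¹) ≤ T⁻² #{(t,s) : t ≡ s mod p^j} |M| = |M|/p^j`
(`T = p^N`, `j ≤ N`). -/
def SpecNRM : Prop := ∀ (p : ℕ), p.Prime → ∀ {M : Type} [Group M] [Fintype M] (L s0 T : ℕ), L ≠ 0 →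
  Fintype.card M ∣ L → Pex p L s0 → T = ordProj[p] L → ∀ {n : ℕ}
  (r : M →* Matrix (Fin n) (Fin n) ℂ), Sch r → n ≠ 0 → ∀ (c j : ℕ), 2 ≤ c →
  j ≤ L.factorization p →
  (∀ t : ℕ, (∀ y, (r (y ^ (1 + s0 * p ^ (c - 1) * t))).trace = (r y).trace) → p ^ j ∣ t) →
  ∑ y, ‖av T (s0 * p ^ (c - 1)) (fun y => (r y).trace) y‖ ^ 2 ≤ (Fintype.card M : ℝ) / (p : ℝ) ^ j

/-- UPB. The upper bound: for elements `z ∈ A` which are pairwise not conjugate in `M`, with
`z^T = 1`: `∑_{z ∈ A} AA z ≤ (R/|M|) ∑_y |av y|²`.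
PROOF. If `y^e = z` then `y^(1+et) = y z^t`, so `av y = fx z y`. The function `|av|²` is invariant
under conjugation, so the sum of `|av y|²` over the `y` with `y^e` conjugate to `z` is
`|M|/|C(z)|` times the sum over the `y` with `y^e = z`; these sets are disjoint for the different
`z ∈ A`. Use ARE. -/
def SpecUPB : Prop := ∀ {M : Type} [Group M] [Fintype M] (R e T : ℕ), T ≠ 0 → ∀ ψ : M → ℂ,
  IsCharacter ψ → ∀ A : Finset M, (∀ z ∈ A, z ^ T = 1) →
  (∀ z ∈ A, ∀ z' ∈ A, (∃ g, g * z * g⁻¹ = z') → z = z') →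
  ∑ z ∈ A, (AA R e T ψ z).re ≤ (R : ℝ) / (Fintype.card M : ℝ) * ∑ y, ‖av T e ψ y‖ ^ 2

/-! ## Block D: the induced function -/

/-- GIN. Galois conjugation for one value of an induced function (`gal_ind` of `Main.lean`, whose
proof uses the hypothesis only for the element `x`; copy it). -/
def SpecGIN : Prop := ∀ {G : Type} [Group G] [Fintype G] (H : Subgroup G) {θ : H → ℂ},
  IsCharacter θ → ∀ {p : ℕ}, p.Prime → ∀ {n : ℕ}, n ≠ 0 → ∀ {b : ℕ}, 2 ≤ b →
  n.factorization p < b → ∀ {x : G} {e : ℕ}, x ^ (p ^ e) = 1 → ind H θ x ∈ cycField n →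
  ind H θ (x ^ (1 + p ^ (b - 1))) = ind H θ x

/-- SCA. `B` a finite commutative group generated by `u`, a `p`-group; `F` a function on `B` with
natural numbers as multiplicities, `F(x^(1+q)) = F x`, `q = p^(c-1)`, `c ≥ 2`; `z = u^q`. Then the
dimension of the fixed space of `z` is congruent to `F 1` modulo `p`.
PROOF. `F x = ∑_μ m_μ μ(x)` (Fourier inversion), so `(1/T) ∑_{i<T} F(z^i) = ∑_{μ(z)=1} m_μ`
(`z^T = 1`) and `F 1 = ∑ m_μ`. `m_(μ^k) = m_μ` for `k = 1 + q` (or its inverse; `mlt_pow`,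
`mlt_congr`). `μ ↦ μ^(1+q)` is a permutation of the `μ` with `μ(z) ≠ 1`, a power of `p` of it is the
identity, and it has no fixed point there: `μ^q = 1` implies `μ(z) = μ(u)^q = 1`. So the sum over
these `μ` is divisible by `p` (`dvd_sum`/`sum_modEq` of `Lin.lean` ask for `f^[p] x = x`; use them on
the fixed points of `f^[p^i]`, or use `IsPGroup.card_modEq_card_fixedPoints` on the set of pairs
`(μ, i)`, `i < m_μ`). -/
def SpecSCA : Prop := ∀ (p : ℕ), p.Prime → ∀ {B : Type} [CommGroup B] [Fintype B] (e c T : ℕ),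
  Fintype.card B = p ^ e → 2 ≤ c → T ≠ 0 → ∀ u : B, (∀ x : B, x ∈ Subgroup.zpowers u) →
  (u ^ p ^ (c - 1)) ^ T = 1 → ∀ F : B → ℂ,
  (∀ μ : Lin B, ∃ k : ℕ, (Fintype.card B : ℂ)⁻¹ * ∑ x, F x * (((μ x)⁻¹ : ℂˣ) : ℂ) = k) →
  (∀ x, F (x ^ (1 + p ^ (c - 1))) = F x) →
  ∃ d n : ℕ, (T : ℂ)⁻¹ * ∑ i ∈ range T, F ((u ^ p ^ (c - 1)) ^ i) = d ∧ F 1 = n ∧
    d ≡ n [MOD p]

/-- SCB. `P` a `p`-subgroup of `G`, `M ≤ G`, `u ∈ P`, `z = u^q` (`q` divisible by `p`) central in `P`, `z^T = 1`,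
`ψ` a character of `M`. If the fixed space of `z` in the induced representation has a dimension `d`
prime to `p`, then there is `x ∈ G` with `x⁻¹ P x ≤ M` and the dimension of the fixed space of
`x⁻¹ z x` in the representation of `M` prime to `p`.
PROOF. For `x ∈ G` put `P_x = P ∩ x M x⁻¹`, `Z_x = ⟨z⟩ ∩ x M x⁻¹ = ⟨z⟩ ∩ P_x`, `δ(x)` the dimension of
the fixed space of `x⁻¹ Z_x x` in the representation of `M`, that is
`δ(x) = |Z_x|⁻¹ ∑_{r ∈ Z_x} ψ(x⁻¹ r x)`, a natural number. As `∑_{i<T} f(z^i) = (T/|⟨z⟩|) ∑_{r∈⟨z⟩} f(r)`,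
`d = (1/T) ∑_{i<T} ψ^G(z^i) = |M|⁻¹ ∑_{x ∈ G} (|Z_x|/|⟨z⟩|) δ(x)
= (|P||M|)⁻¹ ∑_{x ∈ G} |P_x| F(x)`, `F(x) = |P : P_x ⟨z⟩| δ(x)` (`P_x⟨z⟩` is a subgroup of `P`, as `z` is
central, of order `|P_x||⟨z⟩|/|Z_x|`). `P × M` acts on `G` by `(a, m) x = a x m⁻¹`, the stabilizer of
`x` has order `|P_x|`, and `F` is invariant (`z` is central in `P`). If `P_x ≠ P` then
`P_x ⟨z⟩ ≠ P`, because `z = u^q` is in the Frattini subgroup: a maximal subgroup of `P` containing
`P_x` is normal of index `p`, so it contains all `p`-th powers, so `z`; hence `p ∣ F(x)`. If also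
`p ∣ δ(x)` for all `x` with `P_x = P`, then `p ∣ F(x)` for all `x`, and `orb` (`Ind.lean`) for `F/p`
gives `p ∣ d`, a contradiction. -/
def SpecSCB : Prop := ∀ (p : ℕ), p.Prime → ∀ {G : Type} [Group G] [Fintype G] (M P : Subgroup G)
  (N : ℕ), Nat.card P = p ^ N → ∀ (u : G), u ∈ P → ∀ (q T : ℕ), p ∣ q → T ≠ 0 → (u ^ q) ^ T = 1 →
  (∀ y ∈ P, u ^ q * y = y * u ^ q) → ∀ ψ : M → ℂ, IsCharacter ψ → ∀ d : ℕ,
  (T : ℂ)⁻¹ * ∑ i ∈ range T, ind M ψ ((u ^ q) ^ i) = d → ¬ p ∣ d →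
  ∃ x : G, (∀ y ∈ P, x⁻¹ * y * x ∈ M) ∧ ∃ h : x⁻¹ * u ^ q * x ∈ M, ∃ n : ℕ,
    fx T (⟨x⁻¹ * u ^ q * x, h⟩ : M) ψ 1 = n ∧ ¬ p ∣ n

/-! ## Block E: conclusion -/

/-- CMB. Combinatorics. `X` a finite set with an equivalence relation, a finite group `U` acts on `X`
and preserves the relation; `α : X → ℝ`, `α ≥ 0`; `Z ⊆ X` is stable under `U`, meets every class, and
`∑_{k∈U} α(k z) ≥ |U|` for `z ∈ Z`; `∑_{x ∈ A} α x ≤ B` for each set `A` of pairwise inequivalent
elements. Then the number of classes is at most `B`.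
PROOF. For each class `κ` let `x_κ ∈ κ ∩ Z` be an element where `α` is maximal among the elements of
`κ ∩ Z`. `∑_κ α(x_κ) ≤ B`. For `k ∈ U`: `k x_κ ∈ k κ ∩ Z`, so `α(k x_κ) ≤ α(x_(kκ))`. So
`|U| #classes ≤ ∑_κ ∑_k α(k x_κ) ≤ ∑_k ∑_κ α(x_(kκ)) = |U| ∑_κ α(x_κ) ≤ |U| B`. -/
def SpecCMB : Prop := ∀ {X U : Type} [Finite X] [Group U] [Fintype U] [MulAction U X]
  (s : Setoid X), (∀ (k : U) (x y : X), s.r x y → s.r (k • x) (k • y)) → ∀ (α : X → ℝ)
  (Z : Set X), (∀ (k : U), ∀ z ∈ Z, k • z ∈ Z) → (∀ x, ∃ z ∈ Z, s.r x z) →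
  (∀ z ∈ Z, (Fintype.card U : ℝ) ≤ ∑ k : U, α (k • z)) → ∀ B : ℝ,
  (∀ A : Finset X, (∀ x ∈ A, ∀ y ∈ A, s.r x y → x = y) → ∑ x ∈ A, α x ≤ B) →
  (Nat.card (Quotient s) : ℝ) ≤ B

/-- FIN. The main inequality. `P ≤ M ≤ G`, `P` a Sylow `p`-subgroup of `G`; `ψ = trace r` of degree
prime to `p`; `|av|² ≤ |M|/p^j`; and `ψ^G(x^(1+q)) = ψ^G(x)` for all `x ∈ P`. Then the number of
classes of `G` meeting `R` is at most `|R|/p^j`.
PROOF. CMB for `X = {z : ∃ x ∈ P, x^q = z}`, the relation of conjugacy in `G`, `U = (ZMod L)ˣ`,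
`L = |G|`, acting by `z ↦ z^k`, `α z = (AA z).re` in `M`, `Z = {z : p ∤ dim V^z}`,
`dim V^z = fx T z ψ 1`, `B = |R|/p^j`. (`z^k = (x^k)^q`; `fx T (z^k) ψ 1 = fx T z ψ 1` as in AGA.)
`Z` meets every class: for `z = u^q`, SCA for `B = ⟨u⟩` (the multiplicities of `ψ^G` are natural
numbers: `ind_nat` in `Ind.lean`, for the subgroup `⟨u⟩`), the degree `ψ^G(1) = |G:M| ψ(1)` is prime
to `p`; so the dimension `d` of the fixed space of `z` is prime to `p`; SCB gives `x` with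
`x⁻¹ P x ≤ M` and `p ∤ dim V^(x⁻¹ z x)`; by Sylow's theorem in `M` there is `m ∈ M` with
`(x m)⁻¹ P (x m) = P`; then `z' = (x m)⁻¹ z (x m)` is the `q`-th power of `(x m)⁻¹ u (x m) ∈ P`, and
`dim V^z' = dim V^(x⁻¹ z x)` (conjugate in `M`).
Lower bound: AMG for `a k = AA (z^k)` (AIN, ACY, ARE, APO, AGA). Upper bound: UPB (elements which
are not conjugate in `G` are not conjugate in `M`) and the hypothesis on `av`. -/
def SpecFIN : Prop := ∀ (p : ℕ), p.Prime → ∀ {G : Type} [Group G] [Fintype G] (M P : Subgroup G)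
  (s0 : ℕ), Pex p (Fintype.card G) s0 → P ≤ M →
  Nat.card P = p ^ (Fintype.card G).factorization p → ∀ (c j : ℕ), 2 ≤ c →
  PowC P (p ^ (c - 1)) → ∀ {n : ℕ} (r : M →* Matrix (Fin n) (Fin n) ℂ), ¬ p ∣ n →
  (∀ _ : Fintype M,
    ∑ y, ‖av (ordProj[p] (Fintype.card G)) (s0 * p ^ (c - 1)) (fun y : M => (r y).trace) y‖ ^ 2 ≤
    (Fintype.card M : ℝ) / (p : ℝ) ^ j) →
  (∀ x ∈ P, ind M (fun y => (r y).trace) (x ^ (1 + p ^ (c - 1))) =
    ind M (fun y => (r y).trace) x) →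
  nK P (p ^ (c - 1)) * p ^ j ≤ nR P (p ^ (c - 1))

/-- MAI. The theorem, for `P ≤ M`.
PROOF. `b = lev ψ`, `j = b - c + 1`. Suppose the level of the restriction of `ψ^G` to `P` is less than
`c`, and let `n` be its conductor (the values are in `ℚ_|G|`, so `n ≠ 0`, `conductor_spec`); GIN with
`b := c` gives `ψ^G(x^(1+q)) = ψ^G(x)` for `x ∈ P`. NRM with LEV gives the hypothesis on `av`
(`b ≤ v_p |G|`: the conductor of `ψ` divides `|M|`). FIN gives the contradiction. -/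
def SpecMAI : Prop := ∀ (p : ℕ), p.Prime → ∀ {G : Type} [Group G] [Fintype G] (M P : Subgroup G),
  P ≤ M → Nat.card P = p ^ (Fintype.card G).factorization p → ∀ {n : ℕ}
  (r : M →* Matrix (Fin n) (Fin n) ℂ), Sch r → ¬ p ∣ n → ∀ (b c : ℕ),
  lev p (fun y => (r y).trace) = b → 2 ≤ c → c ≤ b → (p ≠ 2 ∨ 3 ≤ c ∨ c = b) →
  PowC P (p ^ (c - 1)) → nR P (p ^ (c - 1)) < nK P (p ^ (c - 1)) * p ^ (b - c + 1) →
  c ≤ lev p (fun x : P => ind M (fun y => (r y).trace) (x : G))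

/-- MAJ. The theorem, for an arbitrary Sylow subgroup `P` of `G`, and `p ∤ |G : M|`.
PROOF. By Sylow's theorem some conjugate `P' = g⁻¹ P g` is contained in `M`; `PowC`, `nR`, `nK` and the level of
the restriction of the class function `ψ^G` are the same for `P` and `P'` (`lev_comp`). -/
def SpecMAJ : Prop := ∀ (p : ℕ), p.Prime → ∀ {G : Type} [Group G] [Fintype G] (M P : Subgroup G),
  ¬ p ∣ M.index → Nat.card P = p ^ (Fintype.card G).factorization p → ∀ {n : ℕ}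
  (r : M →* Matrix (Fin n) (Fin n) ℂ), Sch r → ¬ p ∣ n → ∀ (b c : ℕ),
  lev p (fun y => (r y).trace) = b → 2 ≤ c → c ≤ b → (p ≠ 2 ∨ 3 ≤ c ∨ c = b) →
  PowC P (p ^ (c - 1)) → nR P (p ^ (c - 1)) < nK P (p ^ (c - 1)) * p ^ (b - c + 1) →
  c ≤ lev p (fun x : P => ind M (fun y => (r y).trace) (x : G))

/-- LRS. Levels: the level of a restriction is at most the level, and the level of `ψ^G` is at most
the level of `ψ`.
PROOF. All values are in the same cyclotomic field (`lev_le`, `lev_spec`, `conductor_spec`). -/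
def SpecLRS : Prop := ∀ (p : ℕ), p.Prime → ∀ {G : Type} [Group G] [Fintype G] (M P : Subgroup G)
  (ψ : M → ℂ), IsCharacter ψ →
  lev p (fun x : P => ind M ψ (x : G)) ≤ lev p (ind M ψ) ∧ lev p (ind M ψ) ≤ lev p ψ

/-- CNT. If `P` is an abelian Sylow `p`-subgroup of `G`, then
`|R| · |C_G(P)| ≤ nK · |N_G(P)|`.
PROOF. `R = {x^q : x ∈ P} ⊆ P`. By Burnside's theorem elements of `P` (they centralize `P`) which are
conjugate in `G` are conjugate in `N_G(P)` (`Sylow.conj_eq_normalizer_conj_of_mem_centralizer`); so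
each class of `G` contains at most `|N_G(P) : C_G(P)|` elements of `R` (`n⁻¹ z n` depends only on the
coset of `n` modulo `C_G(P)`); sum over the `nK` classes. -/
def SpecCNT : Prop := ∀ (p : ℕ), p.Prime → ∀ {G : Type} [Group G] [Fintype G] (P : Subgroup G),
  Nat.card P = p ^ (Fintype.card G).factorization p → (∀ x ∈ P, ∀ y ∈ P, x * y = y * x) →
  ∀ q : ℕ, nR P q * Nat.card (Subgroup.centralizer (P : Set G)) ≤
    nK P q * Nat.card (Subgroup.normalizer (P : Set G))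

end Pool.Agent.Lib.MP_1aae89_al.W
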